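import Pool.Agent.Lib.MP_848d44_nt.B.AvO

/-!
# MP_848d44_nt: shifted sums with arbitrary coefficients on average over the modulus
-/

set_option autoImplicit false

namespace Pool.Agent.M848

open Finset
open scoped ArithmeticFunction ComplexConjugate

noncomputable section

namespace AddA

open MP848 L1Aux AvB AvO

theorem ee_int (n : ℤ) : ee (n : ℝ) = 1 := by
  rw [ee, Complex.exp_eq_one_iff]
  refine ⟨n, ?_⟩
  push_cast
  ring

theorem char_sum {s : ℕ} (hs : 1 ≤ s) (m : ℤ) :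
    ∑ β ∈ Ico 1 s, ee ((m : ℝ) * ((β : ℝ) / s)) = (if (s : ℤ) ∣ m then (s : ℂ) else 0) - 1 := by
  have hs0 : (s : ℝ) ≠ 0 := by positivity
  set z := ee ((m : ℝ) / s) with hz
  have h1 : ∀ β : ℕ, ee ((m : ℝ) * ((β : ℝ) / s)) = z ^ β := by
    intro β
    rw [hz, ← ee_nat_mul]
    congr 1
    ring
  have h2 : ∑ β ∈ Ico 1 s, z ^ β = ∑ β ∈ range s, z ^ β - 1 := by
    have h3 := Finset.sum_range_add_sum_Ico (fun β => z ^ β) hs
    rw [Finset.sum_range_one, pow_zero] at h3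
    rw [← h3]
    ring
  simp only [h1]
  rw [h2]
  congr 1
  split_ifs with h
  · obtain ⟨k, hk⟩ := h
    have : z = 1 := by
      rw [hz, hk]
      push_cast
      rw [mul_div_cancel_left₀ _ hs0]
      exact ee_int k
    rw [this]
    simp
  · have hz1 : z ≠ 1 := by
      intro hz1
      apply h
      have h3 := ee_sub_one ((m : ℝ) / s)
      rw [← hz, hz1, sub_self, norm_zero] at h3
      have h4 : dni ((m : ℝ) / s) = 0 := le_antisymm (by linarith) (abs_nonneg _)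
      rw [dni, abs_eq_zero, sub_eq_zero, div_eq_iff hs0] at h4
      refine ⟨round ((m : ℝ) / s), ?_⟩
      rw [mul_comm]
      exact_mod_cast h4
    have hzs : z ^ s = 1 := by
      rw [hz, ← ee_nat_mul, mul_div_cancel₀ _ hs0]
      exact ee_int m
    rw [geom_sum_eq hz1, hzs, sub_self, zero_div]

/-- the large sieve with residues modulo `d` -/
theorem ls_res (N R d : ℕ) (hR : 1 ≤ R) (hRN : R ^ 2 ≤ N) (Y : ℕ) (hY : Y ≤ N) (c : ℕ → ℂ)
    (p : ℕ → ℕ → Prop) [∀ r v, Decidable (p r v)]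
    (hp : ∀ v, ((range d).filter fun r => p r v).card ≤ 1) :
    ∑ r ∈ range d, ∑ s ∈ PR R, ∑ β ∈ Ico 1 s,
      ‖∑ v ∈ Icc 1 Y, c v * (if p r v then (1 : ℂ) else 0) * ee (v * ((β : ℝ) / s))‖ ^ 2 ≤
      13 * N * (1 + Real.log N) * ∑ v ∈ Icc 1 Y, ‖c v‖ ^ 2 := by
  have hRr : (1 : ℝ) ≤ R := by exact_mod_cast hR
  have hRN' : (R : ℝ) ^ 2 ≤ N := by exact_mod_cast hRN
  have hTr : (Y : ℝ) ≤ N := by exact_mod_cast hY
  have hN1 : (1 : ℝ) ≤ N := le_trans (by nlinarith) hRN'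
  have hlog : 0 ≤ Real.log N := Real.log_nonneg hN1
  have h4 : Real.log (4 * (R : ℝ) ^ 2) ≤ 2 + Real.log N := by
    have h5 : Real.log (4 * (R : ℝ) ^ 2) ≤ Real.log (4 * N) :=
      Real.log_le_log (by positivity) (by linarith)
    have h7 : Real.log (4 * (N : ℝ)) = Real.log 4 + Real.log N :=
      Real.log_mul (by norm_num) (by positivity)
    have h8 : Real.log 4 ≤ 2 := by
      rw [show (4 : ℝ) = 2 ^ 2 by norm_num, Real.log_pow]
      have := Real.log_two_lt_d9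
      push_cast
      linarith
    linarith
  have h6 : 0 ≤ Real.log (4 * (R : ℝ) ^ 2) := Real.log_nonneg (by nlinarith)
  have h9 : (Y : ℝ) + 4 * (R : ℝ) ^ 2 * (1 + Real.log (4 * (R : ℝ) ^ 2)) ≤
      13 * N * (1 + Real.log N) := by
    calc (Y : ℝ) + 4 * (R : ℝ) ^ 2 * (1 + Real.log (4 * (R : ℝ) ^ 2))
        ≤ N + 4 * N * (1 + (2 + Real.log N)) := by gcongr
      _ ≤ 13 * N * (1 + Real.log N) := by nlinarith
  have h1 : ∀ r ∈ range d, ∑ s ∈ PR R, ∑ β ∈ Ico 1 s,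
      ‖∑ v ∈ Icc 1 Y, c v * (if p r v then (1 : ℂ) else 0) * ee (v * ((β : ℝ) / s))‖ ^ 2 ≤
      13 * N * (1 + Real.log N) * ∑ v ∈ Icc 1 Y, ‖c v‖ ^ 2 * (if p r v then (1 : ℝ) else 0) := by
    intro r _
    have h := ls_prs hR (fun v => c v * (if p r v then (1 : ℂ) else 0)) 0 Y
    rw [Ioc_eq] at h
    refine h.trans ?_
    have h2 : ∀ v, ‖c v * (if p r v then (1 : ℂ) else 0)‖ ^ 2 =
        ‖c v‖ ^ 2 * (if p r v then (1 : ℝ) else 0) := by
      intro v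
      split_ifs <;> simp
    simp only [h2]
    refine mul_le_mul_of_nonneg_right h9 (Finset.sum_nonneg fun v _ => ?_)
    split_ifs <;> positivity
  refine (Finset.sum_le_sum h1).trans ?_
  rw [← Finset.mul_sum, Finset.sum_comm]
  refine mul_le_mul_of_nonneg_left (Finset.sum_le_sum fun v _ => ?_) (by positivity)
  rw [← Finset.mul_sum, Finset.sum_boole]
  have h2 : ((((range d).filter fun r => p r v).card : ℕ) : ℝ) ≤ 1 := by exact_mod_cast hp v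
  calc ‖c v‖ ^ 2 * ((((range d).filter fun r => p r v).card : ℕ) : ℝ) ≤ ‖c v‖ ^ 2 * 1 := by
        gcongr
    _ = ‖c v‖ ^ 2 := mul_one _

theorem card_mod (d n : ℕ) : ((range d).filter fun r => n % d = r).card ≤ 1 := by
  rw [Finset.card_le_one]
  intro x hx y hy
  rw [Finset.mem_filter] at hx hy
  rw [← hx.2, ← hy.2]

theorem card_dvd (d : ℕ) (σ : ℤ) (v : ℕ) :
    ((range d).filter fun r : ℕ => (d : ℤ) ∣ (r : ℤ) + σ * v).card ≤ 1 := by
  rw [Finset.card_le_one]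
  intro x hx y hy
  rw [Finset.mem_filter, Finset.mem_range] at hx hy
  have h1 : (d : ℤ) ∣ (x : ℤ) - y := by
    have := dvd_sub hx.2 hy.2
    rwa [show (x : ℤ) + σ * v - (y + σ * v) = x - y by ring] at this
  have h2 : (x : ℤ) - y = 0 := by
    apply Int.eq_zero_of_abs_lt_dvd h1
    rw [abs_lt]
    constructor <;> omega
  omega

/-- the sum over `n` -/
def AS (a : ℕ → ℝ) (d r s β y : ℕ) : ℂ :=
  ∑ n ∈ Icc 1 y, (a n : ℂ) * (if n % d = r then (1 : ℂ) else 0) * ee (n * ((β : ℝ) / s))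

/-- the sum over `v` -/
def US (w : ℕ → ℂ) (N d : ℕ) (σ : ℤ) (r s β : ℕ) (t : ℕ → ℝ) : ℂ :=
  ∑ v ∈ Icc 1 N, w v * (if (d : ℤ) ∣ (r : ℤ) + σ * v then (1 : ℂ) else 0) * (t v : ℂ) *
    ee ((σ * v : ℤ) * ((β : ℝ) / s))

theorem AS_sq (N R d : ℕ) (hR : 1 ≤ R) (hRN : R ^ 2 ≤ N) (Y : ℕ) (hY : Y ≤ N) (a : ℕ → ℝ)
    (K : ℝ) (ha : ∀ n ∈ Icc 1 N, |a n| ≤ K) :
    ∑ r ∈ range d, ∑ s ∈ PR R, ∑ β ∈ Ico 1 s, ‖AS a d r s β Y‖ ^ 2 ≤
      13 * N ^ 2 * (1 + Real.log N) * K ^ 2 := by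
  have hN1 : 1 ≤ N := le_trans (Nat.one_le_pow 2 R hR) hRN
  have hNr : (1 : ℝ) ≤ N := by exact_mod_cast hN1
  have hlog : 0 ≤ Real.log N := Real.log_nonneg hNr
  have h := ls_res N R d hR hRN Y hY (fun n => (a n : ℂ)) (fun r n => n % d = r)
    (fun v => card_mod d v)
  refine h.trans ?_
  have h2 : ∑ v ∈ Icc 1 Y, ‖(a v : ℂ)‖ ^ 2 ≤ N * K ^ 2 := by
    calc ∑ v ∈ Icc 1 Y, ‖(a v : ℂ)‖ ^ 2 ≤ ∑ v ∈ Icc 1 Y, K ^ 2 := by
          refine Finset.sum_le_sum fun v hv => ?_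
          rw [Complex.norm_real, Real.norm_eq_abs]
          have hv' := Finset.mem_Icc.1 hv
          exact pow_le_pow_left₀ (abs_nonneg _)
            (ha v (Finset.mem_Icc.2 ⟨hv'.1, hv'.2.trans hY⟩)) 2
      _ = Y * K ^ 2 := by simp
      _ ≤ N * K ^ 2 := by
          have : (Y : ℝ) ≤ N := by exact_mod_cast hY
          gcongr
  calc 13 * N * (1 + Real.log N) * ∑ v ∈ Icc 1 Y, ‖(a v : ℂ)‖ ^ 2
      ≤ 13 * N * (1 + Real.log N) * (N * K ^ 2) := by gcongr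
    _ = 13 * N ^ 2 * (1 + Real.log N) * K ^ 2 := by ring

theorem US_sq (N R d : ℕ) (hR : 1 ≤ R) (hRN : R ^ 2 ≤ N) (σ : ℤ) (hσ : σ = 1 ∨ σ = -1)
    (w : ℕ → ℂ) (hw : ∀ v, ‖w v‖ ≤ (v.divisors.card : ℝ)) (t : ℕ → ℝ) (τ : ℝ)
    (ht : ∀ v, |t v| ≤ τ) :
    ∑ r ∈ range d, ∑ s ∈ PR R, ∑ β ∈ Ico 1 s, ‖US w N d σ r s β t‖ ^ 2 ≤
      13 * N ^ 2 * (1 + Real.log N) ^ 4 * τ ^ 2 := by
  have hN1 : 1 ≤ N := le_trans (Nat.one_le_pow 2 R hR) hRN
  have hNr : (1 : ℝ) ≤ N := by exact_mod_cast hN1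
  have hlog : 0 ≤ Real.log N := Real.log_nonneg hNr
  have hτ : 0 ≤ τ := (abs_nonneg _).trans (ht 0)
  have h2 : ∑ v ∈ Icc 1 N, ‖w v * (t v : ℂ)‖ ^ 2 ≤ τ ^ 2 * (N * (1 + Real.log N) ^ 3) := by
    calc ∑ v ∈ Icc 1 N, ‖w v * (t v : ℂ)‖ ^ 2
        ≤ ∑ v ∈ Icc 1 N, τ ^ 2 * ((v.divisors.card : ℕ) : ℝ) ^ 2 := by
          refine Finset.sum_le_sum fun v _ => ?_
          rw [norm_mul, Complex.norm_real, Real.norm_eq_abs, ← mul_pow]
          have h3 : ‖w v‖ * |t v| ≤ τ * (v.divisors.card : ℝ) := by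
            calc ‖w v‖ * |t v| ≤ (v.divisors.card : ℝ) * τ := by
                  have a1 := hw v
                  have a2 := ht v
                  gcongr
              _ = τ * (v.divisors.card : ℝ) := by ring
          exact pow_le_pow_left₀ (by positivity) h3 2
      _ = τ ^ 2 * ∑ v ∈ Icc 1 N, ((v.divisors.card : ℕ) : ℝ) ^ 2 := by rw [Finset.mul_sum]
      _ ≤ τ ^ 2 * (N * (1 + Real.log N) ^ 3) := by
          gcongr
          have := tau_sq_sum_log N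
          rwa [← Ioc_eq, zero_add]
  have h5 : 13 * N * (1 + Real.log N) * ∑ v ∈ Icc 1 N, ‖w v * (t v : ℂ)‖ ^ 2 ≤
      13 * N ^ 2 * (1 + Real.log N) ^ 4 * τ ^ 2 := by
    calc 13 * N * (1 + Real.log N) * ∑ v ∈ Icc 1 N, ‖w v * (t v : ℂ)‖ ^ 2
        ≤ 13 * N * (1 + Real.log N) * (τ ^ 2 * (N * (1 + Real.log N) ^ 3)) := by gcongr
      _ = 13 * N ^ 2 * (1 + Real.log N) ^ 4 * τ ^ 2 := by ring
  rcases hσ with h | h
  · have h6 := ls_res N R d hR hRN N le_rfl (fun v => w v * (t v : ℂ))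
      (fun r v => (d : ℤ) ∣ (r : ℤ) + σ * v) (fun v => card_dvd d σ v)
    refine le_trans (le_of_eq ?_) (h6.trans h5)
    refine Finset.sum_congr rfl fun r _ => Finset.sum_congr rfl fun s _ =>
      Finset.sum_congr rfl fun β _ => ?_
    congr 2
    rw [US]
    refine Finset.sum_congr rfl fun v _ => ?_
    have e1 : (((σ * v : ℤ) : ℝ) * ((β : ℝ) / s)) = (v : ℝ) * ((β : ℝ) / s) := by
      rw [h]; push_cast; ring
    rw [e1]
    ring
  · have h6 := ls_res N R d hR hRN N le_rfl (fun v => conj (w v) * (t v : ℂ))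
      (fun r v => (d : ℤ) ∣ (r : ℤ) + σ * v) (fun v => card_dvd d σ v)
    have h7 : ∑ v ∈ Icc 1 N, ‖conj (w v) * (t v : ℂ)‖ ^ 2 = ∑ v ∈ Icc 1 N, ‖w v * (t v : ℂ)‖ ^ 2 := by
      refine Finset.sum_congr rfl fun v _ => ?_
      rw [norm_mul, norm_mul, RCLike.norm_conj]
    rw [h7] at h6
    refine le_trans (le_of_eq ?_) (h6.trans h5)
    refine Finset.sum_congr rfl fun r _ => Finset.sum_congr rfl fun s _ =>
      Finset.sum_congr rfl fun β _ => ?_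
    congr 1
    rw [US, ← RCLike.norm_conj, map_sum]
    congr 1
    refine Finset.sum_congr rfl fun v _ => ?_
    have e1 : (((σ * v : ℤ) : ℝ) * ((β : ℝ) / s)) = -((v : ℝ) * ((β : ℝ) / s)) := by
      rw [h]; push_cast; ring
    have e2 : conj (if (d : ℤ) ∣ (r : ℤ) + σ * v then (1 : ℂ) else 0) =
        (if (d : ℤ) ∣ (r : ℤ) + σ * v then (1 : ℂ) else 0) := by
      split_ifs <;> simp
    rw [map_mul, map_mul, map_mul, e1, ee_conj, neg_neg, Complex.conj_ofReal, e2]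
    ring

/-- Cauchy-Schwarz for triple sums -/
theorem cs3 (D : Finset ℕ) (S : Finset ℕ) (X : ℕ → Finset ℕ) (f g : ℕ → ℕ → ℕ → ℝ) (A B : ℝ)
    (hA : ∑ r ∈ D, ∑ s ∈ S, ∑ β ∈ X s, f r s β ^ 2 ≤ A)
    (hB : ∑ r ∈ D, ∑ s ∈ S, ∑ β ∈ X s, g r s β ^ 2 ≤ B) :
    ∑ r ∈ D, ∑ s ∈ S, ∑ β ∈ X s, f r s β * g r s β ≤ Real.sqrt A * Real.sqrt B := by
  have h := Real.sum_mul_le_sqrt_mul_sqrt (D ×ˢ (S.sigma X))
    (fun p => f p.1 p.2.1 p.2.2) (fun p => g p.1 p.2.1 p.2.2)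
  rw [Finset.sum_product, Finset.sum_product, Finset.sum_product] at h
  simp only [Finset.sum_sigma] at h
  exact h.trans (mul_le_mul (Real.sqrt_le_sqrt hA) (Real.sqrt_le_sqrt hB) (Real.sqrt_nonneg _)
    (Real.sqrt_nonneg _))

theorem comm4 (N R d : ℕ) (g : ℕ → ℕ → ℕ → ℕ → ℝ) :
    ∑ r ∈ range d, ∑ s ∈ PR R, ∑ β ∈ Ico 1 s, ∑ y ∈ Icc 1 N, g r s β y =
      ∑ y ∈ Icc 1 N, ∑ r ∈ range d, ∑ s ∈ PR R, ∑ β ∈ Ico 1 s, g r s β y := by
  have e1 : ∀ r ∈ range d, ∑ s ∈ PR R, ∑ β ∈ Ico 1 s, ∑ y ∈ Icc 1 N, g r s β y =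
      ∑ y ∈ Icc 1 N, ∑ s ∈ PR R, ∑ β ∈ Ico 1 s, g r s β y := by
    intro r _
    have e2 : ∀ s ∈ PR R, ∑ β ∈ Ico 1 s, ∑ y ∈ Icc 1 N, g r s β y =
      ∑ y ∈ Icc 1 N, ∑ β ∈ Ico 1 s, g r s β y := fun s _ => Finset.sum_comm
    rw [Finset.sum_congr rfl e2, Finset.sum_comm]
  rw [Finset.sum_congr rfl e1, Finset.sum_comm]

/-- the bilinear form for one `d` -/
theorem bil_d (N R d : ℕ) (hR : 1 ≤ R) (hRN : R ^ 2 ≤ N) (σ : ℤ) (hσ : σ = 1 ∨ σ = -1)
    (a : ℕ → ℝ) (K : ℝ) (hK : 0 ≤ K) (ha : ∀ n ∈ Icc 1 N, |a n| ≤ K)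
    (w : ℕ → ℂ) (hw : ∀ v, ‖w v‖ ≤ (v.divisors.card : ℝ)) :
    ∑ r ∈ range d, ∑ s ∈ PR R, ∑ β ∈ Ico 1 s,
      ‖∑ n ∈ Icc 1 N, (a n : ℂ) * (if n % d = r then (1 : ℂ) else 0) * ee (n * ((β : ℝ) / s)) *
        US w N d σ r s β (fun v => tent N ((n : ℤ) + σ * v))‖ ≤
      26 * K * (1 + Real.log N) ^ 3 * N ^ 2 := by
  have hN1 : 1 ≤ N := le_trans (Nat.one_le_pow 2 R hR) hRN
  have hNr : (1 : ℝ) ≤ N := by exact_mod_cast hN1
  have hNpos : (0 : ℝ) < N := by linarith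
  have hlog : 0 ≤ Real.log N := Real.log_nonneg hNr
  set L : ℝ := 1 + Real.log N with hL
  have hL1 : 1 ≤ L := by linarith
  set U : ℕ → ℕ → ℕ → ℤ → ℂ := fun r s β y =>
    US w N d σ r s β (fun v => tent N (y + σ * v)) with hU
  have hUd : ∀ r s β y, U r s β y - U r s β (y + 1) =
      US w N d σ r s β (fun v => tent N (y + σ * v) - tent N (y + σ * v + 1)) := by
    intro r s β y
    simp only [hU, US]
    rw [← Finset.sum_sub_distrib]
    refine Finset.sum_congr rfl fun v _ => ?_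
    rw [show y + 1 + σ * (v : ℤ) = y + σ * v + 1 by ring]
    push_cast
    ring
  have hdu : ∀ y : ℤ, ∑ r ∈ range d, ∑ s ∈ PR R, ∑ β ∈ Ico 1 s,
      ‖U r s β y - U r s β (y + 1)‖ ^ 2 ≤ 13 * L ^ 4 := by
    intro y
    simp only [hUd]
    have h := US_sq N R d hR hRN σ hσ w hw
      (fun v => tent N (y + σ * v) - tent N (y + σ * v + 1)) (1 / N)
      (fun v => tent_lip N _)
    refine h.trans (le_of_eq ?_)
    rw [← hL]
    field_simp
  have hu : ∀ y : ℤ, ∑ r ∈ range d, ∑ s ∈ PR R, ∑ β ∈ Ico 1 s, ‖U r s β y‖ ^ 2 ≤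
      13 * N ^ 2 * L ^ 4 := by
    intro y
    have h := US_sq N R d hR hRN σ hσ w hw (fun v => tent N (y + σ * v)) 1
      (fun v => by
        rw [abs_of_nonneg (tent_nonneg N _)]
        exact (tent_le N _).trans (by norm_num))
    refine h.trans (le_of_eq ?_)
    rw [← hL]
    ring
  have hsl := fun y (hy : y ≤ N) => AS_sq N R d hR hRN y hy a K ha
  -- the terms
  have hterm : ∀ r s β : ℕ, ‖∑ n ∈ Icc 1 N, (a n : ℂ) * (if n % d = r then (1 : ℂ) else 0) *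
        ee (n * ((β : ℝ) / s)) * US w N d σ r s β (fun v => tent N ((n : ℤ) + σ * v))‖ ≤
      ∑ y ∈ Icc 1 N, ‖AS a d r s β y‖ * ‖U r s β (y : ℤ) - U r s β ((y : ℤ) + 1)‖ +
        ‖AS a d r s β N‖ * ‖U r s β ((N : ℤ) + 1)‖ := by
    intro r s β
    have hab := OffBAux.abel (fun n => (a n : ℂ) * (if n % d = r then (1 : ℂ) else 0) *
        ee (n * ((β : ℝ) / s))) (U r s β) N
    have hS : ∀ y, ∑ n ∈ Icc 1 y, (a n : ℂ) * (if n % d = r then (1 : ℂ) else 0) *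
        ee (n * ((β : ℝ) / s)) = AS a d r s β y := fun y => rfl
    simp only [hS] at hab
    change ‖∑ n ∈ Icc 1 N, (a n : ℂ) * (if n % d = r then (1 : ℂ) else 0) *
        ee (n * ((β : ℝ) / s)) * U r s β (n : ℤ)‖ ≤ _
    rw [hab]
    refine (norm_add_le _ _).trans (add_le_add ?_ ?_)
    · refine (norm_sum_le _ _).trans (Finset.sum_le_sum fun y _ => ?_)
      rw [norm_mul]
    · rw [norm_mul]
  calc _ ≤ ∑ r ∈ range d, ∑ s ∈ PR R, ∑ β ∈ Ico 1 s,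
        (∑ y ∈ Icc 1 N, ‖AS a d r s β y‖ * ‖U r s β (y : ℤ) - U r s β ((y : ℤ) + 1)‖ +
        ‖AS a d r s β N‖ * ‖U r s β ((N : ℤ) + 1)‖) :=
        Finset.sum_le_sum fun r _ => Finset.sum_le_sum fun s _ => Finset.sum_le_sum fun β _ =>
          hterm r s β
    _ = ∑ y ∈ Icc 1 N, ∑ r ∈ range d, ∑ s ∈ PR R, ∑ β ∈ Ico 1 s,
          ‖AS a d r s β y‖ * ‖U r s β (y : ℤ) - U r s β ((y : ℤ) + 1)‖ +
        ∑ r ∈ range d, ∑ s ∈ PR R, ∑ β ∈ Ico 1 s, ‖AS a d r s β N‖ * ‖U r s β ((N : ℤ) + 1)‖ := by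
        simp only [Finset.sum_add_distrib]
        congr 1
        exact comm4 N R d (fun r s β y =>
          ‖AS a d r s β y‖ * ‖U r s β (y : ℤ) - U r s β ((y : ℤ) + 1)‖)
    _ ≤ ∑ y ∈ Icc 1 N, 13 * N * K * L ^ 3 + 13 * N ^ 2 * K * L ^ 3 := by
        refine add_le_add (Finset.sum_le_sum fun y hy => ?_) ?_
        · refine (cs3 (range d) (PR R) (fun s => Ico 1 s) (fun r s β => ‖AS a d r s β y‖)
            (fun r s β => ‖U r s β (y : ℤ) - U r s β ((y : ℤ) + 1)‖) _ _ (hsl y (mem_Icc.1 hy).2)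
            (hdu y)).trans ?_
          rw [← Real.sqrt_mul (by positivity), Real.sqrt_le_left (by positivity)]
          rw [← hL]
          have : L ^ 5 ≤ L ^ 6 := pow_le_pow_right₀ hL1 (by norm_num)
          calc 13 * (N : ℝ) ^ 2 * L * K ^ 2 * (13 * L ^ 4) = 169 * (N : ℝ) ^ 2 * K ^ 2 * L ^ 5 := by
                ring
            _ ≤ 169 * (N : ℝ) ^ 2 * K ^ 2 * L ^ 6 := by gcongr
            _ = (13 * N * K * L ^ 3) ^ 2 := by ring
        · refine (cs3 (range d) (PR R) (fun s => Ico 1 s) (fun r s β => ‖AS a d r s β N‖)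
            (fun r s β => ‖U r s β ((N : ℤ) + 1)‖) _ _ (hsl N le_rfl) (hu _)).trans ?_
          rw [← Real.sqrt_mul (by positivity), Real.sqrt_le_left (by positivity)]
          rw [← hL]
          have : L ^ 5 ≤ L ^ 6 := pow_le_pow_right₀ hL1 (by norm_num)
          calc 13 * (N : ℝ) ^ 2 * L * K ^ 2 * (13 * N ^ 2 * L ^ 4) =
              169 * (N : ℝ) ^ 4 * K ^ 2 * L ^ 5 := by
                ring
            _ ≤ 169 * (N : ℝ) ^ 4 * K ^ 2 * L ^ 6 := by gcongr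
            _ = (13 * N ^ 2 * K * L ^ 3) ^ 2 := by ring
    _ = 26 * K * L ^ 3 * N ^ 2 := by
        rw [Finset.sum_const, Nat.card_Icc, nsmul_eq_mul, Nat.add_sub_cancel]
        ring

/-- expansion of the test function -/
theorem fs_expand (b : ℕ → ℝ) (T N s : ℕ) (hs : 1 ≤ s) (σ : ℤ) (n v : ℕ) :
    ((fs b T N s ((n : ℤ) + σ * v) : ℝ) : ℂ) = ∑ d ∈ Icc 1 T, (b d : ℂ) * ((1 / (s : ℂ)) *
      ∑ r ∈ range d, ∑ β ∈ Ico 1 s, (if n % d = r then (1 : ℂ) else 0) *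
        (if (d : ℤ) ∣ (r : ℤ) + σ * v then (1 : ℂ) else 0) *
        (tent N ((n : ℤ) + σ * v) : ℂ) * (ee (n * ((β : ℝ) / s)) *
        ee ((σ * v : ℤ) * ((β : ℝ) / s)))) := by
  have hs0 : (s : ℂ) ≠ 0 := by
    have : s ≠ 0 := by omega
    exact_mod_cast this
  set m : ℤ := (n : ℤ) + σ * v with hm
  have h1 : ∀ β : ℕ, ee (n * ((β : ℝ) / s)) * ee ((σ * v : ℤ) * ((β : ℝ) / s)) =
      ee ((m : ℝ) * ((β : ℝ) / s)) := by
    intro β
    rw [← ee_add, hm]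
    congr 1
    push_cast
    ring
  have h2 : ∀ d ∈ Icc 1 T, ∑ r ∈ range d, (if n % d = r then (1 : ℂ) else 0) *
      (if (d : ℤ) ∣ (r : ℤ) + σ * v then (1 : ℂ) else 0) = if (d : ℤ) ∣ m then (1 : ℂ) else 0 := by
    intro d hd
    have hd1 := (Finset.mem_Icc.1 hd).1
    rw [Finset.sum_eq_single (n % d)]
    · rw [if_pos rfl, one_mul]
      have h3 : (d : ℤ) ∣ ((n % d : ℕ) : ℤ) + σ * v ↔ (d : ℤ) ∣ m := by
        have h4 : m = (((n % d : ℕ) : ℤ) + σ * v) + d * ((n / d : ℕ) : ℤ) := by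
          have := Nat.mod_add_div n d
          rw [hm]
          conv_lhs => rw [← this]
          push_cast
          ring
        rw [h4]
        constructor
        · intro h
          exact dvd_add h (dvd_mul_right _ _)
        · intro h
          exact (dvd_add_left (dvd_mul_right _ _)).1 h
      simp only [h3]
    · intro r _ hr
      rw [if_neg (Ne.symm hr), zero_mul]
    · intro h
      exact absurd (Finset.mem_range.2 (Nat.mod_lt _ hd1)) h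
  have h3 : ∀ d ∈ Icc 1 T, (b d : ℂ) * ((1 / (s : ℂ)) *
      ∑ r ∈ range d, ∑ β ∈ Ico 1 s, (if n % d = r then (1 : ℂ) else 0) *
        (if (d : ℤ) ∣ (r : ℤ) + σ * v then (1 : ℂ) else 0) * (tent N m : ℂ) *
        (ee (n * ((β : ℝ) / s)) * ee ((σ * v : ℤ) * ((β : ℝ) / s)))) =
      (tent N m : ℂ) * ((if (s : ℤ) ∣ m then (1 : ℂ) else 0) - 1 / s) *
        (if (d : ℤ) ∣ m then (b d : ℂ) else 0) := by
    intro d hd
    have h4 : ∑ r ∈ range d, ∑ β ∈ Ico 1 s, (if n % d = r then (1 : ℂ) else 0) *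
        (if (d : ℤ) ∣ (r : ℤ) + σ * v then (1 : ℂ) else 0) * (tent N m : ℂ) *
        (ee (n * ((β : ℝ) / s)) * ee ((σ * v : ℤ) * ((β : ℝ) / s))) =
        (if (d : ℤ) ∣ m then (1 : ℂ) else 0) * (tent N m : ℂ) *
          ((if (s : ℤ) ∣ m then (s : ℂ) else 0) - 1) := by
      rw [← char_sum hs m, ← h2 d hd, Finset.sum_mul, Finset.sum_mul]
      refine Finset.sum_congr rfl fun r _ => ?_
      rw [Finset.mul_sum]
      refine Finset.sum_congr rfl fun β _ => ?_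
      rw [h1]
    rw [h4]
    split_ifs <;> field_simp <;> ring
  rw [Finset.sum_congr rfl h3, ← Finset.mul_sum, fs, lam, Finset.sum_filter]
  push_cast
  congr 1
  · congr 1
    congr 1
    split_ifs <;> simp
  · refine Finset.sum_congr rfl fun d _ => ?_
    split_ifs <;> simp

end AddA

open AddA MP848 AvO

/-- ADD. Shifted sums of the test function of a block of primes, with arbitrary coefficients, on
average over the modulus. -/
theorem add_avg (b : ℕ → ℝ) (T N R : ℕ) (hR : 1 ≤ R) (hRN : R ^ 2 ≤ N) (σ : ℤ)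
    (hσ : σ = 1 ∨ σ = -1) (I : Finset ℕ) (hI : ∀ q ∈ I, 1 ≤ q) (a : ℕ → ℝ) (K : ℝ)
    (hK : 0 ≤ K) (ha : ∀ n ∈ Icc 1 N, |a n| ≤ K) :
    ∑ q ∈ I, |∑ n ∈ Icc 1 N, a n * ∑ h ∈ Icc 1 (N / q), ∑ s ∈ PR R,
      fs b T N s ((n : ℤ) + σ * (h * q))| ≤
      BB b T * (26 * K * (1 + Real.log N) ^ 3 * (N ^ 2 / R)) := by
  have hRr : (1 : ℝ) ≤ R := by exact_mod_cast hR
  have hRpos : (0 : ℝ) < R := by linarith
  have hPR : ∀ s ∈ PR R, R < s := by
    intro s hs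
    rw [PR, mem_filter, mem_Ioc] at hs
    exact hs.1.1
  -- the signs
  set W : ℕ → ℝ := fun q => ∑ n ∈ Icc 1 N, a n * ∑ h ∈ Icc 1 (N / q), ∑ s ∈ PR R,
      fs b T N s ((n : ℤ) + σ * (h * q)) with hW
  set ε : ℕ → ℝ := fun q => if 0 ≤ W q then 1 else -1 with hε
  have hε1 : ∀ q, |ε q| ≤ 1 := by
    intro q
    simp only [hε]
    split_ifs <;> simp
  have hεW : ∀ q, |W q| = ε q * W q := by
    intro q
    simp only [hε]
    split_ifs with h
    · rw [abs_of_nonneg h, one_mul]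
    · rw [abs_of_neg (not_le.1 h), neg_one_mul]
  set w : ℕ → ℂ := ev I N ε with hw
  have hwv : ∀ v, ‖w v‖ ≤ (v.divisors.card : ℝ) := ev_le I N ε hε1 hI
  have h0 : 0 ≤ ∑ q ∈ I, |W q| := Finset.sum_nonneg fun _ _ => abs_nonneg _
  -- the sum over the moduli
  have hsum : ((∑ q ∈ I, |W q| : ℝ) : ℂ) = ∑ n ∈ Icc 1 N, (a n : ℂ) * ∑ v ∈ Icc 1 N,
      w v * ∑ s ∈ PR R, ((fs b T N s ((n : ℤ) + σ * v) : ℝ) : ℂ) := by
    have e1 : ∀ n ∈ Icc 1 N, ∑ v ∈ Icc 1 N,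
        w v * ∑ s ∈ PR R, ((fs b T N s ((n : ℤ) + σ * v) : ℝ) : ℂ) =
        ∑ q ∈ I, ((ε q : ℝ) : ℂ) * ∑ h ∈ Icc 1 (N / q), ∑ s ∈ PR R,
          ((fs b T N s ((n : ℤ) + σ * (h * q)) : ℝ) : ℂ) := by
      intro n _
      simp only [hw, ev, Finset.sum_mul]
      rw [Finset.sum_comm]
      refine Finset.sum_congr rfl fun q hq => ?_
      rw [Finset.sum_comm, Finset.mul_sum]
      refine Finset.sum_congr rfl fun h hh => ?_
      have hq1 := hI q hq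
      have hh' := Finset.mem_Icc.1 hh
      have hmem : h * q ∈ Icc 1 N := by
        rw [Finset.mem_Icc]
        refine ⟨Nat.mul_pos hh'.1 hq1, ?_⟩
        exact (Nat.le_div_iff_mul_le hq1).1 hh'.2
      rw [Finset.sum_eq_single (h * q)]
      · rw [if_pos rfl]
        push_cast
        ring
      · intro v _ hv
        rw [if_neg (Ne.symm hv)]
        simp
      · intro hnot
        exact absurd hmem hnot
    have e2 : ∑ n ∈ Icc 1 N, (a n : ℂ) * ∑ v ∈ Icc 1 N,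
      w v * ∑ s ∈ PR R, ((fs b T N s ((n : ℤ) + σ * v) : ℝ) : ℂ) =
      ∑ n ∈ Icc 1 N, (a n : ℂ) * ∑ q ∈ I, ((ε q : ℝ) : ℂ) * ∑ h ∈ Icc 1 (N / q), ∑ s ∈ PR R,
          ((fs b T N s ((n : ℤ) + σ * (h * q)) : ℝ) : ℂ) :=
      Finset.sum_congr rfl fun n hn => by rw [e1 n hn]
    rw [e2, Complex.ofReal_sum, Finset.sum_congr rfl fun q _ => by rw [hεW q]]
    simp only [hW]
    push_cast
    simp only [Finset.mul_sum]
    rw [Finset.sum_comm]
    refine Finset.sum_congr rfl fun n _ => Finset.sum_congr rfl fun q _ =>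
      Finset.sum_congr rfl fun h _ => Finset.sum_congr rfl fun s _ => ?_
    ring
  have hexp : ∑ n ∈ Icc 1 N, (a n : ℂ) * ∑ v ∈ Icc 1 N,
      w v * ∑ s ∈ PR R, ((fs b T N s ((n : ℤ) + σ * v) : ℝ) : ℂ) =
      ∑ d ∈ Icc 1 T, (b d : ℂ) * ∑ r ∈ range d, ∑ s ∈ PR R, (1 / (s : ℂ)) * ∑ β ∈ Ico 1 s,
        ∑ n ∈ Icc 1 N, (a n : ℂ) * (if n % d = r then (1 : ℂ) else 0) * ee (n * ((β : ℝ) / s)) *
        US w N d σ r s β (fun v => tent N ((n : ℤ) + σ * v)) := by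
    have e1 : ∀ n v : ℕ, ∑ s ∈ PR R, ((fs b T N s ((n : ℤ) + σ * v) : ℝ) : ℂ) =
        ∑ s ∈ PR R, ∑ d ∈ Icc 1 T, (b d : ℂ) * ((1 / (s : ℂ)) *
      ∑ r ∈ range d, ∑ β ∈ Ico 1 s, (if n % d = r then (1 : ℂ) else 0) *
        (if (d : ℤ) ∣ (r : ℤ) + σ * v then (1 : ℂ) else 0) *
        (tent N ((n : ℤ) + σ * v) : ℂ) * (ee (n * ((β : ℝ) / s)) *
        ee ((σ * v : ℤ) * ((β : ℝ) / s)))) := by
      intro n v
      refine Finset.sum_congr rfl fun s hs => ?_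
      have := hPR s hs
      exact fs_expand b T N s (by omega) σ n v
    simp only [e1]
    -- move all the sums
    have e2 : ∀ n ∈ Icc 1 N, (a n : ℂ) * ∑ v ∈ Icc 1 N, w v * ∑ s ∈ PR R, ∑ d ∈ Icc 1 T,
        (b d : ℂ) * ((1 / (s : ℂ)) *
      ∑ r ∈ range d, ∑ β ∈ Ico 1 s, (if n % d = r then (1 : ℂ) else 0) *
        (if (d : ℤ) ∣ (r : ℤ) + σ * v then (1 : ℂ) else 0) *
        (tent N ((n : ℤ) + σ * v) : ℂ) * (ee (n * ((β : ℝ) / s)) *
        ee ((σ * v : ℤ) * ((β : ℝ) / s)))) =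
        ∑ d ∈ Icc 1 T, (b d : ℂ) * ∑ r ∈ range d, ∑ s ∈ PR R, (1 / (s : ℂ)) * ∑ β ∈ Ico 1 s,
          (a n : ℂ) * (if n % d = r then (1 : ℂ) else 0) * ee (n * ((β : ℝ) / s)) *
          US w N d σ r s β (fun v => tent N ((n : ℤ) + σ * v)) := by
      intro n _
      simp only [US, Finset.mul_sum]
      rw [Finset.sum_comm]
      have e3 : ∀ s ∈ PR R, ∑ v ∈ Icc 1 N, ∑ d ∈ Icc 1 T, ∑ r ∈ range d, ∑ β ∈ Ico 1 s,
          (a n : ℂ) * (w v * ((b d : ℂ) * ((1 / (s : ℂ)) *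
          ((if n % d = r then (1 : ℂ) else 0) *
          (if (d : ℤ) ∣ (r : ℤ) + σ * v then (1 : ℂ) else 0) *
          (tent N ((n : ℤ) + σ * v) : ℂ) * (ee (n * ((β : ℝ) / s)) *
          ee ((σ * v : ℤ) * ((β : ℝ) / s))))))) =
          ∑ d ∈ Icc 1 T, ∑ r ∈ range d, ∑ β ∈ Ico 1 s, ∑ v ∈ Icc 1 N,
          (a n : ℂ) * (w v * ((b d : ℂ) * ((1 / (s : ℂ)) *
          ((if n % d = r then (1 : ℂ) else 0) *
          (if (d : ℤ) ∣ (r : ℤ) + σ * v then (1 : ℂ) else 0) *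
          (tent N ((n : ℤ) + σ * v) : ℂ) * (ee (n * ((β : ℝ) / s)) *
          ee ((σ * v : ℤ) * ((β : ℝ) / s))))))) := by
        intro s _
        rw [Finset.sum_comm]
        refine Finset.sum_congr rfl fun d _ => ?_
        rw [Finset.sum_comm]
        refine Finset.sum_congr rfl fun r _ => ?_
        rw [Finset.sum_comm]
      rw [Finset.sum_congr rfl e3, Finset.sum_comm]
      refine Finset.sum_congr rfl fun d _ => ?_
      rw [Finset.sum_comm]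
      refine Finset.sum_congr rfl fun r _ => Finset.sum_congr rfl fun s _ =>
        Finset.sum_congr rfl fun β _ => Finset.sum_congr rfl fun v _ => ?_
      ring
    rw [Finset.sum_congr rfl e2, Finset.sum_comm]
    refine Finset.sum_congr rfl fun d _ => ?_
    rw [← Finset.mul_sum, Finset.sum_comm]
    congr 1
    refine Finset.sum_congr rfl fun r _ => ?_
    rw [Finset.sum_comm]
    refine Finset.sum_congr rfl fun s _ => ?_
    rw [← Finset.mul_sum, Finset.sum_comm]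
  have h1 : ∑ q ∈ I, |W q| = ‖((∑ q ∈ I, |W q| : ℝ) : ℂ)‖ := by
    rw [Complex.norm_real, Real.norm_of_nonneg h0]
  rw [h1, hsum, hexp]
  refine (norm_sum_le _ _).trans ?_
  unfold BB
  rw [Finset.sum_mul]
  refine Finset.sum_le_sum fun d _ => ?_
  rw [norm_mul, Complex.norm_real, Real.norm_eq_abs]
  refine mul_le_mul_of_nonneg_left ?_ (abs_nonneg _)
  have h2 := bil_d N R d hR hRN σ hσ a K hK ha w hwv
  calc ‖∑ r ∈ range d, ∑ s ∈ PR R, (1 / (s : ℂ)) * ∑ β ∈ Ico 1 s,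
        ∑ n ∈ Icc 1 N, (a n : ℂ) * (if n % d = r then (1 : ℂ) else 0) * ee (n * ((β : ℝ) / s)) *
        US w N d σ r s β (fun v => tent N ((n : ℤ) + σ * v))‖
      ≤ ∑ r ∈ range d, ∑ s ∈ PR R, (1 / (R : ℝ)) * ∑ β ∈ Ico 1 s,
        ‖∑ n ∈ Icc 1 N, (a n : ℂ) * (if n % d = r then (1 : ℂ) else 0) * ee (n * ((β : ℝ) / s)) *
        US w N d σ r s β (fun v => tent N ((n : ℤ) + σ * v))‖ := by
        refine (norm_sum_le _ _).trans (Finset.sum_le_sum fun r _ => ?_)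
        refine (norm_sum_le _ _).trans (Finset.sum_le_sum fun s hs => ?_)
        rw [norm_mul]
        have h3 : ‖(1 / (s : ℂ))‖ ≤ 1 / (R : ℝ) := by
          rw [norm_div, norm_one, Complex.norm_natCast]
          have h4 : (R : ℝ) ≤ s := by exact_mod_cast (hPR s hs).le
          exact one_div_le_one_div_of_le hRpos h4
        exact mul_le_mul h3 (norm_sum_le _ _) (norm_nonneg _) (by positivity)
    _ = (1 / (R : ℝ)) * ∑ r ∈ range d, ∑ s ∈ PR R, ∑ β ∈ Ico 1 s,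
        ‖∑ n ∈ Icc 1 N, (a n : ℂ) * (if n % d = r then (1 : ℂ) else 0) * ee (n * ((β : ℝ) / s)) *
        US w N d σ r s β (fun v => tent N ((n : ℤ) + σ * v))‖ := by
        rw [Finset.mul_sum]
        refine Finset.sum_congr rfl fun r _ => ?_
        rw [Finset.mul_sum]
    _ ≤ (1 / (R : ℝ)) * (26 * K * (1 + Real.log N) ^ 3 * N ^ 2) := by gcongr
    _ = 26 * K * (1 + Real.log N) ^ 3 * (N ^ 2 / R) := by ring

end

end Pool.Agent.M848
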