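import Pool.Agent.Lib.MP_848d44_nt.B.AvB
import Pool.Agent.Lib.MP_848d44_nt.Off1

/-!
# MP_848d44_nt: the off-diagonal terms on average over the modulus
-/

set_option autoImplicit false

namespace Pool.Agent.M848

open Finset
open scoped ArithmeticFunction ComplexConjugate

noncomputable section

namespace AvO

open Off1Aux

/-- the main part for one pair of characters -/
def Z (N q s d : ℕ) (σ : ℤ) (ξ χ : ℕ → ℂ) : ℂ :=
  conj (χ (tt s d σ) * ξ (tt s d σ)) * ∑ n ∈ Icc 1 N, ((Λ n : ℝ) : ℂ) * (χ n * ξ n) *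
    ∑ h ∈ Icc 1 (N / q), ((tent N ((n : ℤ) + σ * (h * q)) : ℝ) : ℂ) *
      conj (χ (q * h) * ξ (q * h))

theorem Yd_exact (N q s d : ℕ) (hs : s.Prime) (hd : 1 ≤ d) (hsq : ¬ s ∣ q)
    (hsH : N / q < s) (σ : ℤ) (hσ : σ = 1 ∨ σ = -1) :
    ‖((Yd N q s d σ : ℝ) : ℂ) - (1 / (d.totient : ℂ)) * ∑ ξ ∈ ac d,
        ((1 / ((s : ℂ) - 1)) * ∑ χ ∈ nc s, Z N q s d σ ξ χ)‖ ≤
      ((N / q : ℕ) : ℝ) * (3 * N / (s * ((s : ℝ) - 1))) := by
  set A' : Finset ℕ := (Icc 1 N).filter (fun n => n.Coprime s ∧ n.Coprime d) with hA'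
  set Hs : Finset ℕ := Icc 1 (N / q) with hHs
  set P : Finset (ℕ × ℕ) := A' ×ˢ Hs with hP
  have hs1 : (1 : ℝ) < s := by exact_mod_cast hs.one_lt
  have hsm : 0 < (s : ℝ) - 1 := by linarith
  -- the rest
  set R : ℕ × ℕ → ℝ := fun p => Λ p.1 * (tent N ((p.1 : ℤ) + σ * (p.2 * q)) *
    (if (d : ℤ) ∣ (p.1 : ℤ) + σ * (p.2 * q) then 1 else 0) * (1 / (s * ((s : ℝ) - 1)))) with hR
  set F : (ℕ → ℂ) → (ℕ → ℂ) → ℕ × ℕ → ℂ := fun ξ χ p => ((Λ p.1 : ℝ) : ℂ) *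
    ((χ p.1 * ξ p.1) * (conj (χ (tt s d σ * q) * ξ (tt s d σ * q)) *
          (((tent N ((p.1 : ℤ) + σ * (p.2 * q)) : ℝ) : ℂ) * conj (χ p.2 * ξ p.2)))) with hF
  have e1 : ((Yd N q s d σ : ℝ) : ℂ) =
      (1 / (d.totient : ℂ)) * ∑ ξ ∈ ac d, (1 / ((s : ℂ) - 1)) * ∑ χ ∈ nc s, ∑ p ∈ P, F ξ χ p
      + ((∑ p ∈ P, R p : ℝ) : ℂ) := by
    rw [← swap3]
    have : Yd N q s d σ = ∑ p ∈ P, Λ p.1 * gd N s d ((p.1 : ℤ) + σ * (p.2 * q)) := by
      unfold Yd Gd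
      rw [hP, Finset.sum_product]
      apply Finset.sum_congr rfl
      intro n _
      rw [Finset.mul_sum]
    rw [this, Complex.ofReal_sum, Complex.ofReal_sum, ← Finset.sum_add_distrib]
    apply Finset.sum_congr rfl
    intro p hp
    rw [hP, Finset.mem_product, hA', Finset.mem_filter, hHs, Finset.mem_Icc, Finset.mem_Icc] at hp
    obtain ⟨⟨⟨hn1, hn2⟩, hn3, hn4⟩, hh1, hh2⟩ := hp
    have := gd_char N q s d p.1 p.2 hs hd hsq hh1 (by omega) hn3 hn4 σ hσ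
    rw [Complex.ofReal_mul, this, mul_add, hR, hF]
    congr 1
    · rw [Finset.mul_sum, Finset.mul_sum, Finset.mul_sum]
      apply Finset.sum_congr rfl
      intro ξ _
      rw [Finset.mul_sum, Finset.mul_sum, Finset.mul_sum, Finset.mul_sum, Finset.mul_sum]
      apply Finset.sum_congr rfl
      intro χ _
      ring
    · rw [← Complex.ofReal_mul]
  have e2 : ∀ ξ ∈ ac d, ∀ χ ∈ nc s, ∑ p ∈ P, F ξ χ p = Z N q s d σ ξ χ := by
    intro ξ hξ χ hχ
    rw [Z, hP, Finset.sum_product, Finset.mul_sum, hA', Finset.sum_filter]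
    apply Finset.sum_congr rfl
    intro n hn
    split_ifs with hc
    · rw [Finset.mul_sum, Finset.mul_sum]
      apply Finset.sum_congr rfl
      intro h _
      rw [hF]
      simp only
      rw [nc_mul hχ (tt s d σ) q, ac_mul hξ (tt s d σ) q, nc_mul hχ q h, ac_mul hξ q h]
      simp only [map_mul]
      ring
    · have hz : χ n * ξ n = 0 := by
        by_cases h1 : n.Coprime s
        · have h2 : ¬ n.Coprime d := fun h => hc ⟨h1, h⟩
          rw [ac_zero hξ n h2, mul_zero]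
        · have h2 : s ∣ n := by
            by_contra h3
            exact h1 ((Nat.Prime.coprime_iff_not_dvd hs).mpr h3).symm
          rw [nc_zero hs hχ n h2, zero_mul]
      rw [hz]; ring
  have e4 : |∑ p ∈ P, R p| ≤ ((N / q : ℕ) : ℝ) * (3 * N / (s * ((s : ℝ) - 1))) := by
    refine (Finset.abs_sum_le_sum_abs _ _).trans ?_
    have r1 : ∀ p ∈ P, |R p| ≤ Λ p.1 * (1 / 2 * (1 / (s * ((s : ℝ) - 1)))) := by
      intro p _
      rw [hR]
      simp only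
      have hΛ : 0 ≤ (Λ p.1 : ℝ) := ArithmeticFunction.vonMangoldt_nonneg
      rw [abs_mul, abs_of_nonneg hΛ]
      apply mul_le_mul_of_nonneg_left _ hΛ
      have hpos : 0 ≤ 1 / ((s : ℝ) * ((s : ℝ) - 1)) := by positivity
      rw [abs_mul, abs_of_nonneg hpos]
      apply mul_le_mul_of_nonneg_right _ hpos
      rw [abs_mul, abs_of_nonneg (tent_nonneg N _)]
      have h3 : |(if (d : ℤ) ∣ (p.1 : ℤ) + σ * (p.2 * q) then (1 : ℝ) else 0)| ≤ 1 := by
        split_ifs <;> simp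
      calc _ ≤ (1 / 2 : ℝ) * 1 := mul_le_mul (tent_le N _) h3 (abs_nonneg _) (by norm_num)
        _ = 1 / 2 := by norm_num
    refine (Finset.sum_le_sum r1).trans ?_
    rw [hP, Finset.sum_product]
    have r2 : ∀ n ∈ A', ∑ h ∈ Hs, (Λ n : ℝ) * (1 / 2 * (1 / (s * ((s : ℝ) - 1)))) =
        (Λ n : ℝ) * (((N / q : ℕ) : ℝ) * (1 / 2 * (1 / (s * ((s : ℝ) - 1))))) := by
      intro n _
      rw [Finset.sum_const, hHs, Nat.card_Icc, nsmul_eq_mul, Nat.add_sub_cancel]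
      ring
    rw [Finset.sum_congr rfl r2, ← Finset.sum_mul]
    have r3 : ∑ n ∈ A', (Λ n : ℝ) ≤ 6 * N := by
      refine le_trans ?_ (psi_bound N)
      apply Finset.sum_le_sum_of_subset_of_nonneg (Finset.filter_subset _ _)
      intro i _ _
      exact ArithmeticFunction.vonMangoldt_nonneg
    calc _ ≤ (6 * N : ℝ) * (((N / q : ℕ) : ℝ) * (1 / 2 * (1 / (s * ((s : ℝ) - 1))))) := by
          apply mul_le_mul_of_nonneg_right r3
          positivity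
      _ = ((N / q : ℕ) : ℝ) * (3 * N / (s * ((s : ℝ) - 1))) := by
          field_simp
          try ring
  have e5 : (1 / (d.totient : ℂ)) * ∑ ξ ∈ ac d, (1 / ((s : ℂ) - 1)) * ∑ χ ∈ nc s, ∑ p ∈ P, F ξ χ p =
      (1 / (d.totient : ℂ)) * ∑ ξ ∈ ac d, ((1 / ((s : ℂ) - 1)) * ∑ χ ∈ nc s, Z N q s d σ ξ χ) := by
    congr 1
    refine Finset.sum_congr rfl fun ξ hξ => ?_
    congr 1
    exact Finset.sum_congr rfl fun χ hχ => e2 ξ hξ χ hχ
  rw [e1, e5, add_sub_cancel_left, Complex.norm_real, Real.norm_eq_abs]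
  exact e4

/-- the sum for one modulus, one prime and one sign -/
def Xs (b : ℕ → ℝ) (T N q s : ℕ) (σ : ℤ) : ℝ :=
  ∑ n ∈ (Icc 1 N).filter (fun n => n.Coprime q),
    Λ n * ∑ h ∈ Icc 1 (N / q), fs b T N s ((n : ℤ) + σ * (h * q))

/-- the main part -/
def Ms (b : ℕ → ℝ) (T N q s : ℕ) (σ : ℤ) : ℂ :=
  ∑ d ∈ Icc 1 T, ((b d : ℝ) : ℂ) * ((1 / (d.totient : ℂ)) * ∑ ξ ∈ ac d,
    ((1 / ((s : ℂ) - 1)) * ∑ χ ∈ nc s, Z N q s d σ ξ χ))

theorem Xs_approx (b : ℕ → ℝ) (T N q s : ℕ) (hN : 3 ≤ N) (hTN : T ≤ N) (hq : 1 ≤ q)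
    (hqN : q ≤ N) (hs : s.Prime) (hsq : ¬ s ∣ q)
    (hsH : N / q < s) (σ : ℤ) (hσ : σ = 1 ∨ σ = -1) :
    ‖((Xs b T N q s σ : ℝ) : ℂ) - Ms b T N q s σ‖ ≤
      ((N / q : ℕ) : ℝ) * BB b T * (4 * Real.log N ^ 2 + 6 * N / (s * ((s : ℝ) - 1))) := by
  have hlogN : 1 ≤ Real.log N := by
    have h1 : (3 : ℝ) ≤ N := by exact_mod_cast hN
    have h2 : Real.exp 1 < 3 := by
      have := Real.exp_one_lt_d9
      linarith
    rw [Real.le_log_iff_exp_le (by linarith)]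
    linarith
  have hNR : (0 : ℝ) < N := by
    have : (3 : ℝ) ≤ N := by exact_mod_cast hN
    linarith
  have hs1 : (1 : ℝ) < s := by exact_mod_cast hs.one_lt
  have hlog2 : ∀ m : ℕ, 1 ≤ m → m ≤ N → (Nat.log 2 m : ℝ) ≤ 2 * Real.log N := by
    intro m hm hmN
    have h1 : (2 : ℝ) ^ (Nat.log 2 m) ≤ N := by
      have : 2 ^ (Nat.log 2 m) ≤ m := Nat.pow_log_le_self 2 (by omega)
      exact_mod_cast this.trans hmN
    have h2 := Real.log_le_log (by positivity) h1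
    rw [Real.log_pow] at h2
    have h3 := Real.log_two_gt_d9
    have h4 : (0 : ℝ) ≤ Nat.log 2 m := Nat.cast_nonneg _
    nlinarith
  have e1 : Xs b T N q s σ = ∑ d ∈ Icc 1 T, b d * Xd N q s d σ := by
    unfold Xs Xd Gd
    have : ∀ n ∈ (Icc 1 N).filter (fun n => n.Coprime q),
        (Λ n : ℝ) * ∑ h ∈ Icc 1 (N / q), fs b T N s ((n : ℤ) + σ * (h * q)) =
        ∑ d ∈ Icc 1 T, b d * (Λ n * ∑ h ∈ Icc 1 (N / q), gd N s d ((n : ℤ) + σ * (h * q))) := by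
      intro n _
      simp_rw [fs_eq]
      rw [Finset.sum_comm, Finset.mul_sum]
      apply Finset.sum_congr rfl
      intro d _
      rw [← Finset.mul_sum]
      ring
    rw [Finset.sum_congr rfl this, Finset.sum_comm]
    apply Finset.sum_congr rfl
    intro d _
    rw [Finset.mul_sum]
  rw [e1, Ms, Complex.ofReal_sum, ← Finset.sum_sub_distrib]
  refine (norm_sum_le _ _).trans ?_
  unfold BB
  rw [mul_assoc, Finset.sum_mul, Finset.mul_sum]
  apply Finset.sum_le_sum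
  intro d hd
  have hd1 := (Finset.mem_Icc.mp hd).1
  have hd2 := (Finset.mem_Icc.mp hd).2
  have hY := Yd_exact N q s d hs hd1 hsq hsH σ hσ
  have hXY := Xd_sub_Yd N q s d hs hd1 hq σ
  set M : ℂ := (1 / (d.totient : ℂ)) * ∑ ξ ∈ ac d,
    ((1 / ((s : ℂ) - 1)) * ∑ χ ∈ nc s, Z N q s d σ ξ χ) with hM
  have e2 : ((b d * Xd N q s d σ : ℝ) : ℂ) - ((b d : ℝ) : ℂ) * M =
      ((b d : ℝ) : ℂ) * ((((Xd N q s d σ - Yd N q s d σ : ℝ)) : ℂ) +
        (((Yd N q s d σ : ℝ) : ℂ) - M)) := by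
    push_cast
    ring
  rw [e2, norm_mul, Complex.norm_real, Real.norm_eq_abs]
  have hA := hlog2 q hq hqN
  have hB := hlog2 d hd1 (by omega)
  have hHn : (0 : ℝ) ≤ ((N / q : ℕ) : ℝ) := Nat.cast_nonneg _
  have hE : ((N / q : ℕ) : ℝ) * (3 * N / (s * ((s : ℝ) - 1))) +
      ((N / q : ℕ) : ℝ) * (1 / 2) *
      (Nat.log 2 q * Real.log N + Real.log N + Nat.log 2 d * Real.log N) ≤
      ((N / q : ℕ) : ℝ) * (4 * Real.log N ^ 2 + 6 * N / (s * ((s : ℝ) - 1))) := by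
    rw [mul_assoc, ← mul_add]
    apply mul_le_mul_of_nonneg_left _ hHn
    have h1 : 0 ≤ 3 * (N : ℝ) / (s * ((s : ℝ) - 1)) := by
      have : 0 < (s : ℝ) - 1 := by linarith
      positivity
    have h2 : 6 * (N : ℝ) / (s * ((s : ℝ) - 1)) = 2 * (3 * N / (s * ((s : ℝ) - 1))) := by ring
    rw [h2]
    nlinarith
  have hn : ‖(((Xd N q s d σ - Yd N q s d σ : ℝ)) : ℂ) + (((Yd N q s d σ : ℝ) : ℂ) - M)‖ ≤
      ((N / q : ℕ) : ℝ) * (4 * Real.log N ^ 2 + 6 * N / (s * ((s : ℝ) - 1))) := by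
    refine (norm_add_le _ _).trans ?_
    rw [Complex.norm_real, Real.norm_eq_abs]
    linarith
  calc |b d| * ‖(((Xd N q s d σ - Yd N q s d σ : ℝ)) : ℂ) + (((Yd N q s d σ : ℝ) : ℂ) - M)‖
      ≤ |b d| * (((N / q : ℕ) : ℝ) * (4 * Real.log N ^ 2 + 6 * N / (s * ((s : ℝ) - 1)))) :=
        mul_le_mul_of_nonneg_left hn (abs_nonneg _)
    _ = _ := by ring

/-- if `s` divides `q` the main part is zero -/
theorem Z_zero (N q s d : ℕ) (hs : s.Prime) (hsq : s ∣ q) (σ : ℤ) (ξ χ : ℕ → ℂ)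
    (hχ : χ ∈ nc s) : Z N q s d σ ξ χ = 0 := by
  rw [Z]
  have h1 : ∀ n ∈ Icc 1 N, ((Λ n : ℝ) : ℂ) * (χ n * ξ n) *
    ∑ h ∈ Icc 1 (N / q), ((tent N ((n : ℤ) + σ * (h * q)) : ℝ) : ℂ) *
      conj (χ (q * h) * ξ (q * h)) = 0 := by
    intro n _
    have h2 : ∑ h ∈ Icc 1 (N / q), ((tent N ((n : ℤ) + σ * (h * q)) : ℝ) : ℂ) *
      conj (χ (q * h) * ξ (q * h)) = 0 := by
      refine Finset.sum_eq_zero fun h _ => ?_
      rw [nc_zero hs hχ (q * h) (Dvd.dvd.mul_right hsq h)]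
      simp
    rw [h2, mul_zero]
  rw [Finset.sum_eq_zero h1, mul_zero]

/-- the coefficients of the sum over the moduli -/
def ev (I : Finset ℕ) (N : ℕ) (ε : ℕ → ℝ) (v : ℕ) : ℂ :=
  ∑ q ∈ I, ∑ h ∈ Icc 1 (N / q), if h * q = v then ((ε q : ℝ) : ℂ) else 0

theorem ev_le (I : Finset ℕ) (N : ℕ) (ε : ℕ → ℝ) (hε : ∀ q, |ε q| ≤ 1) (hI : ∀ q ∈ I, 1 ≤ q)
    (v : ℕ) : ‖ev I N ε v‖ ≤ (v.divisors.card : ℝ) := by
  have h1 : ∀ q ∈ I, ‖∑ h ∈ Icc 1 (N / q), if h * q = v then ((ε q : ℝ) : ℂ) else 0‖ ≤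
      if q ∈ v.divisors then (1 : ℝ) else 0 := by
    intro q hq
    have hq1 := hI q hq
    split_ifs with h
    · refine (norm_sum_le _ _).trans ?_
      have h2 : ∀ h ∈ Icc 1 (N / q), ‖(if h * q = v then ((ε q : ℝ) : ℂ) else 0)‖ ≤
          if h = v / q then (1 : ℝ) else 0 := by
        intro h _
        by_cases h3 : h * q = v
        · have h4 : h = v / q := by
            rw [← h3, Nat.mul_div_cancel _ hq1]
          rw [if_pos h3, if_pos h4, Complex.norm_real, Real.norm_eq_abs]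
          exact hε q
        · rw [if_neg h3, norm_zero]
          split_ifs <;> norm_num
      refine (Finset.sum_le_sum h2).trans ?_
      rw [Finset.sum_ite_eq']
      split_ifs <;> norm_num
    · have h2 : ∑ h ∈ Icc 1 (N / q), (if h * q = v then ((ε q : ℝ) : ℂ) else 0) = 0 := by
        refine Finset.sum_eq_zero fun h' hh' => ?_
        rw [if_neg]
        intro h3
        apply h
        rw [Nat.mem_divisors]
        refine ⟨⟨h', by rw [← h3, mul_comm]⟩, ?_⟩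
        rw [← h3]
        have := (Finset.mem_Icc.1 hh').1
        exact (Nat.mul_pos this hq1).ne'
      rw [h2, norm_zero]
  rw [ev]
  refine (norm_sum_le _ _).trans ((Finset.sum_le_sum h1).trans ?_)
  rw [Finset.sum_boole]
  have h2 : (I.filter (fun q => q ∈ v.divisors)).card ≤ v.divisors.card :=
    Finset.card_le_card (fun q hq => (Finset.mem_filter.1 hq).2)
  exact_mod_cast h2

/-- the sum over the moduli of the main part, for one pair of characters -/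
theorem Z_sum (I : Finset ℕ) (hI : ∀ q ∈ I, 1 ≤ q) (N s d : ℕ) (σ : ℤ) (ξ χ : ℕ → ℂ)
    (ε : ℕ → ℝ) :
    ∑ q ∈ I, ((ε q : ℝ) : ℂ) * Z N q s d σ ξ χ =
      conj (χ (tt s d σ) * ξ (tt s d σ)) * ∑ n ∈ Icc 1 N, ((Λ n : ℝ) : ℂ) * (χ n * ξ n) *
        ∑ v ∈ Icc 1 N, ev I N ε v * ((tent N ((n : ℤ) + σ * v) : ℝ) : ℂ) *
          conj (χ v * ξ v) := by
  have h1 : ∀ n ∈ Icc 1 N, ∑ v ∈ Icc 1 N, ev I N ε v * ((tent N ((n : ℤ) + σ * v) : ℝ) : ℂ) *
          conj (χ v * ξ v) = ∑ q ∈ I, ((ε q : ℝ) : ℂ) * ∑ h ∈ Icc 1 (N / q),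
            ((tent N ((n : ℤ) + σ * (h * q)) : ℝ) : ℂ) * conj (χ (q * h) * ξ (q * h)) := by
    intro n _
    simp only [ev, Finset.sum_mul, Finset.mul_sum]
    rw [Finset.sum_comm]
    refine Finset.sum_congr rfl fun q hq => ?_
    rw [Finset.sum_comm]
    refine Finset.sum_congr rfl fun h hh => ?_
    have hq1 := hI q hq
    have hh' := Finset.mem_Icc.1 hh
    have hmem : h * q ∈ Icc 1 N := by
      rw [Finset.mem_Icc]
      refine ⟨Nat.mul_pos hh'.1 hq1, ?_⟩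
      exact (Nat.le_div_iff_mul_le hq1).1 hh'.2
    rw [Finset.sum_eq_single (h * q)]
    · rw [if_pos rfl, mul_comm q h]
      push_cast
      ring
    · intro v _ hv
      rw [if_neg (Ne.symm hv)]
      simp
    · intro hnot
      exact absurd hmem hnot
  rw [Finset.mul_sum]
  have h2 : ∀ q ∈ I, ((ε q : ℝ) : ℂ) * Z N q s d σ ξ χ = ∑ n ∈ Icc 1 N,
      conj (χ (tt s d σ) * ξ (tt s d σ)) * (((Λ n : ℝ) : ℂ) * (χ n * ξ n) * (((ε q : ℝ) : ℂ) *
      ∑ h ∈ Icc 1 (N / q), ((tent N ((n : ℤ) + σ * (h * q)) : ℝ) : ℂ) *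
        conj (χ (q * h) * ξ (q * h)))) := by
    intro q _
    rw [Z, Finset.mul_sum, Finset.mul_sum]
    refine Finset.sum_congr rfl fun n _ => ?_
    ring
  rw [Finset.sum_congr rfl h2, Finset.sum_comm]
  refine Finset.sum_congr rfl fun n hn => ?_
  rw [h1 n hn, ← Finset.mul_sum, ← Finset.mul_sum]

end AvO

open Off1Aux AvO

/-- the main parts, summed over the moduli with signs -/
theorem avg_main (b : ℕ → ℝ) (T N R : ℕ) (hR : 1 ≤ R) (hRN : R ^ 2 ≤ N) (σ : ℤ)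
    (I : Finset ℕ) (hI : ∀ q ∈ I, 1 ≤ q) (ε : ℕ → ℝ) (hε : ∀ q, |ε q| ≤ 1) :
    ‖∑ q ∈ I, ((ε q : ℝ) : ℂ) * ∑ s ∈ PR R, Ms b T N q s σ‖ ≤
      BB b T * (26 * (1 + Real.log N) ^ 4 * (N ^ 2 / R)) := by
  have hPR : ∀ s ∈ PR R, (R : ℝ) + 1 ≤ s := by
    intro s hs
    rw [PR, mem_filter, mem_Ioc] at hs
    exact_mod_cast hs.1.1
  have e1 : ∑ q ∈ I, ((ε q : ℝ) : ℂ) * ∑ s ∈ PR R, Ms b T N q s σ =
      ∑ d ∈ Icc 1 T, ((b d : ℝ) : ℂ) * ((1 / (d.totient : ℂ)) * ∑ ξ ∈ ac d,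
        ∑ s ∈ PR R, (1 / ((s : ℂ) - 1)) * ∑ χ ∈ nc s,
          ∑ q ∈ I, ((ε q : ℝ) : ℂ) * Z N q s d σ ξ χ) := by
    have e2 : ∀ q ∈ I, ((ε q : ℝ) : ℂ) * ∑ s ∈ PR R, Ms b T N q s σ =
        ∑ d ∈ Icc 1 T, ∑ ξ ∈ ac d, ∑ s ∈ PR R, ∑ χ ∈ nc s,
          ((b d : ℝ) : ℂ) * (1 / (d.totient : ℂ)) * (1 / ((s : ℂ) - 1)) *
            (((ε q : ℝ) : ℂ) * Z N q s d σ ξ χ) := by
      intro q _
      simp only [Ms, Finset.mul_sum]
      rw [Finset.sum_comm]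
      refine Finset.sum_congr rfl fun d _ => ?_
      rw [Finset.sum_comm]
      refine Finset.sum_congr rfl fun ξ _ => Finset.sum_congr rfl fun s _ =>
        Finset.sum_congr rfl fun χ _ => ?_
      ring
    rw [Finset.sum_congr rfl e2, Finset.sum_comm]
    refine Finset.sum_congr rfl fun d _ => ?_
    rw [Finset.sum_comm, Finset.mul_sum, Finset.mul_sum]
    refine Finset.sum_congr rfl fun ξ _ => ?_
    rw [Finset.sum_comm, Finset.mul_sum, Finset.mul_sum]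
    refine Finset.sum_congr rfl fun s _ => ?_
    rw [Finset.sum_comm, Finset.mul_sum, Finset.mul_sum, Finset.mul_sum]
    refine Finset.sum_congr rfl fun χ _ => ?_
    rw [Finset.mul_sum, Finset.mul_sum, Finset.mul_sum]
    refine Finset.sum_congr rfl fun q _ => ?_
    ring
  rw [e1]
  refine (norm_sum_le _ _).trans ?_
  unfold BB
  rw [Finset.sum_mul]
  refine Finset.sum_le_sum fun d hd => ?_
  have hd1 := (Finset.mem_Icc.mp hd).1
  rw [norm_mul, Complex.norm_real, Real.norm_eq_abs]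
  refine mul_le_mul_of_nonneg_left ?_ (abs_nonneg _)
  rw [norm_mul]
  have n1 : ‖(1 / (d.totient : ℂ))‖ = 1 / (d.totient : ℝ) := by
    rw [norm_div, norm_one, Complex.norm_natCast]
  have hφ : (0 : ℝ) < d.totient := by exact_mod_cast Nat.totient_pos.mpr hd1
  have h3 : ∀ ξ ∈ ac d, ‖∑ s ∈ PR R, (1 / ((s : ℂ) - 1)) * ∑ χ ∈ nc s,
          ∑ q ∈ I, ((ε q : ℝ) : ℂ) * Z N q s d σ ξ χ‖ ≤
      26 * (1 + Real.log N) ^ 4 * (N ^ 2 / R) := by
    intro ξ hξ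
    refine le_trans ?_ (avg_block N R d hR hRN ξ hξ σ (ev I N ε) (ev_le I N ε hε hI))
    refine (norm_sum_le _ _).trans (Finset.sum_le_sum fun s hs => ?_)
    have hs1 := hPR s hs
    have hR0 : (0 : ℝ) ≤ R := Nat.cast_nonneg R
    have hsm : 0 ≤ (s : ℝ) - 1 := by linarith
    have n2 : ‖(1 / ((s : ℂ) - 1))‖ = 1 / ((s : ℝ) - 1) := by
      have : ((s : ℂ) - 1) = (((s : ℝ) - 1 : ℝ) : ℂ) := by push_cast; ring
      rw [norm_div, norm_one, this, Complex.norm_real, Real.norm_of_nonneg hsm]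
    rw [norm_mul, n2]
    refine mul_le_mul_of_nonneg_left ?_ (by positivity)
    refine (norm_sum_le _ _).trans (Finset.sum_le_sum fun χ hχ => ?_)
    rw [Z_sum I hI N s d σ ξ χ ε, norm_mul]
    have n3 : ‖conj (χ (tt s d σ) * ξ (tt s d σ))‖ ≤ 1 := by
      rw [RCLike.norm_conj, norm_mul]
      exact mul_le_one₀ (nc_norm_le hχ _) (norm_nonneg _) (ac_norm_le hξ _)
    calc _ ≤ 1 * _ := mul_le_mul_of_nonneg_right n3 (norm_nonneg _)
      _ = _ := one_mul _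
  rw [n1]
  calc 1 / (d.totient : ℝ) * ‖∑ ξ ∈ ac d, ∑ s ∈ PR R, (1 / ((s : ℂ) - 1)) * ∑ χ ∈ nc s,
          ∑ q ∈ I, ((ε q : ℝ) : ℂ) * Z N q s d σ ξ χ‖
      ≤ 1 / (d.totient : ℝ) * ∑ ξ ∈ ac d, 26 * (1 + Real.log N) ^ 4 * (N ^ 2 / R) := by
        refine mul_le_mul_of_nonneg_left ?_ (by positivity)
        exact (norm_sum_le _ _).trans (Finset.sum_le_sum h3)
    _ = 26 * (1 + Real.log N) ^ 4 * (N ^ 2 / R) := by
        rw [Finset.sum_const, ac_card hd1, nsmul_eq_mul]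
        field_simp

/-- AVO. The off-diagonal terms of a block of primes on average over the modulus. -/
theorem avg_off (b : ℕ → ℝ) (T N R Q : ℕ) (hN : 3 ≤ N) (hR : 1 ≤ R) (hRN : R ^ 2 ≤ N)
    (hTN : T ≤ N) (hQ : 1 ≤ Q) (hQR : N ≤ Q * R) (σ : ℤ) (hσ : σ = 1 ∨ σ = -1)
    (I : Finset ℕ) (hI : ∀ q ∈ I, Q < q ∧ q ≤ 2 * Q ∧ q ≤ N) :
    ∑ q ∈ I, |∑ s ∈ (PR R).filter (fun s => ¬ s ∣ q), Xs b T N q s σ| ≤
      BB b T * (36 * (1 + Real.log N) ^ 4 * (N ^ 2 / R)) := by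
  have hI1 : ∀ q ∈ I, 1 ≤ q := fun q hq => by
    have := (hI q hq).1
    omega
  have hRr : (1 : ℝ) ≤ R := by exact_mod_cast hR
  have hRpos : (0 : ℝ) < R := by linarith
  have hNr : (3 : ℝ) ≤ N := by exact_mod_cast hN
  have hNpos : (0 : ℝ) < N := by linarith
  have hQr : (1 : ℝ) ≤ Q := by exact_mod_cast hQ
  have hlog : 0 ≤ Real.log N := Real.log_natCast_nonneg N
  have hRN' : (R : ℝ) ^ 2 ≤ N := by exact_mod_cast hRN
  have hBB : 0 ≤ BB b T := Finset.sum_nonneg fun _ _ => abs_nonneg _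
  have hPR : ∀ s ∈ PR R, s.Prime ∧ R < s ∧ s ≤ 2 * R := by
    intro s hs
    rw [PR, mem_filter, mem_Ioc] at hs
    exact ⟨hs.2, hs.1⟩
  -- the signs
  set W : ℕ → ℝ := fun q => ∑ s ∈ (PR R).filter (fun s => ¬ s ∣ q), Xs b T N q s σ with hW
  set ε : ℕ → ℝ := fun q => if 0 ≤ W q then 1 else -1 with hε
  have hε1 : ∀ q, |ε q| ≤ 1 := by
    intro q
    simp only [hε]
    split_ifs <;> simp
  have hεW : ∀ q, |W q| = ε q * W q := by
    intro q
    simp only [hε]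
    split_ifs with h
    · rw [abs_of_nonneg h, one_mul]
    · rw [abs_of_neg (not_le.1 h), neg_one_mul]
  -- approximation of W
  set er : ℝ := (N / Q : ℝ) * BB b T * (4 * Real.log N ^ 2 + 6 * N / R ^ 2) with her
  have her0 : 0 ≤ er := by positivity
  have happ : ∀ q ∈ I, ‖((W q : ℝ) : ℂ) - ∑ s ∈ PR R, Ms b T N q s σ‖ ≤ R * er := by
    intro q hq
    obtain ⟨hq1, hq2, hq3⟩ := hI q hq
    have e1 : ∑ s ∈ PR R, Ms b T N q s σ =
        ∑ s ∈ (PR R).filter (fun s => ¬ s ∣ q), Ms b T N q s σ := by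
      rw [Finset.sum_filter]
      refine Finset.sum_congr rfl fun s hs => ?_
      by_cases h : s ∣ q
      · rw [if_neg (not_not.2 h), Ms]
        refine Finset.sum_eq_zero fun d _ => ?_
        have : ∑ ξ ∈ ac d, ((1 / ((s : ℂ) - 1)) * ∑ χ ∈ nc s, Z N q s d σ ξ χ) = 0 := by
          refine Finset.sum_eq_zero fun ξ _ => ?_
          rw [Finset.sum_eq_zero fun χ hχ => Z_zero N q s d (hPR s hs).1 h σ ξ χ hχ, mul_zero]
        rw [this, mul_zero, mul_zero]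
      · rw [if_pos h]
    rw [e1]
    simp only [hW]
    rw [Complex.ofReal_sum, ← Finset.sum_sub_distrib]
    refine (norm_sum_le _ _).trans ?_
    have h2 : ∀ s ∈ (PR R).filter (fun s => ¬ s ∣ q),
        ‖((Xs b T N q s σ : ℝ) : ℂ) - Ms b T N q s σ‖ ≤ er := by
      intro s hs
      rw [Finset.mem_filter] at hs
      obtain ⟨hsp, hs1, hs2⟩ := hPR s hs.1
      have hNq : N / q ≤ R := by
        have h3 : N / q ≤ N / Q := Nat.div_le_div_left hq1.le hQ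
        have h4 : N / Q ≤ R := by
          apply Nat.div_le_of_le_mul
          exact hQR
        exact h3.trans h4
      have h5 := Xs_approx b T N q s hN hTN (hI1 q hq) hq3 hsp hs.2 (by omega) σ hσ
      refine h5.trans ?_
      rw [her]
      have h6 : ((N / q : ℕ) : ℝ) ≤ N / Q := by
        refine Nat.cast_div_le.trans ?_
        have : (Q : ℝ) ≤ q := by exact_mod_cast hq1.le
        gcongr
      have h8 : (R : ℝ) + 1 ≤ s := by exact_mod_cast hs1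
      have h7 : (R : ℝ) ^ 2 ≤ s * ((s : ℝ) - 1) := by nlinarith
      have h9 : 0 ≤ 4 * Real.log N ^ 2 + 6 * N / (s * ((s : ℝ) - 1)) := by
        have h10 : 0 ≤ (s : ℝ) * ((s : ℝ) - 1) := le_trans (by positivity) h7
        positivity
      gcongr
    refine (Finset.sum_le_sum h2).trans ?_
    rw [Finset.sum_const, nsmul_eq_mul]
    refine mul_le_mul_of_nonneg_right ?_ her0
    have h8 : ((PR R).filter (fun s => ¬ s ∣ q)).card ≤ R := by
      refine (Finset.card_filter_le _ _).trans ?_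
      rw [PR]
      refine (Finset.card_filter_le _ _).trans ?_
      rw [Nat.card_Ioc]
      omega
    exact_mod_cast h8
  -- the sum
  have hcard : (I.card : ℝ) ≤ Q := by
    have h1 : I ⊆ Ioc Q (2 * Q) := fun q hq => Finset.mem_Ioc.2 ⟨(hI q hq).1, (hI q hq).2.1⟩
    have h2 := Finset.card_le_card h1
    rw [Nat.card_Ioc] at h2
    exact_mod_cast (by omega : I.card ≤ Q)
  have hmain : ((∑ q ∈ I, |W q| : ℝ) : ℂ) =
      ∑ q ∈ I, ((ε q : ℝ) : ℂ) * ∑ s ∈ PR R, Ms b T N q s σ +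
      ∑ q ∈ I, ((ε q : ℝ) : ℂ) * (((W q : ℝ) : ℂ) - ∑ s ∈ PR R, Ms b T N q s σ) := by
    rw [← Finset.sum_add_distrib, Complex.ofReal_sum]
    refine Finset.sum_congr rfl fun q _ => ?_
    rw [hεW]
    push_cast
    ring
  have h0 : 0 ≤ ∑ q ∈ I, |W q| := Finset.sum_nonneg fun _ _ => abs_nonneg _
  have h1 : ∑ q ∈ I, |W q| = ‖((∑ q ∈ I, |W q| : ℝ) : ℂ)‖ := by
    rw [Complex.norm_real, Real.norm_of_nonneg h0]
  rw [h1, hmain]
  refine (norm_add_le _ _).trans ?_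
  have h2 := avg_main b T N R hR hRN σ I hI1 ε hε1
  have h3 : ‖∑ q ∈ I, ((ε q : ℝ) : ℂ) * (((W q : ℝ) : ℂ) - ∑ s ∈ PR R, Ms b T N q s σ)‖ ≤
      Q * (R * er) := by
    refine (norm_sum_le _ _).trans ?_
    calc ∑ q ∈ I, ‖((ε q : ℝ) : ℂ) * (((W q : ℝ) : ℂ) - ∑ s ∈ PR R, Ms b T N q s σ)‖
        ≤ ∑ q ∈ I, R * er := by
          refine Finset.sum_le_sum fun q hq => ?_
          rw [norm_mul, Complex.norm_real, Real.norm_eq_abs]
          calc _ ≤ 1 * (R * er) := mul_le_mul (hε1 q) (happ q hq) (norm_nonneg _) zero_le_one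
            _ = _ := one_mul _
      _ = I.card * (R * er) := by rw [Finset.sum_const, nsmul_eq_mul]
      _ ≤ Q * (R * er) := by gcongr
  set L : ℝ := 1 + Real.log N with hL
  have hL1 : 1 ≤ L := by linarith
  have h4 : Q * (R * er) ≤ BB b T * (10 * L ^ 4 * (N ^ 2 / R)) := by
    have e1 : Q * (R * er) = BB b T * (4 * Real.log N ^ 2 * (N * R) + 6 * (N ^ 2 / R)) := by
      rw [her]
      field_simp
    rw [e1]
    refine mul_le_mul_of_nonneg_left ?_ hBB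
    have h5 : (N : ℝ) * R ≤ N ^ 2 / R := by
      rw [le_div_iff₀ hRpos]
      calc (N : ℝ) * R * R = N * R ^ 2 := by ring
        _ ≤ N * N := by gcongr
        _ = N ^ 2 := by ring
    have h6 : Real.log N ^ 2 ≤ L ^ 4 := by
      calc Real.log N ^ 2 ≤ L ^ 2 := pow_le_pow_left₀ hlog (by linarith) 2
        _ ≤ L ^ 4 := pow_le_pow_right₀ hL1 (by norm_num)
    have h7 : 1 ≤ L ^ 4 := one_le_pow₀ hL1
    have h8 : 0 ≤ (N : ℝ) ^ 2 / R := by positivity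
    calc 4 * Real.log N ^ 2 * (N * R) + 6 * (N ^ 2 / R)
        ≤ 4 * L ^ 4 * (N ^ 2 / R) + 6 * L ^ 4 * (N ^ 2 / R) := by
          gcongr
          linarith
      _ = 10 * L ^ 4 * (N ^ 2 / R) := by ring
  calc _ ≤ BB b T * (26 * L ^ 4 * (N ^ 2 / R)) + BB b T * (10 * L ^ 4 * (N ^ 2 / R)) :=
        add_le_add h2 (h3.trans h4)
    _ = BB b T * (36 * L ^ 4 * (N ^ 2 / R)) := by ring

end

end Pool.Agent.M848
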