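import Pool.Agent.Lib.MP_848d44_nt.B.AddA
import Pool.Agent.Lib.MP_848d44_nt.Main

/-!
# MP_848d44_nt: the off-diagonal parts of the first and of the second moment on average
over the modulus
-/

set_option autoImplicit false

namespace Pool.Agent.M848

open Finset
open scoped ArithmeticFunction ComplexConjugate

noncomputable section

namespace SecAux

/-- all the primes of the blocks -/
def SA (j₀ j₁ : ℕ) : Finset ℕ := (Ico j₀ j₁).biUnion fun j => PR (2 ^ j)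

theorem mem_SA {j₀ j₁ s : ℕ} (h : s ∈ SA j₀ j₁) : s.Prime ∧ 2 ^ j₀ < s ∧ s ≤ 2 ^ j₁ := by
  simp only [SA, mem_biUnion, mem_Ico, mem_PR] at h
  obtain ⟨j, ⟨hj0, hj1⟩, ⟨h1, h2⟩, hp⟩ := h
  refine ⟨hp, lt_of_le_of_lt (Nat.pow_le_pow_right (by norm_num) hj0) h1, ?_⟩
  calc s ≤ 2 * 2 ^ j := h2
    _ = 2 ^ (j + 1) := by ring
    _ ≤ 2 ^ j₁ := Nat.pow_le_pow_right (by norm_num) hj1

theorem SS_eq (q j₀ j₁ : ℕ) : SS q j₀ j₁ = (SA j₀ j₁).filter (fun s => ¬ s ∣ q) := by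
  ext s
  simp only [SS, SA, mem_biUnion, mem_filter]
  constructor
  · rintro ⟨j, h1, h2, h3⟩
    exact ⟨⟨j, h1, h2⟩, h3⟩
  · rintro ⟨⟨j, h1, h2⟩, h3⟩
    exact ⟨j, h1, h2, h3⟩

theorem sum_SA (j₀ j₁ : ℕ) (f : ℕ → ℝ) :
    ∑ s ∈ SA j₀ j₁, f s = ∑ j ∈ Ico j₀ j₁, ∑ s ∈ PR (2 ^ j), f s := by
  unfold SA
  rw [sum_biUnion]
  intro i _ j _ hij
  exact PR_disjoint hij

theorem inv_SA (j₀ j₁ : ℕ) : ∑ s ∈ SA j₀ j₁, (1 : ℝ) / s ≤ j₁ := by
  rw [sum_SA]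
  have h1 : ∀ j ∈ Ico j₀ j₁, ∑ s ∈ PR (2 ^ j), (1 : ℝ) / s ≤ 1 := by
    intro j _
    have h2 : ∀ s ∈ PR (2 ^ j), (1 : ℝ) / s ≤ 1 / 2 ^ j := by
      intro s hs
      rw [mem_PR] at hs
      have h3 : (2 : ℝ) ^ j ≤ s := by
        have : 2 ^ j ≤ s := hs.1.1.le
        exact_mod_cast this
      exact one_div_le_one_div_of_le (by positivity) h3
    refine (sum_le_sum h2).trans ?_
    rw [sum_const, nsmul_eq_mul]
    have h5 : ((PR (2 ^ j)).card : ℝ) ≤ (2 : ℝ) ^ j := by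
      exact_mod_cast card_PR (2 ^ j)
    have h6 : (0 : ℝ) < 2 ^ j := by positivity
    calc ((PR (2 ^ j)).card : ℝ) * (1 / 2 ^ j) ≤ (2 : ℝ) ^ j * (1 / 2 ^ j) := by gcongr
      _ = 1 := by field_simp
  refine (sum_le_sum h1).trans ?_
  rw [sum_const, nsmul_eq_mul, Nat.card_Ico, mul_one]
  exact_mod_cast Nat.sub_le _ _

theorem geo (j₀ j₁ : ℕ) : ∑ j ∈ Ico j₀ j₁, (1 : ℝ) / 2 ^ j ≤ 2 / 2 ^ j₀ := by
  have h : ∀ k : ℕ, ∑ j ∈ Ico j₀ (j₀ + k), (1 : ℝ) / 2 ^ j = 2 / 2 ^ j₀ - 2 / 2 ^ (j₀ + k) := by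
    intro k
    induction k with
    | zero => simp
    | succ k ih =>
      rw [← add_assoc, sum_Ico_succ_top (by omega), ih, pow_succ]
      field_simp
      ring
  rcases Nat.lt_or_ge j₁ j₀ with h1 | h1
  · rw [Ico_eq_empty (by omega), sum_empty]
    positivity
  · obtain ⟨k, rfl⟩ := Nat.exists_eq_add_of_le h1
    rw [h k]
    have : (0 : ℝ) ≤ 2 / 2 ^ (j₀ + k) := by positivity
    linarith

theorem fs_abs (b : ℕ → ℝ) (T N s : ℕ) (m : ℤ) :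
    |fs b T N s m| ≤ 1 / 2 * ((if (s : ℤ) ∣ m then (1 : ℝ) else 0) + 1 / s) * BB b T := by
  have h1 : |lam b T m| ≤ BB b T := by
    unfold lam BB
    refine (abs_sum_le_sum_abs _ _).trans ?_
    exact sum_le_sum_of_subset_of_nonneg (filter_subset _ _) (fun _ _ _ => abs_nonneg _)
  have h2 : |(if (s : ℤ) ∣ m then (1 : ℝ) else 0) - 1 / s| ≤
      (if (s : ℤ) ∣ m then (1 : ℝ) else 0) + 1 / s := by
    have h3 : (0 : ℝ) ≤ 1 / s := by positivity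
    rw [abs_le]
    split_ifs <;> constructor <;> linarith
  rw [fs, abs_mul, abs_mul, abs_of_nonneg (tent_nonneg N m)]
  have h3 := tent_le N m
  have h4 := tent_nonneg N m
  gcongr

theorem fs_out (b : ℕ → ℝ) (T N s : ℕ) (m : ℤ) (h : m ≤ 0 ∨ (N : ℤ) ≤ m) :
    fs b T N s m = 0 := by
  rw [fs, tent_zero N m h]
  ring

theorem log2_le {N m : ℕ} (hm : 1 ≤ m) (hmN : m ≤ N) : (Nat.log 2 m : ℝ) ≤ 2 * Real.log N := by
  have h1 : (2 : ℝ) ^ (Nat.log 2 m) ≤ N := by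
    have : 2 ^ (Nat.log 2 m) ≤ m := Nat.pow_log_le_self 2 (by omega)
    exact_mod_cast this.trans hmN
  have h2 := Real.log_le_log (by positivity) h1
  rw [Real.log_pow] at h2
  have h3 := Real.log_two_gt_d9
  have h4 : (0 : ℝ) ≤ Nat.log 2 m := Nat.cast_nonneg _
  nlinarith

theorem j1_le {N j₁ : ℕ} (hj : ∀ j < j₁, (2 ^ j) ^ 2 ≤ N) :
    (j₁ : ℝ) ≤ 1 + Real.log N := by
  rcases Nat.eq_zero_or_pos j₁ with h | h
  · subst h
    have : 0 ≤ Real.log N := Real.log_natCast_nonneg N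
    push_cast
    linarith
  · have h1 := hj (j₁ - 1) (by omega)
    have h2 : ((2 : ℝ) ^ (j₁ - 1)) ^ 2 ≤ N := by exact_mod_cast h1
    have h3 := Real.log_le_log (by positivity) h2
    rw [Real.log_pow, Real.log_pow] at h3
    have h4 := Real.log_two_gt_d9
    have h5 : ((j₁ - 1 : ℕ) : ℝ) = (j₁ : ℝ) - 1 := by
      rw [Nat.cast_sub h]
      simp
    rw [h5] at h3
    have h6 : (1 : ℝ) ≤ j₁ := by exact_mod_cast h
    push_cast at h3
    nlinarith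

theorem card_dvd_le {j₀ j₁ : ℕ} {S : Finset ℕ} (hS : S ⊆ SA j₀ j₁) {N m : ℕ} (hm : 1 ≤ m)
    (hmN : m ≤ N) : (((S.filter fun s => s ∣ m).card : ℕ) : ℝ) ≤ 2 * Real.log N := by
  refine le_trans ?_ (log2_le hm hmN)
  have h1 : (S.filter fun s => s ∣ m) ⊆ m.primeFactors := by
    intro s hs
    rw [mem_filter] at hs
    exact Nat.mem_primeFactors.2 ⟨(mem_SA (hS hs.1)).1, hs.2, by omega⟩
  exact_mod_cast (card_le_card h1).trans (FewAux.card_pf m hm)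

theorem FF_abs (b : ℕ → ℝ) (T N : ℕ) {j₀ j₁ : ℕ} {S : Finset ℕ} (hS : S ⊆ SA j₀ j₁)
    (hj : ∀ j < j₁, (2 ^ j) ^ 2 ≤ N) (m : ℤ) :
    |FF b T N S m| ≤ 2 * BB b T * (1 + Real.log N) := by
  have hlog : 0 ≤ Real.log N := Real.log_natCast_nonneg N
  have hBB : 0 ≤ BB b T := sum_nonneg fun _ _ => abs_nonneg _
  by_cases h : m ≤ 0 ∨ (N : ℤ) ≤ m
  · have : FF b T N S m = 0 := sum_eq_zero fun s _ => fs_out b T N s m h
    rw [this, abs_zero]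
    positivity
  · rw [not_or, not_le, not_le] at h
    obtain ⟨k, rfl⟩ := Int.eq_ofNat_of_zero_le h.1.le
    have hk1 : 1 ≤ k := by omega
    have hkN : k ≤ N := by omega
    unfold FF
    refine (abs_sum_le_sum_abs _ _).trans ((sum_le_sum fun s _ => fs_abs b T N s k).trans ?_)
    rw [← sum_mul, ← mul_sum, sum_add_distrib]
    have h1 : ∑ s ∈ S, (if (s : ℤ) ∣ (k : ℤ) then (1 : ℝ) else 0) ≤ 2 * Real.log N := by
      rw [sum_boole]
      have e : (S.filter fun s : ℕ => (s : ℤ) ∣ (k : ℤ)) = S.filter fun s => s ∣ k := by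
        refine filter_congr fun s _ => ?_
        exact Int.natCast_dvd_natCast
      rw [e]
      exact card_dvd_le hS hk1 hkN
    have h2 : ∑ s ∈ S, (1 : ℝ) / s ≤ 1 + Real.log N :=
      (sum_le_sum_of_subset_of_nonneg hS fun _ _ _ => by positivity).trans
        ((inv_SA j₀ j₁).trans (j1_le hj))
    have h3 : 1 / 2 * (∑ s ∈ S, (if (s : ℤ) ∣ (k : ℤ) then (1 : ℝ) else 0) +
      ∑ s ∈ S, (1 : ℝ) / s) ≤ 2 * (1 + Real.log N) := by linarith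
    calc _ ≤ 2 * (1 + Real.log N) * BB b T := by gcongr
      _ = _ := by ring

theorem count_dvd (s : ℕ) (hs : 1 ≤ s) (N : ℕ) (t : ℤ) :
    (((Icc 1 N).filter (fun m : ℕ => (s : ℤ) ∣ (m : ℤ) + t)).card : ℝ) ≤ N / s + 1 := by
  have h1 : ((Icc 1 N).filter (fun m : ℕ => (s : ℤ) ∣ (m : ℤ) + t)).card ≤
      ((Ioc t (t + N)).filter (fun x => (s : ℤ) ∣ x)).card := by
    refine card_le_card_of_injOn (fun m : ℕ => (m : ℤ) + t) ?_ ?_
    · intro m hm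
      rw [mem_coe, mem_filter, mem_Icc] at hm
      rw [mem_coe, mem_filter, mem_Ioc]
      exact ⟨⟨by show t < (m : ℤ) + t; omega, by show (m : ℤ) + t ≤ t + N; omega⟩, hm.2⟩
    · intro x _ y _ hxy
      have : (x : ℤ) + t = y + t := hxy
      omega
  have hs0 : (0 : ℚ) < s := by exact_mod_cast hs
  have h2 := Int.Ioc_filter_dvd_card (a := t) (b := t + N) (r := (s : ℤ)) (by exact_mod_cast hs)
  have h3 : (((Ioc t (t + N)).filter (fun x => (s : ℤ) ∣ x)).card : ℚ) ≤ N / s + 1 := by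
    have h4 : (((Ioc t (t + N)).filter (fun x => (s : ℤ) ∣ x)).card : ℚ) =
        ((max (⌊((t + N : ℤ) : ℚ) / ((s : ℤ) : ℚ)⌋ - ⌊(t : ℚ) / ((s : ℤ) : ℚ)⌋) 0 : ℤ) : ℚ) := by
      rw [← h2]
      push_cast
      rfl
    rw [h4]
    push_cast
    refine max_le ?_ (by positivity)
    have h5 := Int.floor_le (((t : ℚ) + N) / s)
    have h6 := Int.lt_floor_add_one ((t : ℚ) / s)
    have h7 : ((t : ℚ) + N) / s = t / s + N / s := by ring
    linarith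
  have h4 : ((((Ioc t (t + N)).filter (fun x => (s : ℤ) ∣ x)).card : ℚ) : ℝ) ≤
      ((N / s + 1 : ℚ) : ℝ) := by exact_mod_cast h3
  push_cast at h4
  refine le_trans ?_ h4
  exact_mod_cast h1

theorem fs_sum (b : ℕ → ℝ) (T N s : ℕ) (hs : 1 ≤ s) (hsN : s ≤ N) (t : ℤ) :
    ∑ m ∈ Icc 1 N, |fs b T N s ((m : ℤ) + t)| ≤ 3 / 2 * BB b T * (N / s) := by
  have hs0 : (0 : ℝ) < s := by exact_mod_cast hs
  have hBB : 0 ≤ BB b T := sum_nonneg fun _ _ => abs_nonneg _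
  refine (sum_le_sum fun (m : ℕ) _ => fs_abs b T N s ((m : ℤ) + t)).trans ?_
  rw [← sum_mul, ← mul_sum, sum_add_distrib, sum_boole, sum_const, Nat.card_Icc, nsmul_eq_mul,
    Nat.add_sub_cancel]
  have h1 := count_dvd s hs N t
  have h2 : (1 : ℝ) ≤ N / s := by
    rw [le_div_iff₀ hs0, one_mul]
    exact_mod_cast hsN
  have h3 : 1 / 2 * ((((Icc 1 N).filter (fun m : ℕ => (s : ℤ) ∣ (m : ℤ) + t)).card : ℝ) +
      N * (1 / s)) ≤ 3 / 2 * (N / s) := by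
    have h4 : (N : ℝ) * (1 / s) = N / s := by ring
    rw [h4]
    linarith
  calc _ ≤ 3 / 2 * ((N : ℝ) / s) * BB b T := by gcongr
    _ = _ := by ring

theorem FD_sum (b : ℕ → ℝ) (T N q : ℕ) (j₀ j₁ : ℕ) (hN : 3 ≤ N) (hq : 1 ≤ q) (hqN : q ≤ N) (t : ℤ) :
    ∑ m ∈ Icc 1 N, |FF b T N ((SA j₀ j₁).filter fun s => s ∣ q) ((m : ℤ) + t)| ≤
      3 * BB b T * (1 + Real.log N) * (N / 2 ^ j₀) := by
  have hlog : 0 ≤ Real.log N := Real.log_natCast_nonneg N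
  have hBB : 0 ≤ BB b T := sum_nonneg fun _ _ => abs_nonneg _
  have hNr : (3 : ℝ) ≤ N := by exact_mod_cast hN
  calc ∑ m ∈ Icc 1 N, |FF b T N ((SA j₀ j₁).filter fun s => s ∣ q) ((m : ℤ) + t)|
      ≤ ∑ m ∈ Icc 1 N, ∑ s ∈ (SA j₀ j₁).filter (fun s => s ∣ q), |fs b T N s ((m : ℤ) + t)| :=
        sum_le_sum fun m _ => abs_sum_le_sum_abs _ _
    _ = ∑ s ∈ (SA j₀ j₁).filter (fun s => s ∣ q), ∑ m ∈ Icc 1 N, |fs b T N s ((m : ℤ) + t)| :=
        sum_comm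
    _ ≤ ∑ s ∈ (SA j₀ j₁).filter (fun s => s ∣ q), 3 / 2 * BB b T * (N / 2 ^ j₀) := by
        refine sum_le_sum fun s hs => ?_
        rw [mem_filter] at hs
        obtain ⟨hp, h1, h2⟩ := mem_SA hs.1
        have hsN : s ≤ N := (Nat.le_of_dvd hq hs.2).trans hqN
        refine (fs_sum b T N s hp.one_lt.le hsN t).trans ?_
        have h3 : (2 : ℝ) ^ j₀ ≤ s := by exact_mod_cast h1.le
        gcongr
    _ = (((SA j₀ j₁).filter fun s => s ∣ q).card : ℝ) * (3 / 2 * BB b T * (N / 2 ^ j₀)) := by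
        rw [sum_const, nsmul_eq_mul]
    _ ≤ (2 * (1 + Real.log N)) * (3 / 2 * BB b T * (N / 2 ^ j₀)) := by
        have h4 := card_dvd_le (Subset.refl (SA j₀ j₁)) hq hqN
        have h5 : (((SA j₀ j₁).filter fun s => s ∣ q).card : ℝ) ≤ 2 * (1 + Real.log N) := by
          linarith
        gcongr
    _ = _ := by ring

theorem FF_split (b : ℕ → ℝ) (T N q j₀ j₁ : ℕ) (m : ℤ) :
    FF b T N (SS q j₀ j₁) m = FF b T N (SA j₀ j₁) m -
      FF b T N ((SA j₀ j₁).filter fun s => s ∣ q) m := by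
  rw [SS_eq]
  unfold FF
  rw [← sum_filter_add_sum_filter_not (SA j₀ j₁) (fun s => s ∣ q)]
  ring

end SecAux

open SecAux

/-- SEC. The off-diagonal part of the second moment on average over the modulus. -/
theorem avg_second (b : ℕ → ℝ) (T N Q j₀ j₁ : ℕ) (hN : 3 ≤ N) (hT : 1 ≤ T) (hTN : T ≤ N)
    (hQ : 1 ≤ Q) (hj : ∀ j < j₁, (2 ^ j) ^ 2 ≤ N) (σ : ℤ) (hσ : σ = 1 ∨ σ = -1)
    (I : Finset ℕ) (hI : ∀ q ∈ I, Q < q ∧ q ≤ 2 * Q ∧ q ≤ N) :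
    ∑ q ∈ I, |∑ m ∈ Icc 1 N, FF b T N (SS q j₀ j₁) (m : ℤ) *
      ∑ h ∈ Icc 1 (N / q), FF b T N (SS q j₀ j₁) ((m : ℤ) + σ * (h * q))| ≤
      400 * BB b T ^ 2 * (1 + Real.log N) ^ 4 * (N ^ 2 / 2 ^ j₀) := by
  have hlog : 0 ≤ Real.log N := Real.log_natCast_nonneg N
  have hBB : 0 ≤ BB b T := sum_nonneg fun _ _ => abs_nonneg _
  have hNr : (3 : ℝ) ≤ N := by exact_mod_cast hN
  have hQr : (1 : ℝ) ≤ Q := by exact_mod_cast hQ
  have hI1 : ∀ q ∈ I, 1 ≤ q := fun q hq => by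
    have := (hI q hq).1
    omega
  set L : ℝ := 1 + Real.log N with hL
  have hL1 : 1 ≤ L := by linarith
  set A : ℤ → ℝ := FF b T N (SA j₀ j₁) with hA
  set D : ℕ → ℤ → ℝ := fun q => FF b T N ((SA j₀ j₁).filter fun s => s ∣ q) with hD
  have hAabs : ∀ m, |A m| ≤ 2 * BB b T * L := fun m =>
    FF_abs b T N (Subset.refl (SA j₀ j₁)) hj m
  have hFabs : ∀ q m, |FF b T N (SS q j₀ j₁) m| ≤ 2 * BB b T * L := fun q m =>
    FF_abs b T N (by rw [SS_eq]; exact filter_subset _ _) hj m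
  have hDsum : ∀ q ∈ I, ∀ t : ℤ, ∑ m ∈ Icc 1 N, |D q ((m : ℤ) + t)| ≤
      3 * BB b T * L * (N / 2 ^ j₀) := fun q hq t =>
    FD_sum b T N q j₀ j₁ hN (hI1 q hq) (hI q hq).2.2 t
  -- one modulus
  have hone : ∀ q ∈ I, |∑ m ∈ Icc 1 N, FF b T N (SS q j₀ j₁) (m : ℤ) *
      ∑ h ∈ Icc 1 (N / q), FF b T N (SS q j₀ j₁) ((m : ℤ) + σ * (h * q))| ≤
      ∑ j ∈ Ico j₀ j₁, |∑ m ∈ Icc 1 N, A m * ∑ h ∈ Icc 1 (N / q), ∑ s ∈ PR (2 ^ j),
        fs b T N s ((m : ℤ) + σ * (h * q))| +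
      (N / Q : ℝ) * (12 * BB b T ^ 2 * L ^ 2 * (N / 2 ^ j₀)) := by
    intro q hq
    obtain ⟨hq1, hq2, hq3⟩ := hI q hq
    have hH : ((N / q : ℕ) : ℝ) ≤ N / Q := by
      refine Nat.cast_div_le.trans ?_
      have : (Q : ℝ) ≤ q := by exact_mod_cast hq1.le
      gcongr
    have e1 : ∑ m ∈ Icc 1 N, FF b T N (SS q j₀ j₁) (m : ℤ) *
      ∑ h ∈ Icc 1 (N / q), FF b T N (SS q j₀ j₁) ((m : ℤ) + σ * (h * q)) =
      ∑ m ∈ Icc 1 N, A m * ∑ h ∈ Icc 1 (N / q), A ((m : ℤ) + σ * (h * q)) -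
      ∑ h ∈ Icc 1 (N / q), ∑ m ∈ Icc 1 N, A m * D q ((m : ℤ) + σ * (h * q)) -
      ∑ h ∈ Icc 1 (N / q), ∑ m ∈ Icc 1 N, D q m *
        FF b T N (SS q j₀ j₁) ((m : ℤ) + σ * (h * q)) := by
      have e2 : ∀ m : ℕ, FF b T N (SS q j₀ j₁) (m : ℤ) *
          ∑ h ∈ Icc 1 (N / q), FF b T N (SS q j₀ j₁) ((m : ℤ) + σ * (h * q)) =
          A m * ∑ h ∈ Icc 1 (N / q), A ((m : ℤ) + σ * (h * q)) -
          ∑ h ∈ Icc 1 (N / q), A m * D q ((m : ℤ) + σ * (h * q)) -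
          ∑ h ∈ Icc 1 (N / q), D q m * FF b T N (SS q j₀ j₁) ((m : ℤ) + σ * (h * q)) := by
        intro m
        rw [mul_sum, mul_sum, ← sum_sub_distrib, ← sum_sub_distrib]
        refine sum_congr rfl fun h _ => ?_
        have e3 := FF_split b T N q j₀ j₁ (m : ℤ)
        have e4 := FF_split b T N q j₀ j₁ ((m : ℤ) + σ * (h * q))
        have e5 : FF b T N (SS q j₀ j₁) (m : ℤ) = A m - D q m := e3
        have e6 : FF b T N (SS q j₀ j₁) ((m : ℤ) + σ * (h * q)) =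
          A ((m : ℤ) + σ * (h * q)) - D q ((m : ℤ) + σ * (h * q)) := e4
        rw [e5, e6]
        ring
      rw [sum_congr rfl fun m _ => e2 m, sum_sub_distrib, sum_sub_distrib]
      congr 1
      · congr 1
        exact sum_comm
      · exact sum_comm
    have b1 : |∑ h ∈ Icc 1 (N / q), ∑ m ∈ Icc 1 N, A m * D q ((m : ℤ) + σ * (h * q))| ≤
        (N / Q : ℝ) * (6 * BB b T ^ 2 * L ^ 2 * (N / 2 ^ j₀)) := by
      refine (abs_sum_le_sum_abs _ _).trans ?_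
      calc ∑ h ∈ Icc 1 (N / q), |∑ m ∈ Icc 1 N, A m * D q ((m : ℤ) + σ * (h * q))|
          ≤ ∑ h ∈ Icc 1 (N / q), (2 * BB b T * L) * (3 * BB b T * L * (N / 2 ^ j₀)) := by
            refine sum_le_sum fun h _ => (abs_sum_le_sum_abs _ _).trans ?_
            calc ∑ m ∈ Icc 1 N, |A m * D q ((m : ℤ) + σ * (h * q))|
                ≤ ∑ m ∈ Icc 1 N, (2 * BB b T * L) * |D q ((m : ℤ) + σ * (h * q))| := by
                  refine sum_le_sum fun m _ => ?_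
                  rw [abs_mul]
                  have := hAabs m
                  gcongr
              _ = (2 * BB b T * L) * ∑ m ∈ Icc 1 N, |D q ((m : ℤ) + σ * (h * q))| := by
                  rw [mul_sum]
              _ ≤ _ := by
                  have := hDsum q hq (σ * (h * q))
                  gcongr
        _ = ((N / q : ℕ) : ℝ) * ((2 * BB b T * L) * (3 * BB b T * L * (N / 2 ^ j₀))) := by
            rw [sum_const, Nat.card_Icc, nsmul_eq_mul, Nat.add_sub_cancel]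
        _ ≤ (N / Q : ℝ) * ((2 * BB b T * L) * (3 * BB b T * L * (N / 2 ^ j₀))) := by gcongr
        _ = _ := by ring
    have b2 : |∑ h ∈ Icc 1 (N / q), ∑ m ∈ Icc 1 N, D q m *
        FF b T N (SS q j₀ j₁) ((m : ℤ) + σ * (h * q))| ≤
        (N / Q : ℝ) * (6 * BB b T ^ 2 * L ^ 2 * (N / 2 ^ j₀)) := by
      refine (abs_sum_le_sum_abs _ _).trans ?_
      calc ∑ h ∈ Icc 1 (N / q), |∑ m ∈ Icc 1 N, D q m *
            FF b T N (SS q j₀ j₁) ((m : ℤ) + σ * (h * q))|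
          ≤ ∑ h ∈ Icc 1 (N / q), (2 * BB b T * L) * (3 * BB b T * L * (N / 2 ^ j₀)) := by
            refine sum_le_sum fun h _ => (abs_sum_le_sum_abs _ _).trans ?_
            calc ∑ m ∈ Icc 1 N, |D q m * FF b T N (SS q j₀ j₁) ((m : ℤ) + σ * (h * q))|
                ≤ ∑ m ∈ Icc 1 N, (2 * BB b T * L) * |D q ((m : ℤ) + 0)| := by
                  refine sum_le_sum fun m _ => ?_
                  rw [abs_mul, mul_comm, add_zero]
                  have := hFabs q ((m : ℤ) + σ * (h * q))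
                  gcongr
              _ = (2 * BB b T * L) * ∑ m ∈ Icc 1 N, |D q ((m : ℤ) + 0)| := by
                  rw [mul_sum]
              _ ≤ _ := by
                  have := hDsum q hq 0
                  gcongr
        _ = ((N / q : ℕ) : ℝ) * ((2 * BB b T * L) * (3 * BB b T * L * (N / 2 ^ j₀))) := by
            rw [sum_const, Nat.card_Icc, nsmul_eq_mul, Nat.add_sub_cancel]
        _ ≤ (N / Q : ℝ) * ((2 * BB b T * L) * (3 * BB b T * L * (N / 2 ^ j₀))) := by gcongr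
        _ = _ := by ring
    have b3 : |∑ m ∈ Icc 1 N, A m * ∑ h ∈ Icc 1 (N / q), A ((m : ℤ) + σ * (h * q))| ≤
        ∑ j ∈ Ico j₀ j₁, |∑ m ∈ Icc 1 N, A m * ∑ h ∈ Icc 1 (N / q), ∑ s ∈ PR (2 ^ j),
          fs b T N s ((m : ℤ) + σ * (h * q))| := by
      have e3 : ∑ m ∈ Icc 1 N, A m * ∑ h ∈ Icc 1 (N / q), A ((m : ℤ) + σ * (h * q)) =
          ∑ j ∈ Ico j₀ j₁, ∑ m ∈ Icc 1 N, A m * ∑ h ∈ Icc 1 (N / q), ∑ s ∈ PR (2 ^ j),
          fs b T N s ((m : ℤ) + σ * (h * q)) := by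
        rw [sum_comm]
        refine sum_congr rfl fun m _ => ?_
        rw [← mul_sum]
        congr 1
        rw [sum_comm]
        refine sum_congr rfl fun h _ => ?_
        rw [hA]
        unfold FF
        exact sum_SA j₀ j₁ _
      rw [e3]
      exact abs_sum_le_sum_abs _ _
    rw [e1]
    calc _ ≤ |∑ m ∈ Icc 1 N, A m * ∑ h ∈ Icc 1 (N / q), A ((m : ℤ) + σ * (h * q))| +
          |∑ h ∈ Icc 1 (N / q), ∑ m ∈ Icc 1 N, A m * D q ((m : ℤ) + σ * (h * q))| +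
          |∑ h ∈ Icc 1 (N / q), ∑ m ∈ Icc 1 N, D q m *
        FF b T N (SS q j₀ j₁) ((m : ℤ) + σ * (h * q))| := by
          refine (abs_sub _ _).trans ?_
          gcongr
          exact abs_sub _ _
      _ ≤ _ := by linarith
  refine (sum_le_sum hone).trans ?_
  rw [sum_add_distrib, sum_comm]
  have hcard : (I.card : ℝ) ≤ Q := by
    have h1 : I ⊆ Ioc Q (2 * Q) := fun q hq => Finset.mem_Ioc.2 ⟨(hI q hq).1, (hI q hq).2.1⟩
    have h2 := Finset.card_le_card h1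
    rw [Nat.card_Ioc] at h2
    exact_mod_cast (by omega : I.card ≤ Q)
  have m1 : ∑ j ∈ Ico j₀ j₁, ∑ q ∈ I, |∑ m ∈ Icc 1 N, A m * ∑ h ∈ Icc 1 (N / q),
      ∑ s ∈ PR (2 ^ j), fs b T N s ((m : ℤ) + σ * (h * q))| ≤
      104 * BB b T ^ 2 * L ^ 4 * (N ^ 2 / 2 ^ j₀) := by
    calc _ ≤ ∑ j ∈ Ico j₀ j₁, 52 * BB b T ^ 2 * L ^ 4 * N ^ 2 * (1 / 2 ^ j) := by
          refine sum_le_sum fun j hj' => ?_
          rw [mem_Ico] at hj'
          have h1 := add_avg b T N (2 ^ j) Nat.one_le_two_pow (hj j hj'.2) σ hσ I hI1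
            (fun m => A m) (2 * BB b T * L) (by positivity) (fun n _ => hAabs n)
          refine h1.trans (le_of_eq ?_)
          push_cast
          rw [← hL]
          ring
      _ = 52 * BB b T ^ 2 * L ^ 4 * N ^ 2 * ∑ j ∈ Ico j₀ j₁, (1 / 2 ^ j) := by
          rw [mul_sum]
      _ ≤ 52 * BB b T ^ 2 * L ^ 4 * N ^ 2 * (2 / 2 ^ j₀) := by
          have := geo j₀ j₁
          gcongr
      _ = _ := by ring
  have m2 : ∑ q ∈ I, (N / Q : ℝ) * (12 * BB b T ^ 2 * L ^ 2 * (N / 2 ^ j₀)) ≤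
      12 * BB b T ^ 2 * L ^ 4 * (N ^ 2 / 2 ^ j₀) := by
    rw [sum_const, nsmul_eq_mul]
    have hLL : L ^ 2 ≤ L ^ 4 := pow_le_pow_right₀ hL1 (by norm_num)
    calc (I.card : ℝ) * ((N / Q : ℝ) * (12 * BB b T ^ 2 * L ^ 2 * (N / 2 ^ j₀)))
        ≤ (Q : ℝ) * ((N / Q : ℝ) * (12 * BB b T ^ 2 * L ^ 4 * (N / 2 ^ j₀))) := by gcongr
      _ = _ := by
          field_simp
  have h0 : 0 ≤ BB b T ^ 2 * L ^ 4 * (N ^ 2 / 2 ^ j₀) := by positivity
  calc _ ≤ 104 * BB b T ^ 2 * L ^ 4 * (N ^ 2 / 2 ^ j₀) +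
        12 * BB b T ^ 2 * L ^ 4 * (N ^ 2 / 2 ^ j₀) := add_le_add m1 m2
    _ ≤ _ := by nlinarith

/-- The off-diagonal part of the first moment on average over the modulus. -/
theorem avg_off_SS (b : ℕ → ℝ) (T N Q j₀ j₁ : ℕ) (hN : 3 ≤ N) (hT : 1 ≤ T) (hTN : T ≤ N)
    (hQ : 1 ≤ Q) (hj : ∀ j < j₁, (2 ^ j) ^ 2 ≤ N) (hQj : N ≤ Q * 2 ^ j₀) (σ : ℤ)
    (hσ : σ = 1 ∨ σ = -1)
    (I : Finset ℕ) (hI : ∀ q ∈ I, Q < q ∧ q ≤ 2 * Q ∧ q ≤ N) :
    ∑ q ∈ I, |∑ s ∈ SS q j₀ j₁, AvO.Xs b T N q s σ| ≤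
      72 * BB b T * (1 + Real.log N) ^ 4 * (N ^ 2 / 2 ^ j₀) := by
  have hlog : 0 ≤ Real.log N := Real.log_natCast_nonneg N
  have hBB : 0 ≤ BB b T := sum_nonneg fun _ _ => abs_nonneg _
  calc ∑ q ∈ I, |∑ s ∈ SS q j₀ j₁, AvO.Xs b T N q s σ|
      ≤ ∑ q ∈ I, ∑ j ∈ Ico j₀ j₁, |∑ s ∈ (PR (2 ^ j)).filter (fun s => ¬ s ∣ q),
          AvO.Xs b T N q s σ| := by
        refine sum_le_sum fun q _ => ?_
        rw [sum_SS]
        exact abs_sum_le_sum_abs _ _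
    _ = ∑ j ∈ Ico j₀ j₁, ∑ q ∈ I, |∑ s ∈ (PR (2 ^ j)).filter (fun s => ¬ s ∣ q),
          AvO.Xs b T N q s σ| := sum_comm
    _ ≤ ∑ j ∈ Ico j₀ j₁, 36 * BB b T * (1 + Real.log N) ^ 4 * N ^ 2 * (1 / 2 ^ j) := by
        refine sum_le_sum fun j hj' => ?_
        rw [mem_Ico] at hj'
        have hQR : N ≤ Q * 2 ^ j :=
          hQj.trans (Nat.mul_le_mul_left _ (Nat.pow_le_pow_right (by norm_num) hj'.1))
        have h1 := avg_off b T N (2 ^ j) Q hN Nat.one_le_two_pow (hj j hj'.2) hTN hQ hQR σ hσ I hI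
        refine h1.trans (le_of_eq ?_)
        push_cast
        ring
    _ = 36 * BB b T * (1 + Real.log N) ^ 4 * N ^ 2 * ∑ j ∈ Ico j₀ j₁, (1 / 2 ^ j) := by
        rw [mul_sum]
    _ ≤ 36 * BB b T * (1 + Real.log N) ^ 4 * N ^ 2 * (2 / 2 ^ j₀) := by
        have := geo j₀ j₁
        gcongr
    _ = _ := by ring

end

end Pool.Agent.M848
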