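import Pool.Agent.Lib.MP_848d44_nt.Main
import Pool.Agent.Lib.MP_848d44_nt.B.AvO
import Pool.Agent.Lib.MP_848d44_nt.B.Sec

/-!
# MP_848d44_nt: almost all moduli `q ≤ Q`, `Q ≥ x^(1/2+ε)`: the assembly
-/

set_option autoImplicit false

namespace Pool.Agent.M848

open Finset
open scoped ArithmeticFunction ComplexConjugate

noncomputable section

namespace Asm

/-- the shifted part of the second moment -/
def Sec (b : ℕ → ℝ) (T N q j₀ j₁ : ℕ) (σ : ℤ) : ℝ :=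
  ∑ m ∈ Icc 1 N, FF b T N (SS q j₀ j₁) (m : ℤ) *
    ∑ h ∈ Icc 1 (N / q), FF b T N (SS q j₀ j₁) ((m : ℤ) + σ * (h * q))

/-- the off-diagonal part of the numerator -/
def Off (b : ℕ → ℝ) (T N q j₀ j₁ : ℕ) (σ : ℤ) : ℝ :=
  ∑ s ∈ SS q j₀ j₁, AvO.Xs b T N q s σ

theorem second2 (b : ℕ → ℝ) (T N q j₀ j₁ : ℕ) (hq : 1 ≤ q) :
    ∑ a ∈ range q, GG b T N q (SS q j₀ j₁) a ^ 2 =
      ∑ m ∈ Icc 1 N, FF b T N (SS q j₀ j₁) (m : ℤ) ^ 2 + Sec b T N q j₀ j₁ 1 +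
        Sec b T N q j₀ j₁ (-1) := by
  set S := SS q j₀ j₁ with hS
  have h1 : ∑ a ∈ range q, GG b T N q S a ^ 2 =
      ∑ m ∈ Icc 1 N, FF b T N S (m : ℤ) * GG b T N q S (m % q) := by
    have h2 : ∀ a ∈ range q, GG b T N q S a ^ 2 =
        ∑ m ∈ (Icc 1 N).filter (fun m => m % q = a),
          FF b T N S (m : ℤ) * GG b T N q S (m % q) := by
      intro a _
      rw [pow_two]
      conv_lhs => rw [GG, sum_mul]
      refine sum_congr rfl fun m hm => ?_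
      rw [(mem_filter.1 hm).2, GG]
    rw [sum_congr rfl h2]
    exact sum_fiberwise_of_maps_to (fun m _ => mem_range.2 (Nat.mod_lt _ hq)) _
  rw [h1, Sec, Sec, ← sum_add_distrib, ← sum_add_distrib]
  refine sum_congr rfl fun m hm => ?_
  rw [GG_eq b T N q hq S m hm, sum_add_distrib, mul_add, mul_add, ← add_assoc, pow_two]
  congr 1
  · congr 1
    congr 1
    refine sum_congr rfl fun h _ => ?_
    rw [one_mul]
  · congr 1
    refine sum_congr rfl fun h _ => ?_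
    congr 1
    ring

theorem numer2 (N₀ : ℕ) (hD : DiagC N₀)
    (b : ℕ → ℝ) (T N q j₀ j₁ : ℕ) (X : ℝ) (hX : 0 ≤ X) (hb : 0 ≤ b 1)
    (hN : 3 ≤ N) (hN₀ : N₀ ≤ N) (hT : 1 ≤ T) (hTN : T ≤ N) (hq : 1 ≤ q) (hqN : q ≤ N)
    (hTj : T ≤ 2 ^ j₀) :
    ∑ a ∈ (range q).filter (fun a => a.Coprime q),
      ((∑ n ∈ (Icc 1 N).filter (fun n => n % q = a), Λ n) - X) * GG b T N q (SS q j₀ j₁) a
      ≤ -(AA (SS q j₀ j₁) * b 1 * (N / 40)) +
        (((SS q j₀ j₁).card : ℝ) * BB b T *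
        (6 * T + 2 * Real.sqrt N * Real.log N + (SS q j₀ j₁).card * Real.log N
          + 2 * Real.log N ^ 2) + |Off b T N q j₀ j₁ 1| + |Off b T N q j₀ j₁ (-1)| +
        X * (6 * BB b T * (SS q j₀ j₁).card * q.divisors.card)) := by
  rw [dual_identity b T N q hq (SS q j₀ j₁) X, numer_expand b T N q hq]
  have hS : ∀ s ∈ SS q j₀ j₁, s.Prime ∧ T < s := by
    intro s hs
    have := mem_SS hs
    exact ⟨this.1, by omega⟩
  have h1 := hD N hN₀ q hq hqN b T (SS q j₀ j₁) hb hT hTN hS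
  have h2 := le_abs_self (Off b T N q j₀ j₁ 1)
  have h3 := le_abs_self (Off b T N q j₀ j₁ (-1))
  have h4 := (abs_le.mp (FF_coprime b T N q (by omega) hq (SS q j₀ j₁) hS
    (fun s hs => (mem_SS hs).2.2.2))).1
  have h5 := mul_le_mul_of_nonneg_left h4 hX
  have e2 : Off b T N q j₀ j₁ 1 = ∑ s ∈ SS q j₀ j₁, (∑ n ∈ (Icc 1 N).filter
      (fun n => n.Coprime q), Λ n * ∑ h ∈ Icc 1 (N / q), fs b T N s ((n : ℤ) + (1 : ℤ) * (h * q))) :=
    rfl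
  have e3 : Off b T N q j₀ j₁ (-1) = ∑ s ∈ SS q j₀ j₁, (∑ n ∈ (Icc 1 N).filter
      (fun n => n.Coprime q), Λ n * ∑ h ∈ Icc 1 (N / q), fs b T N s ((n : ℤ) + (-1 : ℤ) * (h * q))) :=
    rfl
  rw [← e2, ← e3]
  linarith

/-- Cauchy-Schwarz. -/
theorem cauchy3 (b : ℕ → ℝ) (T N q j₀ j₁ : ℕ) (X e₁ : ℝ)
    (hb : 1 ≤ b 1) (hQ : QQ b T ≤ b 1) (hN : 3 ≤ N) (hq : 1 ≤ q)
    (hTj : T ≤ 2 ^ j₀)
    (hA : 0 < AA (SS q j₀ j₁))
    (hnum : ∑ a ∈ (range q).filter (fun a => a.Coprime q),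
      ((∑ n ∈ (Icc 1 N).filter (fun n => n % q = a), Λ n) - X) * GG b T N q (SS q j₀ j₁) a
      ≤ -(AA (SS q j₀ j₁) * b 1 * (N / 40)) + e₁)
    (he₁ : e₁ ≤ AA (SS q j₀ j₁) * b 1 * (N / 80))
    (he₂ : 2 * ((SS q j₀ j₁).card : ℝ) ^ 2 * BB b T ^ 2 + |Sec b T N q j₀ j₁ 1| +
      |Sec b T N q j₀ j₁ (-1)| ≤ N * b 1 * (AA (SS q j₀ j₁) + AA (SS q j₀ j₁) ^ 2)) :
    N * b 1 * (AA (SS q j₀ j₁) / (1 + AA (SS q j₀ j₁))) / 12800 ≤
      ∑ a ∈ (range q).filter (fun a => a.Coprime q),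
        ((∑ n ∈ (Icc 1 N).filter (fun n => n % q = a), Λ n) - X) ^ 2 := by
  set A := AA (SS q j₀ j₁) with hAdef
  set E : ℕ → ℝ := fun a => (∑ n ∈ (Icc 1 N).filter (fun n => n % q = a), Λ n) - X with hE
  have hS : ∀ s ∈ SS q j₀ j₁, s.Prime ∧ T < s := by
    intro s hs
    have := mem_SS hs
    exact ⟨this.1, by omega⟩
  have hNpos : (0 : ℝ) < N := by
    have : 0 < N := by omega
    exact_mod_cast this
  have hM : ∑ a ∈ range q, GG b T N q (SS q j₀ j₁) a ^ 2 ≤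
      N * QQ b T * (A + A ^ 2) + (2 * ((SS q j₀ j₁).card : ℝ) ^ 2 * BB b T ^ 2 +
        |Sec b T N q j₀ j₁ 1| + |Sec b T N q j₀ j₁ (-1)|) := by
    rw [second2 b T N q j₀ j₁ hq]
    have h1 := FF_diag b T N (SS q j₀ j₁) hS
    have h2 := le_abs_self (Sec b T N q j₀ j₁ 1)
    have h3 := le_abs_self (Sec b T N q j₀ j₁ (-1))
    linarith
  have hG : ∑ a ∈ (range q).filter (fun a => a.Coprime q), GG b T N q (SS q j₀ j₁) a ^ 2 ≤
      2 * (N * b 1 * (A + A ^ 2)) := by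
    refine le_trans (sum_le_sum_of_subset_of_nonneg (filter_subset _ _)
      (fun a _ _ => sq_nonneg _)) ?_
    refine le_trans hM ?_
    have h1 : N * QQ b T * (A + A ^ 2) ≤ N * b 1 * (A + A ^ 2) := by
      have : 0 ≤ A + A ^ 2 := by positivity
      have h2 := mul_le_mul_of_nonneg_left hQ hNpos.le
      exact mul_le_mul_of_nonneg_right h2 this
    linarith
  have hCS : (∑ a ∈ (range q).filter (fun a => a.Coprime q), E a * GG b T N q (SS q j₀ j₁) a) ^ 2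
      ≤ (∑ a ∈ (range q).filter (fun a => a.Coprime q), E a ^ 2) *
        (∑ a ∈ (range q).filter (fun a => a.Coprime q), GG b T N q (SS q j₀ j₁) a ^ 2) :=
    sum_mul_sq_le_sq_mul_sq _ _ _
  have hV0 : 0 ≤ ∑ a ∈ (range q).filter (fun a => a.Coprime q), E a ^ 2 :=
    sum_nonneg fun a _ => sq_nonneg _
  set V := ∑ a ∈ (range q).filter (fun a => a.Coprime q), E a ^ 2 with hV
  set Y := ∑ a ∈ (range q).filter (fun a => a.Coprime q), E a * GG b T N q (SS q j₀ j₁) a with hY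
  have hY1 : Y ≤ -(A * b 1 * (N / 80)) := by
    have : Y ≤ -(A * b 1 * (N / 40)) + e₁ := hnum
    have h2 : A * b 1 * ((N : ℝ) / 40) = 2 * (A * b 1 * (N / 80)) := by ring
    linarith
  have hpos : 0 < A * b 1 * (N / 80) := by positivity
  have hY2 : (A * b 1 * ((N : ℝ) / 80)) ^ 2 ≤ Y ^ 2 := by nlinarith
  have hfin : (A * b 1 * ((N : ℝ) / 80)) ^ 2 ≤ V * (2 * (N * b 1 * (A + A ^ 2))) :=
    le_trans hY2 (le_trans hCS (mul_le_mul_of_nonneg_left hG hV0))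
  have hb0 : 0 < b 1 := by linarith
  have hk : 0 < 2 * (N * b 1 * (A + A ^ 2)) := by positivity
  have hdiv : (A * b 1 * ((N : ℝ) / 80)) ^ 2 / (2 * (N * b 1 * (A + A ^ 2))) ≤ V :=
    (div_le_iff₀ hk).2 hfin
  refine le_trans (le_of_eq ?_) hdiv
  have h1A : (1 + A) ≠ 0 := by positivity
  have hA' : A ≠ 0 := hA.ne'
  field_simp
  ring

theorem sz_a (Sc B T L u m C₃ W N : ℝ) (hSc : 0 ≤ Sc) (hSm : Sc ≤ m) (hSW : Sc * W ≤ m)
    (hB0 : 0 ≤ B) (hB : B ≤ u ^ 3) (hT0 : 0 ≤ T) (hT : T ≤ u) (hL0 : 0 ≤ L) (hL : L ≤ C₃ * u)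
    (hu : 1 ≤ u) (hm : 1 ≤ m) (hC : 1 ≤ C₃) (hW6 : u ^ 6 ≤ W) (hmN : N = m ^ 2) :
    Sc * B * (6 * T + 2 * m * L + Sc * L + 2 * L ^ 2) * u ≤ (6 + 3 * C₃ + 2 * C₃ ^ 2) * N := by
  have hu0 : 0 < u := by linarith
  have hm0 : 0 < m := by linarith
  have huu : u ≤ u ^ 2 := by
    rw [pow_two]
    exact le_mul_of_one_le_right hu0.le hu
  have h1 : 6 * T + 2 * m * L + Sc * L + 2 * L ^ 2 ≤ (6 + 3 * C₃ + 2 * C₃ ^ 2) * (m * u ^ 2) := by
    have e1 : 6 * T ≤ 6 * (m * u ^ 2) := by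
      calc 6 * T ≤ 6 * u := by gcongr
        _ ≤ 6 * u ^ 2 := by
            have := huu
            gcongr
        _ = 6 * (1 * u ^ 2) := by ring
        _ ≤ _ := by gcongr
    have e2 : 2 * m * L ≤ 2 * C₃ * (m * u ^ 2) := by
      calc 2 * m * L ≤ 2 * m * (C₃ * u ^ 2) := by
            gcongr
            exact le_trans hL (by gcongr)
        _ = _ := by ring
    have e3 : Sc * L ≤ C₃ * (m * u ^ 2) := by
      calc Sc * L ≤ m * (C₃ * u ^ 2) := by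
            gcongr
            exact le_trans hL (by gcongr)
        _ = _ := by ring
    have e4 : 2 * L ^ 2 ≤ 2 * C₃ ^ 2 * (m * u ^ 2) := by
      calc 2 * L ^ 2 ≤ 2 * (C₃ * u) ^ 2 := by gcongr
        _ = 2 * C₃ ^ 2 * (1 * u ^ 2) := by ring
        _ ≤ 2 * C₃ ^ 2 * (m * u ^ 2) := by gcongr
    linarith
  calc _ ≤ Sc * u ^ 3 * ((6 + 3 * C₃ + 2 * C₃ ^ 2) * (m * u ^ 2)) * u := by gcongr
    _ = (6 + 3 * C₃ + 2 * C₃ ^ 2) * (m * (Sc * u ^ 6)) := by ring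
    _ ≤ (6 + 3 * C₃ + 2 * C₃ ^ 2) * (m * (Sc * W)) := by gcongr
    _ ≤ (6 + 3 * C₃ + 2 * C₃ ^ 2) * (m * m) := by gcongr
    _ = _ := by rw [hmN]; ring

theorem sz_c (Sc B X Hr τ u m C₂ W N : ℝ) (hSc : 0 ≤ Sc) (hSW : Sc * W ≤ m)
    (hB0 : 0 ≤ B) (hB : B ≤ u ^ 3) (hX0 : 0 ≤ X) (hX : X ≤ 12 * Hr * (C₂ * u)) (hHr : 0 ≤ Hr)
    (hτ0 : 0 ≤ τ) (hτ : τ ≤ C₂ * u) (hHW : Hr * W ≤ m)
    (hu : 1 ≤ u) (hm : 1 ≤ m) (hC : 1 ≤ C₂) (hW3 : u ^ 3 ≤ W) (hmN : N = m ^ 2) :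
    X * (6 * B * Sc * τ) * u ≤ 72 * C₂ ^ 2 * N := by
  have hu0 : 0 < u := by linarith
  have hm0 : 0 < m := by linarith
  have hW0 : 0 ≤ W := le_trans (by positivity) hW3
  calc _ ≤ (12 * Hr * (C₂ * u)) * (6 * u ^ 3 * Sc * (C₂ * u)) * u := by gcongr
    _ = 72 * C₂ ^ 2 * ((Hr * u ^ 3) * (Sc * u ^ 3)) := by ring
    _ ≤ 72 * C₂ ^ 2 * ((Hr * W) * (Sc * W)) := by gcongr
    _ ≤ 72 * C₂ ^ 2 * (m * m) := by gcongr
    _ = _ := by rw [hmN]; ring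

theorem sz_d (Sc B u m W N : ℝ) (hSc : 0 ≤ Sc) (hSm : Sc ≤ m) (hSW : Sc * W ≤ m)
    (hB0 : 0 ≤ B) (hB : B ≤ u ^ 3) (hu : 1 ≤ u) (hm : 1 ≤ m) (hW7 : u ^ 7 ≤ W) (hmN : N = m ^ 2) :
    2 * Sc ^ 2 * B ^ 2 * u ≤ 2 * N := by
  have hu0 : 0 < u := by linarith
  have hm0 : 0 < m := by linarith
  have hW0 : 0 ≤ W := le_trans (by positivity) hW7
  calc 2 * Sc ^ 2 * B ^ 2 * u ≤ 2 * Sc ^ 2 * (u ^ 3) ^ 2 * u := by gcongr
    _ = 2 * (Sc * (Sc * u ^ 7)) := by ring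
    _ ≤ 2 * (Sc * (Sc * W)) := by gcongr
    _ ≤ 2 * (m * m) := by gcongr
    _ = 2 * N := by rw [hmN]; ring

/-- One modulus, with the off-diagonal terms as hypotheses. -/
theorem one_q (ε κ C₂ C₃ : ℝ) (N₀ : ℕ) (hε : 0 < ε) (hε1 : ε ≤ 1 / 12) (hκ : κ = ε / 400)
    (hC₂ : 1 ≤ C₂)
    (hdiv : ∀ n : ℕ, 1 ≤ n → (n.divisors.card : ℝ) ≤ C₂ * (n : ℝ) ^ κ)
    (hC₃ : C₃ = 1 / κ) (hD : DiagC N₀)
    (N : ℕ) (hN3 : 3 ≤ N) (hNN : N₀ ≤ N) (u m Hr : ℝ) (hu : u = (N : ℝ) ^ κ)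
    (hmN : (N : ℝ) = m ^ 2) (hHr1 : 1 ≤ Hr) (hHr : Hr * u ^ 400 ≤ m)
    (hu1' : 1 ≤ u) (hu4 : 3200 * (80 + 3 * C₃ + 2 * C₃ ^ 2 + 72 * C₂ ^ 2) / ε ≤ u)
    (T : ℕ) (hT1 : 1 ≤ T) (hTu : (T : ℝ) ≤ u) (b : ℕ → ℝ) (hb1 : 1 ≤ b 1)
    (hb3 : κ / 4 * Real.log N ≤ b 1) (hQ : QQ b T ≤ b 1) (hBBu : BB b T ≤ u ^ 3)
    (q : ℕ) (hq1 : 1 ≤ q) (hqN : q ≤ N) (hHq : ((N / q : ℕ) : ℝ) ≤ Hr)
    (j₀ j₁ : ℕ) (hj0 : Hr * u ^ 100 ≤ 2 ^ j₀) (hj1 : (2 : ℝ) ^ j₁ ≤ Hr * u ^ 200)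
    (hA : ε / 40 ≤ AA (SS q j₀ j₁))
    (hO1 : |Off b T N q j₀ j₁ 1| ≤ N / u ^ 5) (hO2 : |Off b T N q j₀ j₁ (-1)| ≤ N / u ^ 5)
    (hS1 : |Sec b T N q j₀ j₁ 1| ≤ N / u ^ 5) (hS2 : |Sec b T N q j₀ j₁ (-1)| ≤ N / u ^ 5)
    (Y : ℝ) :
    κ / 4 * (ε / 80) / 12800 * (N * Real.log N) ≤
      ∑ a ∈ (range q).filter (fun a => a.Coprime q),
        ((∑ n ∈ (Icc 1 N).filter (fun n => n % q = a), Λ n) - Y) ^ 2 := by
  obtain ⟨X, hXdef⟩ : ∃ X : ℝ, X = (∑ a ∈ (range q).filter (fun a => a.Coprime q),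
    ∑ n ∈ (Icc 1 N).filter (fun n => n % q = a), Λ n) / (q.totient : ℝ) := ⟨_, rfl⟩
  have hcardK : (((range q).filter (fun a => a.Coprime q)).card : ℝ) = q.totient := by
    rw [Nat.totient]
    congr 2
    ext a
    simp only [mem_filter, mem_range, Nat.coprime_comm]
  have hφ : (0 : ℝ) < q.totient := by
    have : 0 < q.totient := Nat.totient_pos.2 (by omega)
    exact_mod_cast this
  refine le_trans ?_ (center_le _ _ Y X (by rw [hcardK]; exact hφ) (by rw [hcardK]; exact hXdef))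
  have hκ0 : 0 < κ := by rw [hκ]; positivity
  have hNR : (1 : ℝ) ≤ N := by
    have : 1 ≤ N := by omega
    exact_mod_cast this
  have hN0 : (0 : ℝ) < N := by linarith
  have hu0 : 0 < u := by linarith
  have hC₃1 : 1 ≤ C₃ := by
    rw [hC₃, hκ, le_div_iff₀ (by positivity)]
    linarith
  have hm1 : 1 ≤ m := by
    refine le_trans ?_ hHr
    have := one_le_pow₀ hu1' (n := 400)
    nlinarith
  have hm0 : 0 < m := by linarith
  have hHr0 : 0 ≤ Hr := by linarith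
  have hL0 : 0 ≤ Real.log N := Real.log_natCast_nonneg N
  have hL : Real.log N ≤ C₃ * u := by
    have := Real.log_le_rpow_div hN0.le hκ0
    rw [hC₃, hu]
    calc Real.log N ≤ (N : ℝ) ^ κ / κ := this
      _ = _ := by ring
  have huu100 : u ≤ u ^ 100 := by
    calc u = u ^ 1 := (pow_one u).symm
      _ ≤ u ^ 100 := pow_le_pow_right₀ hu1' (by norm_num)
  have huu400 : u ≤ u ^ 400 := by
    calc u = u ^ 1 := (pow_one u).symm
      _ ≤ u ^ 400 := pow_le_pow_right₀ hu1' (by norm_num)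
  have hum : u ≤ m := by
    refine le_trans huu400 (le_trans ?_ hHr)
    exact le_mul_of_one_le_left (by positivity) hHr1
  have hTN : T ≤ N := by
    have h1 : u ≤ N := by
      rw [hmN, pow_two]
      exact le_trans hum (le_mul_of_one_le_left hm0.le hm1)
    exact_mod_cast le_trans hTu h1
  have hTj : T ≤ 2 ^ j₀ := by
    have : (T : ℝ) ≤ 2 ^ j₀ := by
      refine le_trans hTu (le_trans huu100 (le_trans ?_ hj0))
      exact le_mul_of_one_le_left (by positivity) hHr1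
    exact_mod_cast this
  have hApos : 0 < AA (SS q j₀ j₁) := lt_of_lt_of_le (by positivity) hA
  -- X
  have hτ : (q.divisors.card : ℝ) ≤ C₂ * u := by
    refine le_trans (hdiv q hq1) ?_
    rw [hu]
    have : (q : ℝ) ≤ N := by exact_mod_cast hqN
    gcongr
  have hNHq : (N : ℝ) ≤ 2 * Hr * q := by
    have h1 : N < q * (N / q + 1) := by
      have := Nat.lt_mul_div_succ N (by omega : 0 < q)
      simpa using this
    have hHpos : 1 ≤ N / q := Nat.div_pos hqN hq1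
    have h2 : N ≤ 2 * (N / q) * q := by nlinarith
    have h3 : (N : ℝ) ≤ 2 * ((N / q : ℕ) : ℝ) * q := by exact_mod_cast h2
    refine le_trans h3 ?_
    gcongr
  have hsum_nonneg : ∀ a, 0 ≤ ∑ n ∈ (Icc 1 N).filter (fun n => n % q = a), (Λ n : ℝ) := fun a =>
    sum_nonneg fun n _ => ArithmeticFunction.vonMangoldt_nonneg
  have hX0 : 0 ≤ X := by
    rw [hXdef]
    exact div_nonneg (sum_nonneg fun a _ => hsum_nonneg a) hφ.le
  have hpsi : ∑ a ∈ (range q).filter (fun a => a.Coprime q),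
      ∑ n ∈ (Icc 1 N).filter (fun n => n % q = a), (Λ n : ℝ) ≤ 6 * N := by
    refine le_trans (sum_le_sum_of_subset_of_nonneg (filter_subset _ _)
      (fun a _ _ => hsum_nonneg a)) ?_
    rw [sum_fiberwise_of_maps_to (fun n _ => mem_range.2 (Nat.mod_lt _ (by omega)))]
    exact Off1Aux.psi_bound N
  have hX : X ≤ 12 * Hr * (C₂ * u) := by
    rw [hXdef, div_le_iff₀ hφ]
    have h1 := totient_lower q
    calc _ ≤ 6 * (N : ℝ) := hpsi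
      _ ≤ 6 * (2 * Hr * q) := by gcongr
      _ ≤ 6 * (2 * Hr * (q.divisors.card * q.totient)) := by gcongr
      _ ≤ 6 * (2 * Hr * ((C₂ * u) * q.totient)) := by gcongr
      _ = _ := by ring
  -- sizes
  have hBB0 : 0 ≤ BB b T := sum_nonneg fun _ _ => abs_nonneg _
  have hs : ((SS q j₀ j₁).card : ℝ) ≤ Hr * u ^ 200 := by
    refine le_trans ?_ hj1
    exact_mod_cast card_SS q j₀ j₁
  have hHu : Hr * u ^ 200 * u ^ 200 ≤ m := by
    refine le_trans (le_of_eq ?_) hHr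
    ring
  have hHu2 : Hr * u ^ 200 ≤ m := by
    refine le_trans ?_ hHu
    exact le_mul_of_one_le_right (by positivity) (one_le_pow₀ hu1')
  have hsm : ((SS q j₀ j₁).card : ℝ) ≤ m := le_trans hs hHu2
  have hsu : ((SS q j₀ j₁).card : ℝ) * u ^ 200 ≤ m :=
    le_trans (mul_le_mul_of_nonneg_right hs (by positivity)) hHu
  have hs0 : 0 ≤ ((SS q j₀ j₁).card : ℝ) := Nat.cast_nonneg _
  have hsqrtN : Real.sqrt N = m := by
    rw [hmN, Real.sqrt_sq hm0.le]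
  obtain ⟨W, hW⟩ : ∃ W : ℝ, W = u ^ 200 := ⟨_, rfl⟩
  rw [← hW] at hHu2 hsu
  have hW3 : u ^ 3 ≤ W := by rw [hW]; exact pow_le_pow_right₀ hu1' (by norm_num)
  have hW6 : u ^ 6 ≤ W := by rw [hW]; exact pow_le_pow_right₀ hu1' (by norm_num)
  have hW7 : u ^ 7 ≤ W := by rw [hW]; exact pow_le_pow_right₀ hu1' (by norm_num)
  have hW0 : 0 ≤ W := by rw [hW]; positivity
  clear hW hHu hHr hj0 hj1 hs huu100 huu400
  have huu : u ≤ u ^ 2 := by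
    rw [pow_two]
    exact le_mul_of_one_le_right hu0.le hu1'
  -- term a
  have ha : ((SS q j₀ j₁).card : ℝ) * BB b T *
        (6 * T + 2 * Real.sqrt N * Real.log N + (SS q j₀ j₁).card * Real.log N
          + 2 * Real.log N ^ 2) * u ≤ (6 + 3 * C₃ + 2 * C₃ ^ 2) * N := by
    rw [hsqrtN]
    exact sz_a _ _ _ _ u m C₃ W N hs0 hsm hsu hBB0 hBBu (Nat.cast_nonneg _) hTu hL0 hL hu1' hm1
      hC₃1 hW6 hmN
  have hNu5 : (N : ℝ) / u ^ 5 * u ≤ N := by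
    rw [div_mul_eq_mul_div, div_le_iff₀ (by positivity)]
    have : u ≤ u ^ 5 := by
      calc u = u ^ 1 := (pow_one u).symm
        _ ≤ u ^ 5 := pow_le_pow_right₀ hu1' (by norm_num)
    gcongr
  -- term c
  have hc : X * (6 * BB b T * (SS q j₀ j₁).card * q.divisors.card) * u ≤ 72 * C₂ ^ 2 * N :=
    sz_c _ _ X Hr _ u m C₂ W N hs0 hsu hBB0 hBBu hX0 hX hHr0 (Nat.cast_nonneg _) hτ hHu2 hu1' hm1
      hC₂ hW3 hmN
  have hd : 2 * ((SS q j₀ j₁).card : ℝ) ^ 2 * BB b T ^ 2 * u ≤ 2 * N :=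
    sz_d _ _ u m W N hs0 hsm hsu hBB0 hBBu hu1' hm1 hW7 hmN
  have hbig := (div_le_iff₀ hε).1 hu4
  -- e1
  have he1 : ((SS q j₀ j₁).card : ℝ) * BB b T *
        (6 * T + 2 * Real.sqrt N * Real.log N + (SS q j₀ j₁).card * Real.log N
          + 2 * Real.log N ^ 2) + |Off b T N q j₀ j₁ 1| + |Off b T N q j₀ j₁ (-1)| +
        X * (6 * BB b T * (SS q j₀ j₁).card * q.divisors.card) ≤
        AA (SS q j₀ j₁) * b 1 * (N / 80) := by
    have h2 : (((SS q j₀ j₁).card : ℝ) * BB b T *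
        (6 * T + 2 * Real.sqrt N * Real.log N + (SS q j₀ j₁).card * Real.log N
          + 2 * Real.log N ^ 2) + |Off b T N q j₀ j₁ 1| + |Off b T N q j₀ j₁ (-1)| +
        X * (6 * BB b T * (SS q j₀ j₁).card * q.divisors.card)) * u ≤ (u * ε / 3200) * N := by
      have h3 : |Off b T N q j₀ j₁ 1| * u ≤ N := le_trans (by gcongr) hNu5
      have h4 : |Off b T N q j₀ j₁ (-1)| * u ≤ N := le_trans (by gcongr) hNu5
      have h5 : (8 + 3 * C₃ + 2 * C₃ ^ 2 + 72 * C₂ ^ 2) * (N : ℝ) ≤ (u * ε / 3200) * N := by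
        gcongr
        linarith
      rw [add_mul, add_mul, add_mul]
      linarith
    have h3 : ((SS q j₀ j₁).card : ℝ) * BB b T *
        (6 * T + 2 * Real.sqrt N * Real.log N + (SS q j₀ j₁).card * Real.log N
          + 2 * Real.log N ^ 2) + |Off b T N q j₀ j₁ 1| + |Off b T N q j₀ j₁ (-1)| +
        X * (6 * BB b T * (SS q j₀ j₁).card * q.divisors.card) ≤ ε / 3200 * N := by
      refine le_of_mul_le_mul_right ?_ hu0
      calc _ ≤ (u * ε / 3200) * N := h2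
        _ = _ := by ring
    have h4 : ε / 40 * 1 * ((N : ℝ) / 80) ≤ AA (SS q j₀ j₁) * b 1 * (N / 80) := by gcongr
    calc _ ≤ ε / 3200 * N := h3
      _ = ε / 40 * 1 * ((N : ℝ) / 80) := by ring
      _ ≤ _ := h4
  have he2 : 2 * ((SS q j₀ j₁).card : ℝ) ^ 2 * BB b T ^ 2 + |Sec b T N q j₀ j₁ 1| +
      |Sec b T N q j₀ j₁ (-1)| ≤ N * b 1 * (AA (SS q j₀ j₁) + AA (SS q j₀ j₁) ^ 2) := by
    have h2 : (2 * ((SS q j₀ j₁).card : ℝ) ^ 2 * BB b T ^ 2 + |Sec b T N q j₀ j₁ 1| +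
      |Sec b T N q j₀ j₁ (-1)|) * u ≤ (u * ε / 40) * N := by
      have h3 : |Sec b T N q j₀ j₁ 1| * u ≤ N := le_trans (by gcongr) hNu5
      have h4 : |Sec b T N q j₀ j₁ (-1)| * u ≤ N := le_trans (by gcongr) hNu5
      have h5 : (4 : ℝ) * (N : ℝ) ≤ (u * ε / 40) * N := by
        have h6 : 0 ≤ C₃ := by linarith
        have h7 : 0 ≤ C₂ := by linarith
        have h8 : (0 : ℝ) ≤ 3 * C₃ + 2 * C₃ ^ 2 + 72 * C₂ ^ 2 := by positivity
        gcongr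
        linarith
      rw [add_mul, add_mul]
      linarith
    have h3 : 2 * ((SS q j₀ j₁).card : ℝ) ^ 2 * BB b T ^ 2 + |Sec b T N q j₀ j₁ 1| +
      |Sec b T N q j₀ j₁ (-1)| ≤ ε / 40 * N := by
      refine le_of_mul_le_mul_right ?_ hu0
      calc _ ≤ (u * ε / 40) * N := h2
        _ = _ := by ring
    have h4 : (N : ℝ) * 1 * (ε / 40 + 0) ≤ N * b 1 * (AA (SS q j₀ j₁) + AA (SS q j₀ j₁) ^ 2) := by
      gcongr
      positivity
    calc _ ≤ ε / 40 * N := h3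
      _ = (N : ℝ) * 1 * (ε / 40 + 0) := by ring
      _ ≤ _ := h4
  have hnum := numer2 N₀ hD b T N q j₀ j₁ X hX0 (by linarith) hN3 hNN hT1 hTN hq1 hqN hTj
  have hfin := cauchy3 b T N q j₀ j₁ X _ hb1 hQ hN3 hq1 hTj hApos hnum he1 he2
  refine le_trans ?_ hfin
  have hAA : ε / 80 ≤ AA (SS q j₀ j₁) / (1 + AA (SS q j₀ j₁)) := by
    rw [le_div_iff₀ (by positivity)]
    nlinarith
  calc κ / 4 * (ε / 80) / 12800 * (N * Real.log N) = N * (κ / 4 * Real.log N) * (ε / 80) / 12800 := by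
        ring
    _ ≤ N * b 1 * (AA (SS q j₀ j₁) / (1 + AA (SS q j₀ j₁))) / 12800 := by
        have h0 : 0 ≤ κ / 4 * Real.log N := by positivity
        gcongr

/-- existence of the block range -/
theorem block_range2 (J₀ : ℕ)
    (hrec : ∀ j₀ j₁ : ℕ, J₀ ≤ j₀ → j₀ + 1 ≤ j₁ →
      ((j₁ : ℝ) - 1 - j₀) / (8 * ((j₁ : ℝ) + 1)) ≤ ∑ j ∈ Ico j₀ j₁, ∑ s ∈ PR (2 ^ j), (1 : ℝ) / s)
    (ε H u : ℝ) (N : ℕ) (hε : 0 < ε) (hε1 : ε ≤ 1 / 12) (hH1 : 1 ≤ H) (hu : 1 ≤ u)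
    (hlog : Real.log u = ε / 400 * Real.log N)
    (hH3 : (H * u ^ 200) ^ 2 ≤ N)
    (hJu : (2 : ℝ) ^ J₀ ≤ u ^ 100)
    (hbig : 70 * Real.log 2 / ε ≤ Real.log N) :
    ∃ j₀ j₁ : ℕ, J₀ ≤ j₀ ∧ H * u ^ 100 ≤ 2 ^ j₀ ∧ (2 : ℝ) ^ j₁ ≤ H * u ^ 200 ∧
      ε / 20 ≤ ∑ j ∈ Ico j₀ j₁, ∑ s ∈ PR (2 ^ j), (1 : ℝ) / s := by
  have hu0 : 0 < u := by linarith
  have hlog2 : 0 < Real.log 2 := Real.log_pos (by norm_num)
  have hX1 : 1 ≤ H * u ^ 100 := by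
    have := one_le_pow₀ hu (n := 100)
    nlinarith
  have hX2 : 1 ≤ H * u ^ 200 := by
    have := one_le_pow₀ hu (n := 200)
    nlinarith
  obtain ⟨j₀, hj0a, hj0b⟩ : ∃ j₀ : ℕ, H * u ^ 100 ≤ 2 ^ j₀ ∧ (2 : ℝ) ^ j₀ ≤ 2 * (H * u ^ 100) := by
    obtain ⟨n, hn1, hn2⟩ := exists_nat_pow_near hX1 (by norm_num : (1 : ℝ) < 2)
    exact ⟨n + 1, hn2.le, by rw [pow_succ (2 : ℝ) n]; linarith⟩
  obtain ⟨j₁, hj1a, hj1b⟩ : ∃ j₁ : ℕ, (2 : ℝ) ^ j₁ ≤ H * u ^ 200 ∧ H * u ^ 200 ≤ 2 * 2 ^ j₁ := by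
    obtain ⟨n, hn1, hn2⟩ := exists_nat_pow_near hX2 (by norm_num : (1 : ℝ) < 2)
    exact ⟨n, hn1, by rw [pow_succ (2 : ℝ) n] at hn2; linarith⟩
  have hNpos : (0 : ℝ) < N := lt_of_lt_of_le (by positivity) hH3
  have l0 : (j₀ : ℝ) * Real.log 2 ≤ Real.log 2 + (Real.log H + 100 * Real.log u) := by
    have := Real.log_le_log (by positivity) hj0b
    rw [Real.log_pow, Real.log_mul (x := 2) (by norm_num) (by positivity),
      Real.log_mul (x := H) (by positivity) (by positivity), Real.log_pow] at this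
    push_cast at this
    linarith
  have l1 : Real.log H + 200 * Real.log u ≤ Real.log 2 + (j₁ : ℝ) * Real.log 2 := by
    have := Real.log_le_log (by positivity) hj1b
    rw [Real.log_mul (x := H) (by positivity) (by positivity), Real.log_pow,
      Real.log_mul (x := 2) (by norm_num) (by positivity), Real.log_pow] at this
    push_cast at this
    linarith
  have l2 : (j₁ : ℝ) * Real.log 2 ≤ Real.log N / 2 := by
    have h1 : ((2 : ℝ) ^ j₁) ^ 2 ≤ N := le_trans (by gcongr) hH3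
    have := Real.log_le_log (by positivity) h1
    rw [Real.log_pow, Real.log_pow] at this
    push_cast at this
    linarith
  set L := Real.log N with hL
  have hLbig : 70 * Real.log 2 ≤ ε * L := by
    rw [div_le_iff₀ hε] at hbig
    linarith
  have hdiff : (j₀ : ℝ) * Real.log 2 + ε / 4 * L ≤ (j₁ : ℝ) * Real.log 2 + 2 * Real.log 2 := by
    rw [hlog] at l0 l1
    linarith
  have hdiff2 : (j₀ : ℝ) + 5 ≤ j₁ := by
    have : ((j₀ : ℝ) + 5) * Real.log 2 ≤ j₁ * Real.log 2 := by nlinarith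
    exact le_of_mul_le_mul_right this hlog2
  have hj01 : j₀ + 1 ≤ j₁ := by
    have : (j₀ : ℝ) + 1 ≤ j₁ := by linarith
    exact_mod_cast this
  have hJ : J₀ ≤ j₀ := by
    have h1 : (2 : ℝ) ^ J₀ ≤ 2 ^ j₀ := by
      refine le_trans hJu (le_trans ?_ hj0a)
      exact le_mul_of_one_le_left (by positivity) hH1
    exact (pow_le_pow_iff_right₀ (by norm_num : (1 : ℝ) < 2)).1 h1
  refine ⟨j₀, j₁, hJ, hj0a, hj1a, le_trans ?_ (hrec j₀ j₁ hJ hj01)⟩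
  rw [le_div_iff₀ (by positivity)]
  have key : (ε / 20 * (8 * ((j₁ : ℝ) + 1))) * Real.log 2 ≤ ((j₁ : ℝ) - 1 - j₀) * Real.log 2 := by
    have e1 : (ε / 20 * (8 * ((j₁ : ℝ) + 1))) * Real.log 2 = 2 * ε / 5 * (j₁ * Real.log 2)
        + 2 * ε / 5 * Real.log 2 := by ring
    have e2 : 2 * ε / 5 * (j₁ * Real.log 2) ≤ 2 * ε / 5 * (L / 2) := by gcongr
    have e3 : 2 * ε / 5 * Real.log 2 ≤ 2 / 5 * Real.log 2 := by nlinarith
    nlinarith
  exact le_of_mul_le_mul_right key hlog2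

/-- the set of the bad moduli in a finite set -/
def Bad (N : ℕ) (t : ℝ) (q : ℕ) : Prop :=
  ∃ Y : ℝ, ∑ a ∈ (range q).filter (fun a => a.Coprime q),
        ((∑ n ∈ (Icc 1 N).filter (fun n => n % q = a), Λ n) - Y) ^ 2 < t

/-- One dyadic block. -/
theorem one_block (ε κ C₂ C₃ : ℝ) (N₀ J₀ : ℕ) (hε : 0 < ε) (hε1 : ε ≤ 1 / 12) (hκ : κ = ε / 400)
    (hC₂ : 1 ≤ C₂)
    (hdiv : ∀ n : ℕ, 1 ≤ n → (n.divisors.card : ℝ) ≤ C₂ * (n : ℝ) ^ κ)
    (hC₃ : C₃ = 1 / κ) (hD : DiagC N₀)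
    (hrec : ∀ j₀ j₁ : ℕ, J₀ ≤ j₀ → j₀ + 1 ≤ j₁ →
      ((j₁ : ℝ) - 1 - j₀) / (8 * ((j₁ : ℝ) + 1)) ≤ ∑ j ∈ Ico j₀ j₁, ∑ s ∈ PR (2 ^ j), (1 : ℝ) / s)
    (N : ℕ) (hN3 : 3 ≤ N) (hNN : N₀ ≤ N) (u : ℝ) (hu : u = (N : ℝ) ^ κ)
    (hu4 : 4 ≤ u) (huJ : (2 : ℝ) ^ J₀ ≤ u) (huL : 70 * Real.log 2 / ε ≤ Real.log N)
    (hu1 : 3200 * (80 + 3 * C₃ + 2 * C₃ ^ 2 + 72 * C₂ ^ 2) / ε ≤ u)
    (hu3 : 80 * C₃ / ε ≤ u) (hu5 : 20000 * C₃ ^ 4 ≤ u)
    (Q : ℕ) (hQ1 : 1 ≤ Q) (hQN : Q ≤ N) (hQQ : (N : ℝ) ^ ((1 : ℝ) / 2 + ε) ≤ Q)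
    (I : Finset ℕ) (hI : ∀ q ∈ I, Q < q ∧ q ≤ 2 * Q ∧ q ≤ N)
    (hbad : ∀ q ∈ I, Bad N (κ / 4 * (ε / 80) / 12800 * (N * Real.log N)) q) :
    (I.card : ℝ) * u ≤ Q := by
  have hκ0 : 0 < κ := by rw [hκ]; positivity
  have hNR : (1 : ℝ) ≤ N := by
    have : 1 ≤ N := by omega
    exact_mod_cast this
  have hN0 : (0 : ℝ) < N := by linarith
  have hQR : (1 : ℝ) ≤ Q := by exact_mod_cast hQ1
  have hQ0 : (0 : ℝ) < Q := by linarith
  have hu0 : 1 ≤ u := by linarith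
  have hupos : 0 < u := by linarith
  have hC₃1 : 1 ≤ C₃ := by
    rw [hC₃, hκ, le_div_iff₀ (by positivity)]
    linarith
  set m : ℝ := Real.sqrt N with hm
  have hmN : (N : ℝ) = m ^ 2 := by rw [hm, Real.sq_sqrt hN0.le]
  have hm1 : 1 ≤ m := by rw [hm]; exact Real.one_le_sqrt.2 hNR
  have hm0 : 0 < m := by linarith
  set Hr : ℝ := (N : ℝ) / Q with hHrdef
  have hHr1 : 1 ≤ Hr := by
    rw [hHrdef, le_div_iff₀ hQ0, one_mul]
    exact_mod_cast hQN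
  have hHr0 : 0 < Hr := by linarith
  have hHr : Hr * u ^ 400 ≤ m := by
    have hu400 : u ^ 400 = (N : ℝ) ^ ε := by
      rw [hu, ← Real.rpow_natCast, ← Real.rpow_mul hN0.le, hκ]
      congr 1
      push_cast; ring
    rw [hu400, hHrdef, div_mul_eq_mul_div, div_le_iff₀ hQ0, hm, Real.sqrt_eq_rpow]
    have h2 : (N : ℝ) ^ ((1 : ℝ) / 2 + ε) = (N : ℝ) ^ ((1 : ℝ) / 2) * (N : ℝ) ^ ε :=
      Real.rpow_add hN0 _ _
    have h3 : (N : ℝ) = (N : ℝ) ^ ((1 : ℝ) / 2) * (N : ℝ) ^ ((1 : ℝ) / 2) := by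
      rw [← Real.rpow_add hN0]; norm_num
    have h4 : (0 : ℝ) < (N : ℝ) ^ ((1 : ℝ) / 2) := by positivity
    calc (N : ℝ) * (N : ℝ) ^ ε = ((N : ℝ) ^ ((1 : ℝ) / 2) * (N : ℝ) ^ ((1 : ℝ) / 2)) * (N : ℝ) ^ ε := by
          rw [← h3]
      _ = (N : ℝ) ^ ((1 : ℝ) / 2) * ((N : ℝ) ^ ((1 : ℝ) / 2) * (N : ℝ) ^ ε) := by ring
      _ ≤ (N : ℝ) ^ ((1 : ℝ) / 2) * Q := by
          rw [← h2]
          gcongr
  have hu200 : 1 ≤ u ^ 200 := one_le_pow₀ hu0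
  have hHu2 : Hr * u ^ 200 ≤ m := by
    refine le_trans ?_ hHr
    have h1 : u ^ 200 ≤ u ^ 400 := pow_le_pow_right₀ hu0 (by norm_num)
    gcongr
  have hH3 : (Hr * u ^ 200) ^ 2 ≤ (N : ℝ) := by
    rw [hmN]
    gcongr
  have hlogu : Real.log u = ε / 400 * Real.log N := by
    rw [hu, Real.log_rpow hN0, hκ]
  have huu100 : u ≤ u ^ 100 := by
    calc u = u ^ 1 := (pow_one u).symm
      _ ≤ u ^ 100 := pow_le_pow_right₀ hu0 (by norm_num)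
  obtain ⟨j₀, j₁, hJj, hj0, hj1, hA0⟩ := block_range2 J₀ hrec ε Hr u N hε hε1 hHr1
    hu0 hlogu hH3 (le_trans huJ huu100) huL
  have hL0 : 0 ≤ Real.log N := Real.log_natCast_nonneg N
  have hL : Real.log N ≤ C₃ * u := by
    have := Real.log_le_rpow_div hN0.le hκ0
    rw [hC₃, hu]
    calc Real.log N ≤ (N : ℝ) ^ κ / κ := this
      _ = _ := by ring
  have hlog2 : (1 : ℝ) / 2 ≤ Real.log 2 := by
    have := Real.log_two_gt_d9
    linarith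
  have hj1N : (2 : ℝ) ^ j₁ ≤ m := le_trans hj1 hHu2
  -- T and b
  set T : ℕ := ⌊u⌋₊ with hTdef
  have hTu : (T : ℝ) ≤ u := Nat.floor_le (by linarith)
  have hT1 : 1 ≤ T := by
    rw [hTdef]
    exact Nat.le_floor (by push_cast; linarith)
  have huN : u ≤ N := by
    have h1 : u ≤ u ^ 400 := by
      calc u = u ^ 1 := (pow_one u).symm
        _ ≤ u ^ 400 := pow_le_pow_right₀ hu0 (by norm_num)
    have h2 : u ≤ m := by
      refine le_trans h1 (le_trans ?_ hHr)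
      exact le_mul_of_one_le_left (by positivity) hHr1
    rw [hmN, pow_two]
    exact le_trans h2 (le_mul_of_one_le_left hm0.le hm1)
  have hTN : T ≤ N := by exact_mod_cast le_trans hTu huN
  obtain ⟨b, hb1, hb2, hQ, hBB⟩ := selberg_weights T hT1
  have hBBu : BB b T ≤ u ^ 3 := le_trans hBB (by gcongr)
  have hBB0 : 0 ≤ BB b T := sum_nonneg fun _ _ => abs_nonneg _
  have hb3 : κ / 4 * Real.log N ≤ b 1 := by
    have h1 : u / 2 ≤ T := by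
      have := Nat.lt_floor_add_one u
      rw [← hTdef] at this
      linarith
    have h2 : Real.log (u / 2) ≤ Real.log T := Real.log_le_log (by positivity) h1
    rw [Real.log_div (by positivity) (by norm_num)] at h2
    have h3 : 2 * Real.log 2 ≤ Real.log u := by
      have := Real.log_le_log (by norm_num) hu4
      rw [show (4 : ℝ) = 2 ^ 2 by norm_num, Real.log_pow] at this
      push_cast at this
      exact this
    have h4 : κ * Real.log N = Real.log u := by rw [hlogu, hκ]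
    linarith
  have hjc : ∀ j < j₁, (2 ^ j) ^ 2 ≤ N := by
    intro j hj
    have h1 : ((2 : ℝ) ^ j) ^ 2 ≤ N := by
      have h2 : (2 : ℝ) ^ j ≤ 2 ^ j₁ := pow_le_pow_right₀ (by norm_num) hj.le
      have h3 : (2 : ℝ) ^ j ≤ m := le_trans h2 hj1N
      calc ((2 : ℝ) ^ j) ^ 2 ≤ m ^ 2 := by gcongr
        _ = (N : ℝ) := hmN.symm
    exact_mod_cast h1
  have hNQ : N ≤ Q * 2 ^ j₀ := by
    have h1 : (N : ℝ) ≤ Q * 2 ^ j₀ := by
      have h2 : Hr ≤ 2 ^ j₀ := by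
        refine le_trans ?_ hj0
        exact le_mul_of_one_le_right hHr0.le (one_le_pow₀ hu0)
      rw [hHrdef, div_le_iff₀ hQ0] at h2
      linarith
    exact_mod_cast h1
  -- A for each q
  have hA : ∀ q ∈ I, ε / 40 ≤ AA (SS q j₀ j₁) := by
    intro q hqI
    obtain ⟨hq1, hq2, hq3⟩ := hI q hqI
    have h1 := AA_lower q j₀ j₁ (by omega) (ε / 20) hA0
    have h2 : (Nat.log 2 q : ℝ) / 2 ^ j₀ ≤ ε / 40 := by
      have hlogq : (Nat.log 2 q : ℝ) ≤ 2 * C₃ * u := by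
        have h1 : (2 : ℝ) ^ (Nat.log 2 q) ≤ N := by
          have : 2 ^ Nat.log 2 q ≤ N := le_trans (Nat.pow_log_le_self 2 (by omega)) hq3
          exact_mod_cast this
        have h2 := Real.log_le_log (by positivity) h1
        rw [Real.log_pow] at h2
        have h3 : (Nat.log 2 q : ℝ) * (1 / 2) ≤ Nat.log 2 q * Real.log 2 := by gcongr
        linarith
      have h3 : u * u ≤ 2 ^ j₀ := by
        calc u * u = u ^ 2 := by ring
          _ ≤ u ^ 100 := pow_le_pow_right₀ hu0 (by norm_num)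
          _ ≤ Hr * u ^ 100 := le_mul_of_one_le_left (by positivity) hHr1
          _ ≤ 2 ^ j₀ := hj0
      have huε : 80 * C₃ ≤ u * ε := (div_le_iff₀ hε).1 hu3
      rw [div_le_iff₀ (by positivity)]
      calc (Nat.log 2 q : ℝ) ≤ 2 * C₃ * u := hlogq
        _ = (80 * C₃) * u / 40 := by ring
        _ ≤ (u * ε) * u / 40 := by gcongr
        _ = ε / 40 * (u * u) := by ring
        _ ≤ ε / 40 * 2 ^ j₀ := by gcongr
    linarith
  -- each q is bad for one of the four quantities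
  have hfour : ∀ q ∈ I, (N : ℝ) / u ^ 5 ≤ |Off b T N q j₀ j₁ 1| + |Off b T N q j₀ j₁ (-1)| +
      (|Sec b T N q j₀ j₁ 1| + |Sec b T N q j₀ j₁ (-1)|) := by
    intro q hqI
    obtain ⟨hq1, hq2, hq3⟩ := hI q hqI
    by_contra hcon
    push Not at hcon
    have a1 := abs_nonneg (Off b T N q j₀ j₁ 1)
    have a2 := abs_nonneg (Off b T N q j₀ j₁ (-1))
    have a3 := abs_nonneg (Sec b T N q j₀ j₁ 1)
    have a4 := abs_nonneg (Sec b T N q j₀ j₁ (-1))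
    have hHq : ((N / q : ℕ) : ℝ) ≤ Hr := by
      refine le_trans Nat.cast_div_le ?_
      rw [hHrdef]
      have : (Q : ℝ) ≤ q := by exact_mod_cast hq1.le
      exact div_le_div_of_nonneg_left hN0.le hQ0 this
    obtain ⟨Y, hY⟩ := hbad q hqI
    have := one_q ε κ C₂ C₃ N₀ hε hε1 hκ hC₂ hdiv hC₃ hD N hN3 hNN u m Hr hu hmN hHr1 hHr hu0
      hu1 T hT1 hTu b hb1 hb3 hQ hBBu q (by omega) hq3 hHq j₀ j₁ hj0 hj1 (hA q hqI)
      (by linarith) (by linarith) (by linarith) (by linarith) Y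
    linarith
  have hsum := sum_le_sum hfour
  rw [sum_const, nsmul_eq_mul, sum_add_distrib, sum_add_distrib, sum_add_distrib] at hsum
  have o1 := avg_off_SS b T N Q j₀ j₁ hN3 hT1 hTN hQ1 hjc hNQ 1 (Or.inl rfl) I hI
  have o2 := avg_off_SS b T N Q j₀ j₁ hN3 hT1 hTN hQ1 hjc hNQ (-1) (Or.inr rfl) I hI
  have s1 := avg_second b T N Q j₀ j₁ hN3 hT1 hTN hQ1 hjc 1 (Or.inl rfl) I hI
  have s2 := avg_second b T N Q j₀ j₁ hN3 hT1 hTN hQ1 hjc (-1) (Or.inr rfl) I hI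
  have hsum2 : (I.card : ℝ) * (N / u ^ 5) ≤
      2 * (72 * BB b T * (1 + Real.log N) ^ 4 * (N ^ 2 / 2 ^ j₀)) +
      2 * (400 * BB b T ^ 2 * (1 + Real.log N) ^ 4 * (N ^ 2 / 2 ^ j₀)) := by
    refine le_trans hsum ?_
    unfold Off Sec
    linarith
  have hlog1 : 1 + Real.log N ≤ 2 * (C₃ * u) := by
    have : 1 ≤ C₃ * u := one_le_mul_of_one_le_of_one_le hC₃1 hu0
    linarith
  have hBBs : BB b T ≤ u ^ 6 := by
    refine le_trans hBBu (pow_le_pow_right₀ hu0 (by norm_num))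
  have hBBs2 : BB b T ^ 2 ≤ u ^ 6 := by
    calc BB b T ^ 2 ≤ (u ^ 3) ^ 2 := by gcongr
      _ = u ^ 6 := by ring
  have h2j : (N : ℝ) ^ 2 / 2 ^ j₀ ≤ N * Q / u ^ 100 := by
    rw [div_le_div_iff₀ (by positivity) (by positivity)]
    have h1 : (N : ℝ) * u ^ 100 ≤ Q * 2 ^ j₀ := by
      have h2 := hj0
      rw [hHrdef, div_mul_eq_mul_div, div_le_iff₀ hQ0] at h2
      linarith
    calc (N : ℝ) ^ 2 * u ^ 100 = (N : ℝ) * ((N : ℝ) * u ^ 100) := by ring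
      _ ≤ (N : ℝ) * ((Q : ℝ) * 2 ^ j₀) := by gcongr
      _ = (N : ℝ) * Q * 2 ^ j₀ := by ring
  have hsum3 : (I.card : ℝ) * (N / u ^ 5) ≤ 16000 * C₃ ^ 4 * (u ^ 10 * (N * Q / u ^ 100)) := by
    refine le_trans hsum2 ?_
    have hX0 : 0 ≤ (N : ℝ) ^ 2 / 2 ^ j₀ := by positivity
    have hl0 : 0 ≤ 1 + Real.log N := by linarith
    generalize (N : ℝ) ^ 2 / 2 ^ j₀ = XX at h2j hX0 ⊢
    generalize (N : ℝ) * Q / u ^ 100 = ZZ at h2j ⊢
    have hZ0 : 0 ≤ ZZ := le_trans hX0 h2j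
    calc 2 * (72 * BB b T * (1 + Real.log N) ^ 4 * XX) +
      2 * (400 * BB b T ^ 2 * (1 + Real.log N) ^ 4 * XX) ≤
      2 * (72 * u ^ 6 * (2 * (C₃ * u)) ^ 4 * ZZ) +
      2 * (400 * u ^ 6 * (2 * (C₃ * u)) ^ 4 * ZZ) := by gcongr
      _ = 15104 * C₃ ^ 4 * (u ^ 10 * ZZ) := by ring
      _ ≤ 16000 * C₃ ^ 4 * (u ^ 10 * ZZ) := by
        gcongr
        norm_num
  -- conclusion
  have hC4 : 0 ≤ C₃ ^ 4 := by positivity
  have hP17 : u ^ 17 ≤ u ^ 100 := pow_le_pow_right₀ hu0 (by norm_num)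
  have hP0 : 0 < u ^ 100 := by positivity
  generalize u ^ 100 = P at hsum3 hP17 hP0
  have hNQ0 : 0 ≤ (N : ℝ) * Q := by positivity
  have hu16 : 16000 * C₃ ^ 4 ≤ u := by linarith
  have hfin : (I.card : ℝ) * u * N ≤ Q * N := by
    have h5 : (N : ℝ) / u ^ 5 * u ^ 5 = N := div_mul_cancel₀ _ (pow_ne_zero 5 hupos.ne')
    have e1 : (I.card : ℝ) * u * N = (I.card : ℝ) * (N / u ^ 5) * u ^ 6 := by
      calc (I.card : ℝ) * u * N = (I.card : ℝ) * u * ((N : ℝ) / u ^ 5 * u ^ 5) := by rw [h5]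
        _ = _ := by ring
    have e2 : (I.card : ℝ) * (N / u ^ 5) * u ^ 6 ≤
        (16000 * C₃ ^ 4 * (u ^ 10 * (N * Q / P))) * u ^ 6 :=
      mul_le_mul_of_nonneg_right hsum3 (by positivity)
    have e3 : (16000 * C₃ ^ 4 * (u ^ 10 * ((N : ℝ) * Q / P))) * u ^ 6 =
        (16000 * C₃ ^ 4) * ((u ^ 16 / P) * ((N : ℝ) * Q)) := by ring
    have e4 : (16000 * C₃ ^ 4) * ((u ^ 16 / P) * ((N : ℝ) * Q)) ≤
        u * ((u ^ 16 / P) * ((N : ℝ) * Q)) :=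
      mul_le_mul_of_nonneg_right hu16 (by positivity)
    have e5 : u * ((u ^ 16 / P) * ((N : ℝ) * Q)) = (u ^ 17 / P) * ((N : ℝ) * Q) := by ring
    have e6 : (u ^ 17 / P) * ((N : ℝ) * Q) ≤ 1 * ((N : ℝ) * Q) :=
      mul_le_mul_of_nonneg_right ((div_le_one hP0).2 hP17) hNQ0
    linarith
  exact le_of_mul_le_mul_right hfin hN0

open Classical in
/-- the bad moduli up to `M` -/
def BadSet (N : ℕ) (t : ℝ) (M : ℕ) : Finset ℕ := (Icc 1 M).filter (Bad N t)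

theorem bad_count (N : ℕ) (t u E : ℝ) (hu : 0 < u) (hE : 1 ≤ E)
    (hblock : ∀ Q : ℕ, 1 ≤ Q → Q ≤ N → E ≤ (Q : ℝ) → ∀ I : Finset ℕ,
      (∀ q ∈ I, Q < q ∧ q ≤ 2 * Q ∧ q ≤ N) → (∀ q ∈ I, Bad N t q) → (I.card : ℝ) * u ≤ Q)
    (M : ℕ) (hM : M ≤ N) : ((BadSet N t M).card : ℝ) ≤ 2 * E + 3 * M / u := by
  classical
  induction M using Nat.strong_induction_on with
  | _ M ih =>
    by_cases hsmall : (M : ℝ) ≤ 2 * E
    · have h1 : ((BadSet N t M).card : ℝ) ≤ M := by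
        have : (BadSet N t M).card ≤ M := by
          refine le_trans (card_filter_le _ _) ?_
          simp
        exact_mod_cast this
      have h2 : 0 ≤ 3 * (M : ℝ) / u := by positivity
      linarith
    · push Not at hsmall
      have hM2 : (2 : ℝ) < M := by linarith
      have hM2' : 2 < M := by exact_mod_cast hM2
      set M' := (M + 1) / 2 with hM'
      have hlt : M' < M := by omega
      have hM'N : M' ≤ N := by omega
      have hM'1 : 1 ≤ M' := by omega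
      have hEM : E ≤ (M' : ℝ) := by
        have h3 : M ≤ 2 * M' := by omega
        have h4 : (M : ℝ) ≤ 2 * M' := by exact_mod_cast h3
        linarith
      have ih' := ih M' hlt hM'N
      set I := (BadSet N t M).filter (fun q => M' < q) with hI
      have hIc := hblock M' hM'1 hM'N hEM I (by
        intro q hq
        rw [hI, mem_filter, BadSet, mem_filter, mem_Icc] at hq
        obtain ⟨⟨⟨h1, h2⟩, h3⟩, h4⟩ := hq
        exact ⟨h4, by omega, by omega⟩) (by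
        intro q hq
        rw [hI, mem_filter, BadSet, mem_filter] at hq
        exact hq.1.2)
      have hsub : BadSet N t M ⊆ BadSet N t M' ∪ I := by
        intro q hq
        rw [mem_union]
        by_cases h1 : M' < q
        · right
          rw [hI, mem_filter]
          exact ⟨hq, h1⟩
        · left
          rw [BadSet, mem_filter, mem_Icc] at hq ⊢
          exact ⟨⟨hq.1.1, by omega⟩, hq.2⟩
      have hcard : ((BadSet N t M).card : ℝ) ≤ (BadSet N t M').card + I.card := by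
        exact_mod_cast le_trans (card_le_card hsub) (card_union_le _ _)
      have hI2 : (I.card : ℝ) ≤ M' / u := by
        rw [le_div_iff₀ hu]
        exact hIc
      have h5 : 3 * (M' : ℝ) / u + M' / u ≤ 3 * M / u := by
        rw [← add_div]
        have h6 : 4 * M' ≤ 3 * M := by omega
        have h7 : 4 * (M' : ℝ) ≤ 3 * M := by exact_mod_cast h6
        gcongr
        linarith
      linarith

theorem almost_small (ε : ℝ) (hε : 0 < ε) (hε1 : ε ≤ 1 / 12) :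
    ∃ c : ℝ, 0 < c ∧ ∃ δ : ℝ, 0 < δ ∧ ∃ x₀ : ℝ, ∀ x : ℝ, x₀ ≤ x → ∀ Q : ℝ,
      x ^ ((1 : ℝ) / 2 + ε) ≤ Q → Q ≤ x →
      (Set.ncard {q : ℕ | 1 ≤ q ∧ (q : ℝ) ≤ Q ∧ ∃ Y : ℝ,
        ∑ a ∈ (range q).filter (fun a => a.Coprime q),
          ((∑ n ∈ (Icc 1 ⌊x⌋₊).filter (fun n => n % q = a), Λ n) - Y) ^ 2 < c * x * Real.log x} : ℝ)
        ≤ Q * x ^ (-δ) := by
  obtain ⟨η, hη⟩ : ∃ η : ℝ, η = ε / 4 := ⟨_, rfl⟩
  have hη0 : 0 < η := by rw [hη]; positivity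
  have hη1 : η ≤ 1 / 12 := by rw [hη]; linarith
  obtain ⟨κ, hκ⟩ : ∃ κ : ℝ, κ = η / 400 := ⟨_, rfl⟩
  have hκ0 : 0 < κ := by rw [hκ]; positivity
  obtain ⟨C₂, hC₂, hdiv⟩ := divisor_bound κ hκ0
  obtain ⟨N₀, hN₀⟩ := diag_term
  obtain ⟨J₀, hJ₀, hrec⟩ := recip_blocks
  obtain ⟨C₃, hC₃⟩ : ∃ C₃ : ℝ, C₃ = 1 / κ := ⟨_, rfl⟩
  have hfl : Filter.Tendsto (fun x : ℝ => ((⌊x⌋₊ : ℕ) : ℝ)) Filter.atTop Filter.atTop :=
    tendsto_natCast_atTop_atTop.comp tendsto_nat_floor_atTop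
  have hpow : Filter.Tendsto (fun x : ℝ => ((⌊x⌋₊ : ℕ) : ℝ) ^ κ) Filter.atTop Filter.atTop :=
    (tendsto_rpow_atTop hκ0).comp hfl
  have hlogt : Filter.Tendsto (fun x : ℝ => Real.log ((⌊x⌋₊ : ℕ) : ℝ)) Filter.atTop Filter.atTop :=
    Real.tendsto_log_atTop.comp hfl
  have hpx : Filter.Tendsto (fun x : ℝ => x ^ (κ / 2)) Filter.atTop Filter.atTop :=
    tendsto_rpow_atTop (by positivity)
  have ev := ((((((((hpow.eventually_ge_atTop 4).and (hpow.eventually_ge_atTop ((2 : ℝ) ^ J₀))).and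
    (hlogt.eventually_ge_atTop (70 * Real.log 2 / η))).and
    (hpow.eventually_ge_atTop (3200 * (80 + 3 * C₃ + 2 * C₃ ^ 2 + 72 * C₂ ^ 2) / η))).and
    (hpow.eventually_ge_atTop (20000 * C₃ ^ 4))).and
    (hpow.eventually_ge_atTop (80 * C₃ / η))).and
    (tendsto_nat_floor_atTop.eventually_ge_atTop (max 3 N₀))).and
    (Filter.eventually_ge_atTop (4 : ℝ))).and (hpx.eventually_ge_atTop 12)
  obtain ⟨x₀, hx₀⟩ := Filter.eventually_atTop.1 ev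
  refine ⟨κ / 4 * (η / 80) / 12800 / 4, by positivity, κ / 2, by positivity, x₀,
    fun x hx Q hQ hQx => ?_⟩
  obtain ⟨⟨⟨⟨⟨⟨⟨⟨h4, hJ⟩, hlg⟩, hu1⟩, hu5⟩, hu3⟩, hN⟩, hx4⟩, hx12⟩ := hx₀ x hx
  set N : ℕ := ⌊x⌋₊ with hNdef
  have hx0 : 0 < x := by linarith
  have hNx : (N : ℝ) ≤ x := Nat.floor_le hx0.le
  have hxN : x < N + 1 := Nat.lt_floor_add_one x
  have hN3 : 3 ≤ N := le_trans (le_max_left _ _) hN
  have hNN : N₀ ≤ N := le_trans (le_max_right _ _) hN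
  have hN1 : (1 : ℝ) ≤ N := by
    have : 1 ≤ N := by omega
    exact_mod_cast this
  have hNpos : (0 : ℝ) < N := by linarith
  have hQpos : 0 < Q := lt_of_lt_of_le (Real.rpow_pos_of_pos hx0 _) hQ
  obtain ⟨t, ht⟩ : ∃ t : ℝ, t = κ / 4 * (η / 80) / 12800 * (N * Real.log N) := ⟨_, rfl⟩
  -- the threshold
  have h1 : x / 2 ≤ N := by linarith
  have h2 : Real.log x / 2 ≤ Real.log N := by
    have h3 : Real.log (x / 2) ≤ Real.log N := Real.log_le_log (by positivity) h1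
    rw [Real.log_div (by positivity) (by norm_num)] at h3
    have h5 : 2 * Real.log 2 ≤ Real.log x := by
      have := Real.log_le_log (by norm_num) hx4
      rw [show (4 : ℝ) = 2 ^ 2 by norm_num, Real.log_pow] at this
      push_cast at this
      exact this
    linarith
  have hlx : 0 ≤ Real.log x := Real.log_nonneg (by linarith)
  have hthr : κ / 4 * (η / 80) / 12800 / 4 * x * Real.log x ≤ t := by
    rw [ht]
    calc κ / 4 * (η / 80) / 12800 / 4 * x * Real.log x =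
          κ / 4 * (η / 80) / 12800 * ((x / 2) * (Real.log x / 2)) := by ring
      _ ≤ κ / 4 * (η / 80) / 12800 * (N * Real.log N) := by gcongr
  -- the count
  have hE1 : 1 ≤ (N : ℝ) ^ ((1 : ℝ) / 2 + η) := Real.one_le_rpow hN1 (by positivity)
  have hMN : ⌊Q⌋₊ ≤ N := by
    rw [hNdef]
    exact Nat.floor_le_floor hQx
  have hcount := bad_count N t ((N : ℝ) ^ κ) ((N : ℝ) ^ ((1 : ℝ) / 2 + η)) (by linarith) hE1
    (fun Q' hQ1 hQN hEQ I hI hbad => one_block η κ C₂ C₃ N₀ J₀ hη0 hη1 hκ hC₂ hdiv hC₃ hN₀ hrec N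
      hN3 hNN ((N : ℝ) ^ κ) rfl h4 hJ hlg hu1 hu3 hu5 Q' hQ1 hQN hEQ I hI
      (fun q hq => by rw [← ht]; exact hbad q hq)) ⌊Q⌋₊ hMN
  have hset : (Set.ncard {q : ℕ | 1 ≤ q ∧ (q : ℝ) ≤ Q ∧ ∃ Y : ℝ,
        ∑ a ∈ (range q).filter (fun a => a.Coprime q),
          ((∑ n ∈ (Icc 1 N).filter (fun n => n % q = a), Λ n) - Y) ^ 2 <
            κ / 4 * (η / 80) / 12800 / 4 * x * Real.log x}) ≤ (BadSet N t ⌊Q⌋₊).card := by
    rw [← Set.ncard_coe_finset]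
    refine Set.ncard_le_ncard ?_ (Finset.finite_toSet _)
    classical
    rintro q ⟨hq1, hq2, Y, hY⟩
    rw [Finset.mem_coe, BadSet, mem_filter, mem_Icc]
    exact ⟨⟨hq1, Nat.le_floor hq2⟩, Y, lt_of_lt_of_le hY hthr⟩
  have hset' : ((Set.ncard {q : ℕ | 1 ≤ q ∧ (q : ℝ) ≤ Q ∧ ∃ Y : ℝ,
        ∑ a ∈ (range q).filter (fun a => a.Coprime q),
          ((∑ n ∈ (Icc 1 N).filter (fun n => n % q = a), Λ n) - Y) ^ 2 <
            κ / 4 * (η / 80) / 12800 / 4 * x * Real.log x} : ℕ) : ℝ) ≤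
            ((BadSet N t ⌊Q⌋₊).card : ℝ) := by exact_mod_cast hset
  refine le_trans hset' (le_trans hcount ?_)
  -- final numerics
  have hfQ : ((⌊Q⌋₊ : ℕ) : ℝ) ≤ Q := Nat.floor_le hQpos.le
  have hxk : x ^ κ / 2 ≤ (N : ℝ) ^ κ := by
    have e1 : (x / 2) ^ κ ≤ (N : ℝ) ^ κ := Real.rpow_le_rpow (by positivity) h1 hκ0.le
    have e2 : (x / 2) ^ κ = x ^ κ / 2 ^ κ := Real.div_rpow hx0.le (by norm_num) _
    have e3 : (2 : ℝ) ^ κ ≤ 2 := by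
      calc (2 : ℝ) ^ κ ≤ 2 ^ (1 : ℝ) := Real.rpow_le_rpow_of_exponent_le (by norm_num) (by
            rw [hκ]; linarith)
        _ = 2 := Real.rpow_one 2
    have e4 : x ^ κ / 2 ≤ x ^ κ / 2 ^ κ :=
      div_le_div_of_nonneg_left (by positivity) (by positivity) e3
    linarith
  have hx1 : 1 ≤ x := by linarith
  have a1 : (N : ℝ) ^ ((1 : ℝ) / 2 + η) ≤ Q * x ^ (-κ) := by
    have e1 : (N : ℝ) ^ ((1 : ℝ) / 2 + η) ≤ x ^ ((1 : ℝ) / 2 + η) :=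
      Real.rpow_le_rpow hNpos.le hNx (by positivity)
    have e2 : x ^ ((1 : ℝ) / 2 + η) ≤ x ^ ((1 : ℝ) / 2 + ε) * x ^ (-κ) := by
      rw [← Real.rpow_add hx0]
      apply Real.rpow_le_rpow_of_exponent_le hx1
      rw [hκ, hη]
      linarith
    have e3 : x ^ ((1 : ℝ) / 2 + ε) * x ^ (-κ) ≤ Q * x ^ (-κ) := by gcongr
    linarith
  have a2 : 3 * ((⌊Q⌋₊ : ℕ) : ℝ) / (N : ℝ) ^ κ ≤ 6 * (Q * x ^ (-κ)) := by
    rw [Real.rpow_neg hx0.le]
    have hxkpos : 0 < x ^ κ := by positivity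
    calc 3 * ((⌊Q⌋₊ : ℕ) : ℝ) / (N : ℝ) ^ κ ≤ 3 * Q / (x ^ κ / 2) := by gcongr
      _ = 6 * (Q * (x ^ κ)⁻¹) := by field_simp; ring
  have a3 : x ^ (-κ) * 12 ≤ x ^ (-(κ / 2)) := by
    have e1 : x ^ (-(κ / 2)) = x ^ (-κ) * x ^ (κ / 2) := by
      rw [← Real.rpow_add hx0]
      congr 1
      ring
    rw [e1]
    gcongr
  have a4 : 0 ≤ x ^ (-κ) := by positivity
  calc 2 * (N : ℝ) ^ ((1 : ℝ) / 2 + η) + 3 * ((⌊Q⌋₊ : ℕ) : ℝ) / (N : ℝ) ^ κ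
      ≤ 2 * (Q * x ^ (-κ)) + 6 * (Q * x ^ (-κ)) := by linarith
    _ ≤ Q * (x ^ (-κ) * 12) := by nlinarith [mul_nonneg hQpos.le a4]
    _ ≤ Q * x ^ (-(κ / 2)) := by gcongr

theorem almost_all (ε : ℝ) (hε : 0 < ε) :
    ∃ c : ℝ, 0 < c ∧ ∃ δ : ℝ, 0 < δ ∧ ∃ x₀ : ℝ, ∀ x : ℝ, x₀ ≤ x → ∀ Q : ℝ,
      x ^ ((1 : ℝ) / 2 + ε) ≤ Q → Q ≤ x →
      (Set.ncard {q : ℕ | 1 ≤ q ∧ (q : ℝ) ≤ Q ∧ ∃ Y : ℝ,
        ∑ a ∈ (range q).filter (fun a => a.Coprime q),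
          ((∑ n ∈ (Icc 1 ⌊x⌋₊).filter (fun n => n % q = a), Λ n) - Y) ^ 2 < c * x * Real.log x} : ℝ)
        ≤ Q * x ^ (-δ) := by
  obtain ⟨c, hc, δ, hδ, x₀, h⟩ := almost_small (min ε (1 / 12)) (lt_min hε (by norm_num))
    (min_le_right _ _)
  refine ⟨c, hc, δ, hδ, max x₀ 1, fun x hx Q hQ hQx => h x (le_trans (le_max_left _ _) hx) Q ?_ hQx⟩
  refine le_trans ?_ hQ
  apply Real.rpow_le_rpow_of_exponent_le (le_trans (le_max_right _ _) hx)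
  have := min_le_left ε (1 / 12)
  linarith

end Asm

end

end Pool.Agent.M848
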