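import Pool.Agent.Lib.MP_848d44_nt.Defs
import Pool.Agent.Lib.MP_848d44_nt.Tent
import Pool.Agent.Lib.MP_848d44_nt.OffB
import Pool.Agent.Lib.MP_848d44_nt.A.LSMul
import Pool.Agent.Lib.MP_848d44_nt.A.Tau

/-!
# MP_848d44_nt: the off-diagonal block on average over the modulus
-/

set_option autoImplicit false

namespace Pool.Agent.M848

open Finset
open scoped ArithmeticFunction ComplexConjugate

noncomputable section

namespace AvB

open MP848 L1Aux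

theorem cs2 (S : Finset ℕ) (X : ℕ → Finset (ℕ → ℂ)) (f g : ℕ → (ℕ → ℂ) → ℝ) (A B : ℝ)
    (hA : ∑ s ∈ S, ∑ χ ∈ X s, f s χ ^ 2 ≤ A) (hB : ∑ s ∈ S, ∑ χ ∈ X s, g s χ ^ 2 ≤ B) :
    ∑ s ∈ S, ∑ χ ∈ X s, f s χ * g s χ ≤ Real.sqrt A * Real.sqrt B := by
  have h := Real.sum_mul_le_sqrt_mul_sqrt (S.sigma X) (fun p => f p.1 p.2) (fun p => g p.1 p.2)
  rw [Finset.sum_sigma, Finset.sum_sigma, Finset.sum_sigma] at h
  exact h.trans (mul_le_mul (Real.sqrt_le_sqrt hA) (Real.sqrt_le_sqrt hB) (Real.sqrt_nonneg _)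
    (Real.sqrt_nonneg _))

theorem Ioc_eq (T : ℕ) : Ioc 0 (0 + T) = Icc 1 T := by
  ext r
  simp only [Finset.mem_Ioc, Finset.mem_Icc]
  omega

/-- the large sieve, with crude constants -/
theorem ls_crude (N R : ℕ) (hR : 1 ≤ R) (hRN : R ^ 2 ≤ N) (c : ℕ → ℂ) (T : ℕ) (hT : T ≤ N) :
    ∑ s ∈ PR R, ∑ χ ∈ nc s, ‖∑ v ∈ Icc 1 T, c v * χ v‖ ^ 2 ≤
      13 * N * (1 + Real.log N) * ∑ v ∈ Icc 1 T, ‖c v‖ ^ 2 := by
  have h := ls_nc hR c 0 T
  rw [Ioc_eq] at h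
  refine h.trans (mul_le_mul_of_nonneg_right ?_ (Finset.sum_nonneg fun v _ => by positivity))
  have hRr : (1 : ℝ) ≤ R := by exact_mod_cast hR
  have hRN' : (R : ℝ) ^ 2 ≤ N := by exact_mod_cast hRN
  have hTr : (T : ℝ) ≤ N := by exact_mod_cast hT
  have hN1 : (1 : ℝ) ≤ N := le_trans (by nlinarith) hRN'
  have hlog : 0 ≤ Real.log N := Real.log_nonneg hN1
  have h4 : Real.log (4 * (R : ℝ) ^ 2) ≤ 2 + Real.log N := by
    have h5 : Real.log (4 * (R : ℝ) ^ 2) ≤ Real.log (4 * N) :=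
      Real.log_le_log (by positivity) (by linarith)
    have h7 : Real.log (4 * (N : ℝ)) = Real.log 4 + Real.log N :=
      Real.log_mul (by norm_num) (by positivity)
    have h8 : Real.log 4 ≤ 2 := by
      rw [show (4 : ℝ) = 2 ^ 2 by norm_num, Real.log_pow]
      have := Real.log_two_lt_d9
      push_cast
      linarith
    linarith
  have h6 : 0 ≤ Real.log (4 * (R : ℝ) ^ 2) := Real.log_nonneg (by nlinarith)
  calc (T : ℝ) + 4 * (R : ℝ) ^ 2 * (1 + Real.log (4 * (R : ℝ) ^ 2))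
      ≤ N + 4 * N * (1 + (2 + Real.log N)) := by gcongr
    _ ≤ 13 * N * (1 + Real.log N) := by nlinarith

/-- the mean square of `SL` -/
theorem sl_sq (N R d y : ℕ) (hR : 1 ≤ R) (hRN : R ^ 2 ≤ N) (hy : y ≤ N) (ξ : ℕ → ℂ)
    (hξ : ξ ∈ ac d) :
    ∑ s ∈ PR R, ∑ χ ∈ nc s, ‖SL (fun n => χ n * ξ n) y‖ ^ 2 ≤
      13 * N ^ 2 * (1 + Real.log N) ^ 3 := by
  have h := ls_crude N R hR hRN (fun n => ((Λ n : ℝ) : ℂ) * ξ n) y hy
  have e : ∀ χ : ℕ → ℂ, ∑ v ∈ Icc 1 y, ((Λ v : ℝ) : ℂ) * ξ v * χ v = SL (fun n => χ n * ξ n) y := by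
    intro χ
    rw [SL]
    refine Finset.sum_congr rfl fun v _ => ?_
    ring
  simp only [e] at h
  refine h.trans ?_
  have hN1 : 1 ≤ N := le_trans (Nat.one_le_pow 2 R hR) hRN
  have hNr : (1 : ℝ) ≤ N := by exact_mod_cast hN1
  have hlog : 0 ≤ Real.log N := Real.log_nonneg hNr
  have h2 : ∑ v ∈ Icc 1 y, ‖((Λ v : ℝ) : ℂ) * ξ v‖ ^ 2 ≤ N * (1 + Real.log N) ^ 2 := by
    calc ∑ v ∈ Icc 1 y, ‖((Λ v : ℝ) : ℂ) * ξ v‖ ^ 2 ≤ ∑ v ∈ Icc 1 y, (1 + Real.log N) ^ 2 := by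
          refine Finset.sum_le_sum fun v hv => ?_
          rw [Finset.mem_Icc] at hv
          rw [norm_mul, Complex.norm_real, Real.norm_of_nonneg ArithmeticFunction.vonMangoldt_nonneg]
          have h3 : (Λ v : ℝ) ≤ Real.log N := by
            refine ArithmeticFunction.vonMangoldt_le_log.trans ?_
            exact Real.log_le_log (by exact_mod_cast hv.1) (by exact_mod_cast hv.2.trans hy)
          have h4 : (Λ v : ℝ) * ‖ξ v‖ ≤ 1 + Real.log N := by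
            calc (Λ v : ℝ) * ‖ξ v‖ ≤ Real.log N * 1 :=
                  mul_le_mul h3 (ac_norm hξ v) (norm_nonneg _) hlog
              _ ≤ 1 + Real.log N := by linarith
          exact pow_le_pow_left₀
            (mul_nonneg ArithmeticFunction.vonMangoldt_nonneg (norm_nonneg _)) h4 2
      _ = y * (1 + Real.log N) ^ 2 := by simp
      _ ≤ N * (1 + Real.log N) ^ 2 := by
          gcongr
  calc 13 * N * (1 + Real.log N) * ∑ v ∈ Icc 1 y, ‖((Λ v : ℝ) : ℂ) * ξ v‖ ^ 2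
      ≤ 13 * N * (1 + Real.log N) * (N * (1 + Real.log N) ^ 2) := by gcongr
    _ = 13 * N ^ 2 * (1 + Real.log N) ^ 3 := by ring

/-- the mean square of the sums over `v` -/
theorem u_sq (N R d : ℕ) (hR : 1 ≤ R) (hRN : R ^ 2 ≤ N) (ξ : ℕ → ℂ)
    (hξ : ξ ∈ ac d) (e : ℕ → ℂ) (he : ∀ v, ‖e v‖ ≤ (v.divisors.card : ℝ)) (t : ℕ → ℝ) (τ : ℝ)
    (ht : ∀ v, |t v| ≤ τ) :
    ∑ s ∈ PR R, ∑ χ ∈ nc s, ‖∑ v ∈ Icc 1 N, e v * (t v : ℂ) * conj (χ v * ξ v)‖ ^ 2 ≤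
      13 * N ^ 2 * (1 + Real.log N) ^ 4 * τ ^ 2 := by
  have h := ls_crude N R hR hRN (fun v => conj (e v) * (t v : ℂ) * ξ v) N le_rfl
  have e1 : ∀ χ : ℕ → ℂ, ‖∑ v ∈ Icc 1 N, e v * (t v : ℂ) * conj (χ v * ξ v)‖ =
      ‖∑ v ∈ Icc 1 N, conj (e v) * (t v : ℂ) * ξ v * χ v‖ := by
    intro χ
    rw [← RCLike.norm_conj, map_sum]
    congr 1
    refine Finset.sum_congr rfl fun v _ => ?_
    simp only [map_mul, Complex.conj_conj, Complex.conj_ofReal]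
    ring
  simp only [e1]
  refine h.trans ?_
  have hN1 : 1 ≤ N := le_trans (Nat.one_le_pow 2 R hR) hRN
  have hNr : (1 : ℝ) ≤ N := by exact_mod_cast hN1
  have hlog : 0 ≤ Real.log N := Real.log_nonneg hNr
  have hτ : 0 ≤ τ := (abs_nonneg _).trans (ht 0)
  have h2 : ∑ v ∈ Icc 1 N, ‖conj (e v) * (t v : ℂ) * ξ v‖ ^ 2 ≤
      τ ^ 2 * (N * (1 + Real.log N) ^ 3) := by
    calc ∑ v ∈ Icc 1 N, ‖conj (e v) * (t v : ℂ) * ξ v‖ ^ 2
        ≤ ∑ v ∈ Icc 1 N, τ ^ 2 * ((v.divisors.card : ℕ) : ℝ) ^ 2 := by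
          refine Finset.sum_le_sum fun v _ => ?_
          rw [norm_mul, norm_mul, RCLike.norm_conj, Complex.norm_real, Real.norm_eq_abs, ← mul_pow]
          have h3 : ‖e v‖ * |t v| * ‖ξ v‖ ≤ τ * (v.divisors.card : ℝ) := by
            calc ‖e v‖ * |t v| * ‖ξ v‖ ≤ (v.divisors.card : ℝ) * τ * 1 := by
                  have a1 := he v
                  have a2 := ht v
                  have a3 := ac_norm hξ v
                  gcongr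
              _ = τ * (v.divisors.card : ℝ) := by ring
          exact pow_le_pow_left₀ (by positivity) h3 2
      _ = τ ^ 2 * ∑ v ∈ Icc 1 N, ((v.divisors.card : ℕ) : ℝ) ^ 2 := by rw [Finset.mul_sum]
      _ ≤ τ ^ 2 * (N * (1 + Real.log N) ^ 3) := by
          gcongr
          have := tau_sq_sum_log N
          rwa [← Ioc_eq, zero_add]
  calc 13 * N * (1 + Real.log N) * ∑ v ∈ Icc 1 N, ‖conj (e v) * (t v : ℂ) * ξ v‖ ^ 2
      ≤ 13 * N * (1 + Real.log N) * (τ ^ 2 * (N * (1 + Real.log N) ^ 3)) := by gcongr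
    _ = 13 * N ^ 2 * (1 + Real.log N) ^ 4 * τ ^ 2 := by ring

end AvB

open MP848 L1Aux AvB

/-- AVB. The off-diagonal block with arbitrary coefficients. -/
theorem avg_block (N R d : ℕ) (hR : 1 ≤ R) (hRN : R ^ 2 ≤ N) (ξ : ℕ → ℂ) (hξ : ξ ∈ ac d)
    (σ : ℤ) (e : ℕ → ℂ) (he : ∀ v, ‖e v‖ ≤ (v.divisors.card : ℝ)) :
    ∑ s ∈ PR R, (1 / ((s : ℝ) - 1)) * ∑ χ ∈ nc s,
        ‖∑ n ∈ Icc 1 N, ((Λ n : ℝ) : ℂ) * (χ n * ξ n) *
          ∑ v ∈ Icc 1 N, e v * ((tent N ((n : ℤ) + σ * v) : ℝ) : ℂ) * conj (χ v * ξ v)‖ ≤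
        26 * (1 + Real.log N) ^ 4 * (N ^ 2 / R) := by
  have hN1 : 1 ≤ N := le_trans (Nat.one_le_pow 2 R hR) hRN
  have hNr : (1 : ℝ) ≤ N := by exact_mod_cast hN1
  have hRr : (1 : ℝ) ≤ R := by exact_mod_cast hR
  have hRpos : (0 : ℝ) < R := by linarith
  have hNpos : (0 : ℝ) < N := by linarith
  have hlog : 0 ≤ Real.log N := Real.log_nonneg hNr
  set L : ℝ := 1 + Real.log N with hL
  have hL1 : 1 ≤ L := by linarith
  -- the functions U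
  set U : (ℕ → ℂ) → ℤ → ℂ := fun χ y => ∑ v ∈ Icc 1 N,
    e v * ((tent N (y + σ * v) : ℝ) : ℂ) * conj (χ v * ξ v) with hU
  have hUd : ∀ χ y, U χ y - U χ (y + 1) = ∑ v ∈ Icc 1 N,
      e v * ((tent N (y + σ * v) - tent N (y + σ * v + 1) : ℝ) : ℂ) * conj (χ v * ξ v) := by
    intro χ y
    simp only [hU]
    rw [← Finset.sum_sub_distrib]
    refine Finset.sum_congr rfl fun v _ => ?_
    rw [show y + 1 + σ * (v : ℤ) = y + σ * v + 1 by ring]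
    push_cast
    ring
  have hdu : ∀ y : ℤ, ∑ s ∈ PR R, ∑ χ ∈ nc s, ‖U χ y - U χ (y + 1)‖ ^ 2 ≤ 13 * L ^ 4 := by
    intro y
    simp only [hUd]
    have h := u_sq N R d hR hRN ξ hξ e he
      (fun v => tent N (y + σ * v) - tent N (y + σ * v + 1)) (1 / N)
      (fun v => tent_lip N _)
    refine h.trans (le_of_eq ?_)
    rw [← hL]
    field_simp
  have hu : ∀ y : ℤ, ∑ s ∈ PR R, ∑ χ ∈ nc s, ‖U χ y‖ ^ 2 ≤ 13 * N ^ 2 * L ^ 4 := by
    intro y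
    have h := u_sq N R d hR hRN ξ hξ e he (fun v => tent N (y + σ * v)) 1
      (fun v => by
        rw [abs_of_nonneg (tent_nonneg N _)]
        exact (tent_le N _).trans (by norm_num))
    refine h.trans (le_of_eq ?_)
    rw [← hL]
    ring
  have hsl := fun y (hy : y ≤ N) => sl_sq N R d y hR hRN hy ξ hξ
  -- the terms
  have hterm : ∀ χ : ℕ → ℂ, ‖∑ n ∈ Icc 1 N, ((Λ n : ℝ) : ℂ) * (χ n * ξ n) *
          ∑ v ∈ Icc 1 N, e v * ((tent N ((n : ℤ) + σ * v) : ℝ) : ℂ) * conj (χ v * ξ v)‖ ≤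
      ∑ y ∈ Icc 1 N, ‖SL (fun n => χ n * ξ n) y‖ * ‖U χ (y : ℤ) - U χ ((y : ℤ) + 1)‖ +
        ‖SL (fun n => χ n * ξ n) N‖ * ‖U χ ((N : ℤ) + 1)‖ := by
    intro χ
    have hab := OffBAux.abel (fun n => ((Λ n : ℝ) : ℂ) * (χ n * ξ n)) (U χ) N
    have hS : ∀ y, ∑ n ∈ Icc 1 y, ((Λ n : ℝ) : ℂ) * (χ n * ξ n) =
        SL (fun n => χ n * ξ n) y := fun y => rfl
    simp only [hS] at hab
    change ‖∑ n ∈ Icc 1 N, ((Λ n : ℝ) : ℂ) * (χ n * ξ n) * U χ (n : ℤ)‖ ≤ _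
    rw [hab]
    refine (norm_add_le _ _).trans (add_le_add ?_ ?_)
    · refine (norm_sum_le _ _).trans (Finset.sum_le_sum fun y _ => ?_)
      rw [norm_mul]
    · rw [norm_mul]
  have hinner : ∑ s ∈ PR R, ∑ χ ∈ nc s, ‖∑ n ∈ Icc 1 N, ((Λ n : ℝ) : ℂ) * (χ n * ξ n) *
          ∑ v ∈ Icc 1 N, e v * ((tent N ((n : ℤ) + σ * v) : ℝ) : ℂ) * conj (χ v * ξ v)‖ ≤
      26 * N ^ 2 * L ^ 4 := by
    calc _ ≤ ∑ s ∈ PR R, ∑ χ ∈ nc s,
          (∑ y ∈ Icc 1 N, ‖SL (fun n => χ n * ξ n) y‖ * ‖U χ (y : ℤ) - U χ ((y : ℤ) + 1)‖ +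
          ‖SL (fun n => χ n * ξ n) N‖ * ‖U χ ((N : ℤ) + 1)‖) :=
          Finset.sum_le_sum fun s _ => Finset.sum_le_sum fun χ _ => hterm χ
      _ = ∑ y ∈ Icc 1 N, ∑ s ∈ PR R, ∑ χ ∈ nc s,
            ‖SL (fun n => χ n * ξ n) y‖ * ‖U χ (y : ℤ) - U χ ((y : ℤ) + 1)‖ +
          ∑ s ∈ PR R, ∑ χ ∈ nc s, ‖SL (fun n => χ n * ξ n) N‖ * ‖U χ ((N : ℤ) + 1)‖ := by
          simp only [Finset.sum_add_distrib]
          congr 1
          rw [Finset.sum_comm]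
          refine Finset.sum_congr rfl fun s _ => ?_
          exact Finset.sum_comm
      _ ≤ ∑ y ∈ Icc 1 N, 13 * N * L ^ 4 + 13 * N ^ 2 * L ^ 4 := by
          refine add_le_add (Finset.sum_le_sum fun y hy => ?_) ?_
          · refine (cs2 (PR R) nc (fun _ χ => ‖SL (fun n => χ n * ξ n) y‖)
              (fun _ χ => ‖U χ (y : ℤ) - U χ ((y : ℤ) + 1)‖) _ _ (hsl y (mem_Icc.1 hy).2)
              (hdu y)).trans ?_
            rw [← Real.sqrt_mul (by positivity), Real.sqrt_le_left (by positivity)]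
            rw [← hL]
            have : L ^ 7 ≤ L ^ 8 := pow_le_pow_right₀ hL1 (by norm_num)
            calc 13 * (N : ℝ) ^ 2 * L ^ 3 * (13 * L ^ 4) = 169 * (N : ℝ) ^ 2 * L ^ 7 := by ring
              _ ≤ 169 * (N : ℝ) ^ 2 * L ^ 8 := by gcongr
              _ = (13 * N * L ^ 4) ^ 2 := by ring
          · refine (cs2 (PR R) nc (fun _ χ => ‖SL (fun n => χ n * ξ n) N‖)
              (fun _ χ => ‖U χ ((N : ℤ) + 1)‖) _ _ (hsl N le_rfl) (hu _)).trans ?_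
            rw [← Real.sqrt_mul (by positivity), Real.sqrt_le_left (by positivity)]
            rw [← hL]
            have : L ^ 7 ≤ L ^ 8 := pow_le_pow_right₀ hL1 (by norm_num)
            calc 13 * (N : ℝ) ^ 2 * L ^ 3 * (13 * N ^ 2 * L ^ 4) = 169 * (N : ℝ) ^ 4 * L ^ 7 := by
                  ring
              _ ≤ 169 * (N : ℝ) ^ 4 * L ^ 8 := by gcongr
              _ = (13 * N ^ 2 * L ^ 4) ^ 2 := by ring
      _ = 26 * N ^ 2 * L ^ 4 := by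
          rw [Finset.sum_const, Nat.card_Icc, nsmul_eq_mul, Nat.add_sub_cancel]
          ring
  calc _ ≤ ∑ s ∈ PR R, (1 / (R : ℝ)) * ∑ χ ∈ nc s,
        ‖∑ n ∈ Icc 1 N, ((Λ n : ℝ) : ℂ) * (χ n * ξ n) *
          ∑ v ∈ Icc 1 N, e v * ((tent N ((n : ℤ) + σ * v) : ℝ) : ℂ) * conj (χ v * ξ v)‖ := by
        refine Finset.sum_le_sum fun s hs => mul_le_mul_of_nonneg_right ?_
          (Finset.sum_nonneg fun χ _ => norm_nonneg _)
        rw [PR, mem_filter, mem_Ioc] at hs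
        have hsr : (R : ℝ) ≤ (s : ℝ) - 1 := by
          have : ((R + 1 : ℕ) : ℝ) ≤ (s : ℝ) := by exact_mod_cast hs.1.1
          push_cast at this
          linarith
        exact one_div_le_one_div_of_le hRpos hsr
    _ = (1 / (R : ℝ)) * ∑ s ∈ PR R, ∑ χ ∈ nc s,
        ‖∑ n ∈ Icc 1 N, ((Λ n : ℝ) : ℂ) * (χ n * ξ n) *
          ∑ v ∈ Icc 1 N, e v * ((tent N ((n : ℤ) + σ * v) : ℝ) : ℂ) * conj (χ v * ξ v)‖ := by
        rw [Finset.mul_sum]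
    _ ≤ (1 / (R : ℝ)) * (26 * N ^ 2 * L ^ 4) := by gcongr
    _ = 26 * L ^ 4 * (N ^ 2 / R) := by
        field_simp

end

end Pool.Agent.M848
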