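import Mathlib

/-!
# MP_848d44_nt: from dyadic blocks of moduli to all moduli `q ≤ Q`
-/

set_option autoImplicit false

namespace Pool.Agent.M848

open Finset

noncomputable section

open Classical in
/-- BLK. From dyadic blocks to all moduli. -/
theorem blocks_to_all (ε δ x₀ : ℝ) (hε : 0 < ε) (hδ : 0 < δ) (Bad : ℝ → ℕ → Prop)
    (h : ∀ x : ℝ, x₀ ≤ x → ∀ Q : ℕ, x ^ ((1 : ℝ) / 2 + ε / 2) ≤ Q → (Q : ℝ) ≤ x →
      (((Ioc Q (2 * Q)).filter fun q : ℕ => (q : ℝ) ≤ x ∧ Bad x q).card : ℝ) ≤ Q * x ^ (-δ)) :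
    ∃ δ' : ℝ, 0 < δ' ∧ ∃ x₁ : ℝ, ∀ x : ℝ, x₁ ≤ x → ∀ Q : ℝ, x ^ ((1 : ℝ) / 2 + ε) ≤ Q → Q ≤ x →
      (((Icc 1 ⌊Q⌋₊).filter fun q : ℕ => Bad x q).card : ℝ) ≤ Q * x ^ (-δ') := by
  obtain ⟨η, hη⟩ : ∃ η : ℝ, η = min δ (ε / 2) / 2 := ⟨_, rfl⟩
  have hm : 0 < min δ (ε / 2) := lt_min hδ (by positivity)
  have hη0 : 0 < η := by rw [hη]; positivity
  have hη1 : 2 * η ≤ δ := by rw [hη]; linarith [min_le_left δ (ε / 2)]
  have hη2 : 2 * η ≤ ε / 2 := by rw [hη]; linarith [min_le_right δ (ε / 2)]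
  refine ⟨η, hη0, ?_⟩
  -- asymptotics
  have hpow : Filter.Tendsto (fun x : ℝ => x ^ (η / 2)) Filter.atTop Filter.atTop :=
    tendsto_rpow_atTop (by positivity)
  have ev := ((hpow.eventually_ge_atTop (8 + 8 / η)).and
    (Filter.eventually_ge_atTop (1 : ℝ))).and (Filter.eventually_ge_atTop x₀)
  obtain ⟨x₁, hx₁⟩ := Filter.eventually_atTop.1 ev
  refine ⟨x₁, fun x hx Q hQ hQx => ?_⟩
  obtain ⟨⟨hbig, hx1⟩, hx0⟩ := hx₁ x hx
  have hxpos : 0 < x := by linarith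
  set y : ℝ := x ^ ((1 : ℝ) / 2 + ε / 2) with hy
  have hy1 : 1 ≤ y := Real.one_le_rpow hx1 (by positivity)
  have hQ1 : 1 ≤ Q := (Real.one_le_rpow hx1 (by positivity)).trans hQ
  have hQ0 : 0 < Q := by linarith
  -- the covering
  set J : Finset ℕ := (range (Nat.log 2 ⌊Q⌋₊ + 1)).filter fun j => y ≤ (2 : ℝ) ^ j with hJ
  have hcov : ((Icc 1 ⌊Q⌋₊).filter fun q : ℕ => Bad x q) ⊆ Icc 1 ⌊2 * y⌋₊ ∪
      J.biUnion fun j => (Ioc (2 ^ j) (2 * 2 ^ j)).filter fun q : ℕ => (q : ℝ) ≤ x ∧ Bad x q := by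
    intro q hq
    rw [mem_filter, mem_Icc] at hq
    obtain ⟨⟨hq1, hqQ⟩, hbad⟩ := hq
    have hqQr : (q : ℝ) ≤ Q := le_trans (by exact_mod_cast hqQ) (Nat.floor_le hQ0.le)
    rw [mem_union, mem_Icc, mem_biUnion]
    by_cases hc : (q : ℝ) ≤ 2 * y
    · left
      exact ⟨hq1, Nat.le_floor hc⟩
    · right
      rw [not_le] at hc
      have hq2 : 2 ≤ q := by
        have : (2 : ℝ) < q := by linarith
        have : 2 < q := by exact_mod_cast this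
        omega
      refine ⟨Nat.log 2 (q - 1), ?_, ?_⟩
      · rw [hJ, mem_filter, mem_range]
        refine ⟨?_, ?_⟩
        · have : Nat.log 2 (q - 1) ≤ Nat.log 2 ⌊Q⌋₊ := Nat.log_mono_right (by omega)
          omega
        · have h1 : q - 1 < 2 ^ (Nat.log 2 (q - 1) + 1) :=
            Nat.lt_pow_succ_log_self (by norm_num) _
          have h2 : q ≤ 2 * 2 ^ Nat.log 2 (q - 1) := by
            rw [pow_succ] at h1
            omega
          have h3 : (q : ℝ) ≤ 2 * 2 ^ Nat.log 2 (q - 1) := by exact_mod_cast h2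
          linarith
      · rw [mem_filter, mem_Ioc]
        have h1 : q - 1 < 2 ^ (Nat.log 2 (q - 1) + 1) :=
            Nat.lt_pow_succ_log_self (by norm_num) _
        have h2 : 2 ^ Nat.log 2 (q - 1) ≤ q - 1 := Nat.pow_log_le_self 2 (by omega)
        rw [pow_succ] at h1
        exact ⟨⟨by omega, by omega⟩, hqQr.trans hQx, hbad⟩
  -- the cardinalities
  have hc1 : (((Icc 1 ⌊Q⌋₊).filter fun q : ℕ => Bad x q).card : ℝ) ≤
      2 * y + (Nat.log 2 ⌊Q⌋₊ + 1) * (Q * x ^ (-δ)) := by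
    have h1 := (card_le_card hcov).trans (card_union_le _ _)
    have h2 : (((Icc 1 ⌊Q⌋₊).filter fun q : ℕ => Bad x q).card : ℝ) ≤
        ((Icc 1 ⌊2 * y⌋₊).card : ℝ) + ((J.biUnion fun j => (Ioc (2 ^ j) (2 * 2 ^ j)).filter
          fun q : ℕ => (q : ℝ) ≤ x ∧ Bad x q).card : ℝ) := by exact_mod_cast h1
    refine h2.trans (add_le_add ?_ ?_)
    · rw [Nat.card_Icc, Nat.add_sub_cancel]
      exact Nat.floor_le (by positivity)
    · have h3 : ((J.biUnion fun j => (Ioc (2 ^ j) (2 * 2 ^ j)).filter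
          fun q : ℕ => (q : ℝ) ≤ x ∧ Bad x q).card : ℝ) ≤
          ∑ j ∈ J, (((Ioc (2 ^ j) (2 * 2 ^ j)).filter fun q : ℕ => (q : ℝ) ≤ x ∧ Bad x q).card : ℝ) := by
        exact_mod_cast card_biUnion_le
      refine h3.trans ?_
      have h4 : ∀ j ∈ J, (((Ioc (2 ^ j) (2 * 2 ^ j)).filter
          fun q : ℕ => (q : ℝ) ≤ x ∧ Bad x q).card : ℝ) ≤ Q * x ^ (-δ) := by
        intro j hj
        rw [hJ, mem_filter, mem_range] at hj
        have h5 : (2 : ℝ) ^ j ≤ Q := by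
          have h6 : 2 ^ j ≤ 2 ^ Nat.log 2 ⌊Q⌋₊ := Nat.pow_le_pow_right (by norm_num) (by omega)
          have h7 : 2 ^ Nat.log 2 ⌊Q⌋₊ ≤ ⌊Q⌋₊ :=
            Nat.pow_log_le_self 2 (by rw [Nat.ne_zero_iff_zero_lt, Nat.floor_pos]; exact hQ1)
          have h8 : ((2 ^ j : ℕ) : ℝ) ≤ (⌊Q⌋₊ : ℝ) := by exact_mod_cast h6.trans h7
          push_cast at h8
          exact h8.trans (Nat.floor_le hQ0.le)
        have h9 := h x hx0 (2 ^ j) (by push_cast; exact hj.2) (by push_cast; linarith)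
        refine h9.trans ?_
        push_cast
        have : 0 ≤ x ^ (-δ) := Real.rpow_nonneg hxpos.le _
        gcongr
      refine (sum_le_sum h4).trans ?_
      rw [sum_const, nsmul_eq_mul]
      have h10 : (J.card : ℝ) ≤ Nat.log 2 ⌊Q⌋₊ + 1 := by
        have : J.card ≤ Nat.log 2 ⌊Q⌋₊ + 1 := by
          refine (card_filter_le _ _).trans ?_
          rw [card_range]
        exact_mod_cast this
      have : 0 ≤ x ^ (-δ) := Real.rpow_nonneg hxpos.le _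
      gcongr
  refine hc1.trans ?_
  -- first term
  have t1 : 2 * y ≤ Q * (2 * x ^ (-(2 * η))) := by
    have h1 : y = x ^ ((1 : ℝ) / 2 + ε) * x ^ (-(ε / 2)) := by
      rw [hy, ← Real.rpow_add hxpos]
      congr 1
      ring
    have h2 : x ^ (-(ε / 2)) ≤ x ^ (-(2 * η)) :=
      Real.rpow_le_rpow_of_exponent_le hx1 (by linarith)
    have h3 : 0 ≤ x ^ (-(ε / 2)) := Real.rpow_nonneg hxpos.le _
    calc 2 * y = 2 * (x ^ ((1 : ℝ) / 2 + ε) * x ^ (-(ε / 2))) := by rw [h1]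
      _ ≤ 2 * (Q * x ^ (-(2 * η))) := by gcongr
      _ = _ := by ring
  -- second term
  have hlog : (Nat.log 2 ⌊Q⌋₊ : ℝ) + 1 ≤ (8 / η) * x ^ (η / 2) + 1 := by
    have h1 : (2 : ℝ) ^ (Nat.log 2 ⌊Q⌋₊) ≤ x := by
      have h7 : 2 ^ Nat.log 2 ⌊Q⌋₊ ≤ ⌊Q⌋₊ :=
        Nat.pow_log_le_self 2 (by rw [Nat.ne_zero_iff_zero_lt, Nat.floor_pos]; exact hQ1)
      have h8 : ((2 ^ Nat.log 2 ⌊Q⌋₊ : ℕ) : ℝ) ≤ (⌊Q⌋₊ : ℝ) := by exact_mod_cast h7
      push_cast at h8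
      exact h8.trans ((Nat.floor_le hQ0.le).trans hQx)
    have h2 := Real.log_le_log (by positivity) h1
    rw [Real.log_pow] at h2
    have h3 := Real.log_two_gt_d9
    have h4 : (0 : ℝ) ≤ Nat.log 2 ⌊Q⌋₊ := Nat.cast_nonneg _
    have h5 := Real.log_le_rpow_div hxpos.le (show 0 < η / 2 by positivity)
    have h6 : x ^ (η / 2) / (η / 2) = (2 / η) * x ^ (η / 2) := by field_simp
    have h7 : (0 : ℝ) ≤ (2 / η) * x ^ (η / 2) := by positivity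
    have h8 : (8 / η) * x ^ (η / 2) = 4 * ((2 / η) * x ^ (η / 2)) := by ring
    rw [h6] at h5
    rw [h8]
    nlinarith
  have t2 : ((Nat.log 2 ⌊Q⌋₊ : ℝ) + 1) * (Q * x ^ (-δ)) ≤
      Q * (((8 / η) * x ^ (η / 2) + 1) * x ^ (-(2 * η))) := by
    have h2 : x ^ (-δ) ≤ x ^ (-(2 * η)) :=
      Real.rpow_le_rpow_of_exponent_le hx1 (by linarith)
    have h3 : 0 ≤ x ^ (-δ) := Real.rpow_nonneg hxpos.le _
    have h4 : (0 : ℝ) ≤ (8 / η) * x ^ (η / 2) + 1 := by positivity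
    calc ((Nat.log 2 ⌊Q⌋₊ : ℝ) + 1) * (Q * x ^ (-δ))
        ≤ ((8 / η) * x ^ (η / 2) + 1) * (Q * x ^ (-(2 * η))) := by gcongr
      _ = _ := by ring
  have hz : x ^ (-η) = x ^ (η / 2) * x ^ (η / 2) * x ^ (-(2 * η)) := by
    rw [← Real.rpow_add hxpos, ← Real.rpow_add hxpos]
    congr 1
    ring
  have hz0 : 0 ≤ x ^ (-(2 * η)) := Real.rpow_nonneg hxpos.le _
  have hw1 : 1 ≤ x ^ (η / 2) := Real.one_le_rpow hx1 (by positivity)
  calc 2 * y + ((Nat.log 2 ⌊Q⌋₊ : ℝ) + 1) * (Q * x ^ (-δ))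
      ≤ Q * (2 * x ^ (-(2 * η))) + Q * (((8 / η) * x ^ (η / 2) + 1) * x ^ (-(2 * η))) :=
        add_le_add t1 t2
    _ = Q * ((3 + (8 / η) * x ^ (η / 2)) * x ^ (-(2 * η))) := by ring
    _ ≤ Q * ((x ^ (η / 2) * x ^ (η / 2)) * x ^ (-(2 * η))) := by
        gcongr
        have h8 : 0 ≤ 8 / η := by positivity
        nlinarith
    _ = Q * x ^ (-η) := by rw [hz]

end

end Pool.Agent.M848
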